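import Pool.Agent.Helper82K9.PM4
import Pool.Agent.Helper82K9.GK.SP6

/-! Densities in the sparse sets of the integers for which a polynomial is near an integer. -/

set_option autoImplicit false

namespace Pool.Agent.Helper82K9.PM

open Finset Filter Topology Polynomial Pool.Agent.H499R2.ND Pool.Agent.W41 Pool.Agent.W36.FD Pool.Agent.Helper82K9.GK
open Pool.Agent.Results.MP_7f88e4_nt.ResidueClasses (Rel)
open Pool.Agent.Y965.PS (Sync)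
open Pool.Agent.Y55.DS (Dioph)

open Classical in
/-- the indicator of an invariant set on one side -/
theorem sync_inv {d : ℤ} (hd : Odd d) {s : ℤ} (hs : s = 1 ∨ s = -1) {S : Set ℤ} (hS : Inv d S) :
    Sync (s * d) (fun x => if s * x ∈ S then 1 else 0) := by
  refine ⟨fun x => by by_cases h : s * x ∈ S <;> simp [h], fun j x y h => ?_⟩
  have hss : s * s = 1 := by rcases hs with rfl | rfl <;> norm_num
  have e1 : ∀ x : ℤ, s * x ∈ S ↔ s * (Td (s * d))^[j] x ∈ S := by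
    intro x
    rw [Td_side hd hs j x, ← mul_assoc, hss, one_mul]
    exact inv_iter hS j (s * x)
  have h' : (Td (s * d))^[j] x = (Td (s * d))^[j] y := h
  have e : s * x ∈ S ↔ s * y ∈ S := by rw [e1 x, e1 y, h']
  simp only [e]

open Classical in
theorem sifted_side {s : ℤ} (hs : s = 1 ∨ s = -1) (N q : ℕ) (a : ℤ) :
    Sifted s 0 N q (s * a) ∅ =
      ((((Icc 1 N).filter (fun n : ℕ => (n : ℤ) ≡ a [ZMOD q])).image (fun n : ℕ => s * (n : ℤ)) : Finset ℤ) : Set ℤ) := by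
  have hss : s * s = 1 := by rcases hs with rfl | rfl <;> norm_num
  have hmod : ∀ x y : ℤ, x ≡ y [ZMOD q] ↔ s * x ≡ s * y [ZMOD q] := by
    intro x y
    constructor
    · exact fun h => h.mul_left s
    · intro h
      have := h.mul_left s
      rwa [← mul_assoc, ← mul_assoc, hss, one_mul, one_mul] at this
  ext x
  simp only [Sifted, Set.mem_ofPred_eq, coe_image, coe_filter, Set.mem_image, mem_Icc]
  constructor
  · rintro ⟨h1, h2, h3, -⟩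
    push_cast at h1
    refine ⟨(s * x).toNat, ⟨⟨by omega, by omega⟩, ?_⟩, ?_⟩
    · rw [Int.toNat_of_nonneg h1.le, hmod, ← mul_assoc, hss, one_mul]; exact h3
    · rw [Int.toNat_of_nonneg h1.le, ← mul_assoc, hss, one_mul]
  · rintro ⟨n, ⟨⟨h1, h2⟩, h3⟩, rfl⟩
    rw [← mul_assoc, hss, one_mul]
    refine ⟨by push_cast; omega, by omega, ?_, by simp⟩
    exact (hmod _ _).1 h3

theorem side_inj {s : ℤ} (hs : s = 1 ∨ s = -1) : Function.Injective (fun n : ℕ => s * (n : ℤ)) := by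
  intro x y h
  have h' : s * (x : ℤ) = s * (y : ℤ) := h
  rcases hs with rfl | rfl <;> omega

open Classical in
theorem sifted_finsum {s : ℤ} (hs : s = 1 ∨ s = -1) (N q : ℕ) (a : ℤ) (g : ℤ → ℝ) :
    ∑ᶠ n ∈ Sifted s 0 N q (s * a) ∅, g n = ∑ n ∈ (Icc 1 N).filter (fun n : ℕ => (n : ℤ) ≡ a [ZMOD q]), g (s * n) := by
  rw [sifted_side hs, finsum_mem_coe_finset, sum_image fun x _ y _ h => side_inj hs h]

open Classical in
theorem sifted_ncard {s : ℤ} (hs : s = 1 ∨ s = -1) (N q : ℕ) (a : ℤ) (S : Set ℤ) :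
    ((S ∩ Sifted s 0 N q (s * a) ∅).ncard : ℝ) =
      ∑ n ∈ (Icc 1 N).filter (fun n : ℕ => (n : ℤ) ≡ a [ZMOD q]), (if s * (n : ℤ) ∈ S then (1 : ℝ) else 0) := by
  have e : S ∩ Sifted s 0 N q (s * a) ∅ =
      (((((Icc 1 N).filter (fun n : ℕ => (n : ℤ) ≡ a [ZMOD q])).filter (fun n : ℕ => s * (n : ℤ) ∈ S)).image
        (fun n : ℕ => s * (n : ℤ)) : Finset ℤ) : Set ℤ) := by
    rw [sifted_side hs]
    ext x
    simp only [Set.mem_inter_iff, coe_image, coe_filter, Set.mem_image, mem_filter, Set.mem_ofPred_eq]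
    constructor
    · rintro ⟨h1, n, h2, rfl⟩
      exact ⟨n, ⟨h2, h1⟩, rfl⟩
    · rintro ⟨n, ⟨h2, h1⟩, rfl⟩
      exact ⟨h1, n, h2, rfl⟩
  rw [e, Set.ncard_coe_finset, card_image_of_injective _ (side_inj hs), sum_boole]

/-- a class in an interval -/
theorem card_class_le (N q : ℕ) (hq : 1 ≤ q) (a : ℤ) :
    ((((Icc 1 N).filter (fun n : ℕ => (n : ℤ) ≡ a [ZMOD q])).card : ℕ) : ℝ) ≤ N / q + 1 := by
  have h := cA_univ (s := 1) (Or.inl rfl) hq a N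
  have h2 := (abs_le.1 h).2
  have e : cA 1 Set.univ q a N = ((Icc 1 N).filter (fun n : ℕ => (n : ℤ) ≡ a [ZMOD q])).card := by
    classical
    unfold cA
    congr 1
    ext n
    simp
  rw [e] at h2
  linarith

theorem card_class_ge (N q : ℕ) (hq : 1 ≤ q) (a : ℤ) :
    (N : ℝ) / q - 1 ≤ ((((Icc 1 N).filter (fun n : ℕ => (n : ℤ) ≡ a [ZMOD q])).card : ℕ) : ℝ) := by
  have h := cA_univ (s := 1) (Or.inl rfl) hq a N
  have h2 := (abs_le.1 h).1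
  have e : cA 1 Set.univ q a N = ((Icc 1 N).filter (fun n : ℕ => (n : ℤ) ≡ a [ZMOD q])).card := by
    classical
    unfold cA
    congr 1
    ext n
    simp
  rw [e] at h2
  linarith

/-- the number of the `n ≤ X`, `n ≡ a` modulo `q`, with `s n ∈ S` for which the fractional part of `P n` is
less than `w` -/
noncomputable def cnt (s : ℤ) (P : ℝ[X]) (w : ℝ) (q : ℕ) (a : ℤ) (S : Set ℤ) (X : ℕ) : ℕ :=
  {n : ℕ | 1 ≤ n ∧ n ≤ X ∧ (n : ℤ) ≡ a [ZMOD q] ∧ Int.fract (P.eval (n : ℝ)) < w ∧ s * n ∈ S}.ncard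

open Classical in
theorem cnt_eq (s : ℤ) (P : ℝ[X]) (w : ℝ) (q : ℕ) (a : ℤ) (S : Set ℤ) (X : ℕ) :
    (cnt s P w q a S X : ℝ) = ∑ n ∈ (Icc 1 X).filter (fun n : ℕ => (n : ℤ) ≡ a [ZMOD q] ∧
      0 ≤ Int.fract (P.eval (n : ℝ)) ∧ Int.fract (P.eval (n : ℝ)) < w),
      (fun x : ℤ => if s * x ∈ S then (1 : ℝ) else 0) n := by
  unfold cnt
  have e1 : {n : ℕ | 1 ≤ n ∧ n ≤ X ∧ (n : ℤ) ≡ a [ZMOD q] ∧ Int.fract (P.eval (n : ℝ)) < w ∧ s * n ∈ S} =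
      ((((Icc 1 X).filter (fun n : ℕ => (n : ℤ) ≡ a [ZMOD q] ∧ 0 ≤ Int.fract (P.eval (n : ℝ)) ∧
        Int.fract (P.eval (n : ℝ)) < w)).filter (fun n : ℕ => s * (n : ℤ) ∈ S) : Finset ℕ) : Set ℕ) := by
    ext n
    simp only [Set.mem_ofPred_eq, coe_filter, mem_Icc, mem_filter, and_assoc, Int.fract_nonneg, true_and]
  rw [e1, Set.ncard_coe_finset]
  simp only
  rw [sum_boole]

open Classical in
/-- the density in the sparse sets -/
theorem dens_ap {d : ℤ} (hd6 : d % 6 = 1 ∨ d % 6 = 5) {m : ℕ} (hm : 2 ≤ m) {α : ℝ} (hα : Dioph α) :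
    ∃ ν₀ : ℝ, 0 < ν₀ ∧ ∀ ν : ℝ, 0 ≤ ν → ν ≤ ν₀ → ∀ s : ℤ, (s = 1 ∨ s = -1) → ∀ ε : ℝ, 0 < ε →
    ∃ θ : ℝ, 0 < θ ∧ ∃ X₀ : ℕ, 1 ≤ X₀ ∧ ∀ S : Set ℤ, Inv d S → ∀ φ : ℤ → ℝ, IsPhi d s S φ →
    ∀ P : ℝ[X], P.natDegree ≤ m → P.coeff m = α → ∀ X : ℕ, X₀ ≤ X → ∀ q : ℕ, 1 ≤ q → (q : ℝ) ≤ (X : ℝ) ^ θ → ∀ a : ℤ,
      |(cnt s P ((X : ℝ) ^ (-ν)) q a S X : ℝ) -
        (X : ℝ) ^ (-ν) * ∑ n ∈ (Icc 1 X).filter (fun n : ℕ => (n : ℤ) ≡ a [ZMOD q]), φ (s * n)| ≤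
        ε * ((X : ℝ) ^ (1 - ν) / q) := by
  have hd : Odd d := Int.odd_iff.2 (by omega)
  obtain ⟨k, rfl⟩ : ∃ k, m = k + 1 := ⟨m - 1, by omega⟩
  obtain ⟨C1, c1, hC1, hc1, -, H1⟩ := disc_ap (d := 1 * d) (by omega) (k := k) (by omega) hα
  obtain ⟨C2, c2, hC2, hc2, -, H2⟩ := disc_ap (d := -1 * d) (by omega) (k := k) (by omega) hα
  set c : ℝ := min c1 c2 with hc
  have hc0 : 0 < c := lt_min hc1 hc2
  refine ⟨c / 4, by positivity, fun ν hν0 hν1 s hs ε hε => ?_⟩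
  obtain ⟨θ1, hθ1, N1, HN⟩ := all_mod hd6 hs (show 0 < ε / 4 by positivity)
  have hlim : Tendsto (fun X : ℕ => (C1 + C2) * (X : ℝ) ^ (-(c / 2))) atTop (𝓝 0) := by
    have h1 := (tendsto_rpow_neg_atTop (show 0 < c / 2 by positivity)).comp tendsto_natCast_atTop_atTop
    have h2 := h1.const_mul (C1 + C2)
    rw [mul_zero] at h2
    exact h2
  obtain ⟨X1, hX1⟩ := (hlim.eventually (gt_mem_nhds (show (0 : ℝ) < ε / 2 by positivity))).exists_forall_of_atTop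
  refine ⟨min (min θ1 (c / 4)) 1, lt_min (lt_min hθ1 (by positivity)) one_pos, N1 + X1 + 1, by omega, ?_⟩
  intro S hS φ hφ P hP hPc X hX q hq hqX a
  have hXR : (1 : ℝ) ≤ X := by exact_mod_cast (by omega : 1 ≤ X)
  have hX0 : (0 : ℝ) < X := by linarith
  have hq0 : (0 : ℝ) < q := by exact_mod_cast hq
  have hw0 : (0 : ℝ) ≤ (X : ℝ) ^ (-ν) := by positivity
  have hw1 : (X : ℝ) ^ (-ν) ≤ 1 := Real.rpow_le_one_of_one_le_of_nonpos hXR (by linarith)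
  have hq1 : (q : ℝ) ≤ (X : ℝ) ^ θ1 := hqX.trans (Real.rpow_le_rpow_of_exponent_le hXR
    (le_trans (min_le_left _ _) (min_le_left _ _)))
  have hq2 : (q : ℝ) ≤ (X : ℝ) ^ (c / 4) := hqX.trans (Real.rpow_le_rpow_of_exponent_le hXR
    (le_trans (min_le_left _ _) (min_le_right _ _)))
  have hq3 : (q : ℝ) ≤ X := hqX.trans (by
    calc (X : ℝ) ^ (min (min θ1 (c / 4)) 1) ≤ (X : ℝ) ^ (1 : ℝ) := Real.rpow_le_rpow_of_exponent_le hXR (min_le_right _ _)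
      _ = X := Real.rpow_one _)
  -- the discrepancy
  have hdisc : |(cnt s P ((X : ℝ) ^ (-ν)) q a S X : ℝ) -
      (X : ℝ) ^ (-ν) * ∑ n ∈ (Icc 1 X).filter (fun n : ℕ => (n : ℤ) ≡ a [ZMOD q]), (if s * (n : ℤ) ∈ S then (1 : ℝ) else 0)| ≤
      (C1 + C2) * (X : ℝ) ^ (1 - c) := by
    rw [cnt_eq]
    have hp : ∀ c' : ℝ, c ≤ c' → (X : ℝ) ^ (1 - c') ≤ (X : ℝ) ^ (1 - c) := fun c' h =>
      Real.rpow_le_rpow_of_exponent_le hXR (by linarith)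
    have hpc : 0 < (X : ℝ) ^ (1 - c) := by positivity
    rcases hs with rfl | rfl
    · have h1 := H1 _ (sync_inv hd (Or.inl rfl) hS) q hq a P hP hPc 0 ((X : ℝ) ^ (-ν)) le_rfl hw0 hw1 X (by omega)
      rw [sub_zero] at h1
      refine h1.trans ?_
      calc C1 * (X : ℝ) ^ (1 - c1) ≤ C1 * (X : ℝ) ^ (1 - c) := mul_le_mul_of_nonneg_left (hp c1 (min_le_left _ _)) hC1
        _ ≤ _ := mul_le_mul_of_nonneg_right (by linarith) hpc.le
    · have h1 := H2 _ (sync_inv hd (Or.inr rfl) hS) q hq a P hP hPc 0 ((X : ℝ) ^ (-ν)) le_rfl hw0 hw1 X (by omega)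
      rw [sub_zero] at h1
      refine h1.trans ?_
      calc C2 * (X : ℝ) ^ (1 - c2) ≤ C2 * (X : ℝ) ^ (1 - c) := mul_le_mul_of_nonneg_left (hp c2 (min_le_right _ _)) hC2
        _ ≤ _ := mul_le_mul_of_nonneg_right (by linarith) hpc.le
  have hsmall : (C1 + C2) * (X : ℝ) ^ (1 - c) ≤ ε / 2 * ((X : ℝ) ^ (1 - ν) / q) := by
    have e1 : (X : ℝ) ^ (1 - c) = (X : ℝ) ^ (-(c / 2)) * (X : ℝ) ^ (1 - c / 2) := by
      rw [← Real.rpow_add hX0]; congr 1; ring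
    have e2 : (X : ℝ) ^ (1 - c / 2) ≤ (X : ℝ) ^ (1 - ν) / q := by
      rw [le_div_iff₀ hq0]
      calc (X : ℝ) ^ (1 - c / 2) * q ≤ (X : ℝ) ^ (1 - c / 2) * (X : ℝ) ^ (c / 4) := by gcongr
        _ = (X : ℝ) ^ (1 - c / 4) := by rw [← Real.rpow_add hX0]; congr 1; ring
        _ ≤ _ := Real.rpow_le_rpow_of_exponent_le hXR (by linarith)
    have e3 := (hX1 X (by omega)).le
    rw [e1, ← mul_assoc]
    exact mul_le_mul e3 e2 (by positivity) (by positivity)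
  -- the density in the progression
  have hall := HN S hS φ hφ X (by omega) 0 (Nat.zero_le _) q hq hq1 ∅ (by simp) (s * a)
  rw [sifted_ncard hs, sifted_finsum hs] at hall
  have hcard : ((Sifted s 0 X q (s * a) ∅).ncard : ℝ) ≤ 2 * (X / q) := by
    have h1 := sifted_ncard hs X q a Set.univ
    rw [Set.univ_inter] at h1
    rw [h1]
    simp only [Set.mem_univ, if_true, sum_const, nsmul_eq_mul, mul_one]
    have h3 := card_class_le X q hq a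
    have h4 : 1 ≤ (X : ℝ) / q := by rw [le_div_iff₀ hq0, one_mul]; exact hq3
    linarith
  have hall2 : |(X : ℝ) ^ (-ν) * ∑ n ∈ (Icc 1 X).filter (fun n : ℕ => (n : ℤ) ≡ a [ZMOD q]), (if s * (n : ℤ) ∈ S then (1 : ℝ) else 0)
      - (X : ℝ) ^ (-ν) * ∑ n ∈ (Icc 1 X).filter (fun n : ℕ => (n : ℤ) ≡ a [ZMOD q]), φ (s * n)| ≤
      ε / 2 * ((X : ℝ) ^ (1 - ν) / q) := by
    rw [← mul_sub, abs_mul, abs_of_nonneg hw0]
    have h1 := hall.trans (mul_le_mul_of_nonneg_left hcard (by positivity : 0 ≤ ε / 4))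
    calc _ ≤ (X : ℝ) ^ (-ν) * (ε / 4 * (2 * (X / q))) := mul_le_mul_of_nonneg_left h1 hw0
      _ = ε / 2 * (((X : ℝ) ^ (-ν) * X) / q) := by ring
      _ = _ := by
        have : (X : ℝ) ^ (1 - ν) = (X : ℝ) ^ (-ν) * X := by
          rw [sub_eq_neg_add, Real.rpow_add hX0, Real.rpow_one]
        rw [this]
  have := abs_sub_le (cnt s P ((X : ℝ) ^ (-ν)) q a S X : ℝ) ((X : ℝ) ^ (-ν) *
    ∑ n ∈ (Icc 1 X).filter (fun n : ℕ => (n : ℤ) ≡ a [ZMOD q]), (if s * (n : ℤ) ∈ S then (1 : ℝ) else 0))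
    ((X : ℝ) ^ (-ν) * ∑ n ∈ (Icc 1 X).filter (fun n : ℕ => (n : ℤ) ≡ a [ZMOD q]), φ (s * n))
  linarith [hdisc.trans hsmall]

open Classical in
/-- the main term is not small for a progression which meets the class of an element -/
theorem main_term {d : ℤ} (hd6 : d % 6 = 1 ∨ d % 6 = 5) {s : ℤ} (hs : s = 1 ∨ s = -1) {S : Set ℤ} {φ : ℤ → ℝ}
    (hφ : IsPhi d s S φ) (x0 : ℤ) (q : ℕ) (hq : 1 ≤ q) (a : ℤ) (ha : Rel (Int.gcd q d) (s * a) x0) (X : ℕ) :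
    φ x0 * ((X : ℝ) / (q * d.natAbs) - 1) ≤ ∑ n ∈ (Icc 1 X).filter (fun n : ℕ => (n : ℤ) ≡ a [ZMOD q]), φ (s * n) := by
  have hss : s * s = 1 := by rcases hs with rfl | rfl <;> norm_num
  have hD1 : 1 ≤ d.natAbs := by omega
  obtain ⟨i, j, hij⟩ := ha
  obtain ⟨n0, h01, h02⟩ : ∃ n0 : ℤ, n0 ≡ s * a [ZMOD q] ∧ d ∣ n0 - 2 ^ i * 3 ^ j * x0 := by
    obtain ⟨c, hc⟩ := hij.dvd
    have hb := Int.gcd_eq_gcd_ab (q : ℤ) d
    refine ⟨s * a + q * (Int.gcdA q d * c), ?_, ?_⟩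
    · exact (Int.modEq_iff_dvd.2 ⟨-(Int.gcdA q d * c), by ring⟩)
    · refine ⟨-(Int.gcdB q d * c), ?_⟩
      have h1 : s * a = 2 ^ i * 3 ^ j * x0 - (Int.gcd (q : ℤ) d : ℤ) * c := by linarith
      rw [h1, hb]; ring
  have hφn : ∀ n : ℤ, n ≡ n0 [ZMOD d] → φ n = φ x0 := by
    intro n hn
    have h1 : d ∣ n - 2 ^ i * 3 ^ j * x0 := by
      have := dvd_add (Int.modEq_iff_dvd.1 hn.symm) h02
      rwa [sub_add_sub_cancel] at this
    rw [phi_dvd hφ h1, phi_mul hφ]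
  have hq0 : 1 ≤ q * d.natAbs := Nat.mul_pos (by omega) (by omega)
  obtain ⟨Q, hQ⟩ : ∃ Q : ℕ, Q = q * d.natAbs := ⟨_, rfl⟩
  have hQR : (q : ℝ) * d.natAbs = Q := by rw [hQ]; push_cast; rfl
  have hqQ : (q : ℤ) ∣ (Q : ℤ) := by exact_mod_cast (by rw [hQ]; exact Dvd.intro _ rfl : q ∣ Q)
  have hdQ : d ∣ (Q : ℤ) := (Int.dvd_natAbs_self).trans (by exact_mod_cast (by rw [hQ]; exact Dvd.intro_left _ rfl : d.natAbs ∣ Q))
  rw [← hQ] at hq0
  have h1 := card_class_ge X Q hq0 (s * n0)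
  rw [hQR]
  have hφ0 : 0 ≤ φ x0 := (hφ.1 x0).1
  refine (mul_le_mul_of_nonneg_left h1 hφ0).trans ?_
  rw [mul_comm, ← nsmul_eq_mul, ← sum_const]
  have hmem : ∀ n : ℕ, (n : ℤ) ≡ s * n0 [ZMOD Q] → (n : ℤ) ≡ a [ZMOD q] ∧ φ (s * n) = φ x0 := by
    intro n hn
    constructor
    · have h2 : (n : ℤ) ≡ s * n0 [ZMOD q] := hn.of_dvd hqQ
      have h3 : s * n0 ≡ s * (s * a) [ZMOD q] := h01.mul_left s
      rw [← mul_assoc, hss, one_mul] at h3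
      exact h2.trans h3
    · apply hφn
      have h2 : (n : ℤ) ≡ s * n0 [ZMOD d] := hn.of_dvd hdQ
      have h3 := h2.mul_left s
      rwa [← mul_assoc s s, hss, one_mul] at h3
  have hle : ∑ n ∈ (Icc 1 X).filter (fun n : ℕ => (n : ℤ) ≡ s * n0 [ZMOD Q]), φ x0 =
      ∑ n ∈ (Icc 1 X).filter (fun n : ℕ => (n : ℤ) ≡ s * n0 [ZMOD Q]), φ (s * n) := by
    apply sum_congr rfl
    intro n hn
    rw [mem_filter] at hn
    exact ((hmem n hn.2).2).symm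
  rw [hle]
  apply sum_le_sum_of_subset_of_nonneg
  · intro n hn
    rw [mem_filter] at hn ⊢
    exact ⟨hn.1, (hmem n hn.2).1⟩
  · intro n _ _
    exact (hφ.1 _).1

end Pool.Agent.Helper82K9.PM
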