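import Pool.Agent.Helper82K9.Net

set_option autoImplicit false
set_option linter.unusedSectionVars false

/-! # Combs: forms with at most three entries in each row -/

namespace Helper82K9.SF

open Matrix TH57.Thr TH6.LF TH6.PF

variable {Γ : Type} [Group Γ]

/-- A form as a list of terms -/
structure Comb (n : Type) (Γ : Type) [Group Γ] where
  τ : ℕ
  ii : Fin τ → n
  jj : Fin τ → n
  mm : Fin τ → MonoidAlgebra ℤ Γ

namespace Comb

variable {n : Type} [Fintype n] [DecidableEq n] (C : Comb n Γ)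

/-- the nodes -/
abbrev K : Type := (n × Fin C.τ) ⊕ (n × Fin C.τ)

/-- the form -/
noncomputable def ψ : Matrix n n (MonoidAlgebra ℤ Γ) := Matrix.of fun v v' =>
  ∑ s, if C.ii s = v ∧ C.jj s = v' then C.mm s else 0

/-- first edges -/
noncomputable def Y : Matrix n C.K (MonoidAlgebra ℤ Γ) := Matrix.of fun v k =>
  match k with
  | Sum.inl p => if v = p.1 ∧ p.2.val = 0 then 1 else 0
  | Sum.inr _ => 0

/-- inner edges -/
noncomputable def N : Matrix C.K C.K (MonoidAlgebra ℤ Γ) := Matrix.of fun k l =>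
  match k, l with
  | Sum.inl p, Sum.inl p' => if p.1 = p'.1 ∧ p.2.val + 1 = p'.2.val then 1 else 0
  | Sum.inl p, Sum.inr p' => if p.2 = p'.2 ∧ p.1 = C.ii p.2 ∧ p'.1 = C.jj p.2 then C.mm p.2 else 0
  | Sum.inr _, Sum.inl _ => 0
  | Sum.inr p, Sum.inr p' => if p.1 = p'.1 ∧ p.2.val + 1 = p'.2.val then 1 else 0

/-- last edges -/
noncomputable def X : Matrix C.K n (MonoidAlgebra ℤ Γ) := Matrix.of fun k v =>
  match k with
  | Sum.inl _ => 0
  | Sum.inr p => if v = p.1 ∧ p.2.val + 1 = C.τ then 1 else 0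

/-- paths to the end -/
noncomputable def W : Matrix C.K n (MonoidAlgebra ℤ Γ) := Matrix.of fun k v =>
  match k with
  | Sum.inl p => ∑ s : Fin C.τ, if p.2.val ≤ s.val ∧ C.ii s = p.1 ∧ C.jj s = v then C.mm s else 0
  | Sum.inr p => if v = p.1 then 1 else 0

/-- the rank -/
def rk : C.K → ℕ
  | Sum.inl p => p.2.val
  | Sum.inr p => C.τ + p.2.val

theorem N_rk (k l : C.K) (h : C.N k l ≠ 0) : C.rk k < C.rk l := by
  rcases k with ⟨i, s⟩ | ⟨i, s⟩ <;> rcases l with ⟨j, s'⟩ | ⟨j, s'⟩ <;>
    simp only [N, Matrix.of_apply, rk] at h ⊢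
  · by_cases h1 : i = j ∧ s.val + 1 = s'.val
    · omega
    · rw [if_neg h1] at h; exact absurd rfl h
  · have := s.isLt; omega
  · exact absurd rfl h
  · by_cases h1 : i = j ∧ s.val + 1 = s'.val
    · omega
    · rw [if_neg h1] at h; exact absurd rfl h

theorem YW : C.Y * C.W = C.ψ := by
  ext1 v v'
  rw [Matrix.mul_apply, Fintype.sum_sum_type]
  have h2 : ∑ p : n × Fin C.τ, C.Y v (Sum.inr p) * C.W (Sum.inr p) v' = 0 :=
    Finset.sum_eq_zero fun p _ => by simp [Y]
  rw [h2, add_zero, Fintype.sum_prod_type, Finset.sum_eq_single v]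
  · simp only [Y, W, ψ, Matrix.of_apply, true_and]
    by_cases hτ : 0 < C.τ
    · rw [Finset.sum_eq_single (⟨0, hτ⟩ : Fin C.τ)]
      · simp
      · intro s _ hs
        rw [if_neg (fun h => hs (Fin.ext h)), zero_mul]
      · intro h1; exact absurd (Finset.mem_univ _) h1
    · have : IsEmpty (Fin C.τ) := ⟨fun s => hτ (lt_of_le_of_lt (Nat.zero_le _) s.isLt)⟩
      simp
  · intro i _ hi
    refine Finset.sum_eq_zero fun s _ => ?_
    simp only [Y, Matrix.of_apply]
    rw [if_neg (fun h => hi h.1.symm), zero_mul]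
  · intro h1; exact absurd (Finset.mem_univ _) h1

theorem NW_inr (i : n) (s : Fin C.τ) (v : n) :
    (C.N * C.W) (Sum.inr (i, s)) v = if s.val + 1 < C.τ ∧ v = i then 1 else 0 := by
  rw [Matrix.mul_apply, Fintype.sum_sum_type]
  have h1 : ∑ p : n × Fin C.τ, C.N (Sum.inr (i, s)) (Sum.inl p) * C.W (Sum.inl p) v = 0 :=
    Finset.sum_eq_zero fun p _ => by simp [N]
  rw [h1, zero_add, Fintype.sum_prod_type, Finset.sum_eq_single i]
  · simp only [N, W, Matrix.of_apply, true_and]
    by_cases h : s.val + 1 < C.τ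
    · rw [Finset.sum_eq_single (⟨s.val + 1, h⟩ : Fin C.τ)]
      · simp [h]
      · intro s' _ hs'
        rw [if_neg (fun h2 => hs' (Fin.ext h2.symm)), zero_mul]
      · intro h1; exact absurd (Finset.mem_univ _) h1
    · rw [if_neg (fun h2 => h h2.1)]
      refine Finset.sum_eq_zero fun s' _ => ?_
      rw [if_neg (by have := s'.isLt; omega), zero_mul]
  · intro j _ hj
    refine Finset.sum_eq_zero fun s' _ => ?_
    simp only [N, Matrix.of_apply]
    rw [if_neg (fun h => hj h.1.symm), zero_mul]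
  · intro h1; exact absurd (Finset.mem_univ _) h1

theorem NW_inl (i : n) (s : Fin C.τ) (v : n) :
    (C.N * C.W) (Sum.inl (i, s)) v
      = (∑ s' : Fin C.τ, if s.val + 1 ≤ s'.val ∧ C.ii s' = i ∧ C.jj s' = v then C.mm s' else 0)
        + if C.ii s = i ∧ C.jj s = v then C.mm s else 0 := by
  rw [Matrix.mul_apply, Fintype.sum_sum_type]
  congr 1
  · rw [Fintype.sum_prod_type, Finset.sum_eq_single i]
    · simp only [N, W, Matrix.of_apply, true_and]
      by_cases h : s.val + 1 < C.τ
      · rw [Finset.sum_eq_single (⟨s.val + 1, h⟩ : Fin C.τ)]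
        · simp
        · intro s' _ hs'
          rw [if_neg (fun h2 => hs' (Fin.ext h2.symm)), zero_mul]
        · intro h1; exact absurd (Finset.mem_univ _) h1
      · have h1 : ∀ s' : Fin C.τ, ¬ (s.val + 1 ≤ s'.val) := fun s' => by
          have := s'.isLt; omega
        have h2 : ∀ s' : Fin C.τ, ¬ (s.val + 1 = s'.val) := fun s' => by
          have := s'.isLt; omega
        simp [h1, h2]
    · intro j _ hj
      refine Finset.sum_eq_zero fun s' _ => ?_
      simp only [N, Matrix.of_apply]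
      rw [if_neg (fun h => hj h.1.symm), zero_mul]
    · intro h1; exact absurd (Finset.mem_univ _) h1
  · rw [Fintype.sum_prod_type, Finset.sum_eq_single (C.jj s)]
    · rw [Finset.sum_eq_single s]
      · simp only [N, W, Matrix.of_apply, true_and, and_true]
        by_cases h1 : C.ii s = i
        · by_cases h2 : C.jj s = v
          · rw [if_pos h1.symm, if_pos h2.symm, if_pos ⟨h1, h2⟩, mul_one]
          · rw [if_neg (Ne.symm h2), mul_zero, if_neg (fun h => h2 h.2)]
        · rw [if_neg (Ne.symm h1), zero_mul, if_neg (fun h => h1 h.1)]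
      · intro s' _ hs'
        simp only [N, Matrix.of_apply]
        rw [if_neg (fun h => hs' h.1.symm), zero_mul]
      · intro h1; exact absurd (Finset.mem_univ _) h1
    · intro j _ hj
      refine Finset.sum_eq_zero fun s' _ => ?_
      simp only [N, Matrix.of_apply]
      rw [if_neg (fun h => hj h.2.2), zero_mul]
    · intro h1; exact absurd (Finset.mem_univ _) h1

theorem XNW : C.X + C.N * C.W = C.W := by
  ext1 k v
  rw [Matrix.add_apply]
  rcases k with ⟨i, s⟩ | ⟨i, s⟩
  · rw [NW_inl]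
    simp only [X, W, Matrix.of_apply, zero_add]
    have h1 : ∀ s' : Fin C.τ, (if s.val ≤ s'.val ∧ C.ii s' = i ∧ C.jj s' = v then C.mm s' else 0)
        = (if s.val + 1 ≤ s'.val ∧ C.ii s' = i ∧ C.jj s' = v then C.mm s' else 0)
          + (if s' = s then (if C.ii s = i ∧ C.jj s = v then C.mm s else 0) else 0) := by
      intro s'
      by_cases h : s' = s
      · subst h
        simp
      · have h2 : s'.val ≠ s.val := fun h2 => h (Fin.ext h2)
        rw [if_neg h, add_zero]
        have h3 : s.val ≤ s'.val ↔ s.val + 1 ≤ s'.val := by omega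
        simp only [h3]
    rw [Finset.sum_congr rfl fun s' _ => h1 s', Finset.sum_add_distrib]
    simp
  · rw [NW_inr]
    simp only [X, W, Matrix.of_apply]
    by_cases h1 : v = i
    · by_cases h2 : s.val + 1 < C.τ
      · rw [if_neg (by omega), if_pos ⟨h2, h1⟩, if_pos h1, zero_add]
      · have h3 : s.val + 1 = C.τ := by have := s.isLt; omega
        rw [if_pos ⟨h1, h3⟩, if_neg (fun h => h2 h.1), if_pos h1, add_zero]
    · rw [if_neg (fun h => h1 h.1), if_neg (fun h => h1 h.2), if_neg h1, add_zero]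

/-- the form of the comb -/
noncomputable def form : Matrix (n ⊕ (C.K ⊕ C.K)) (n ⊕ (C.K ⊕ C.K)) (MonoidAlgebra ℤ Γ) := net C.Y C.N C.X

theorem rep (w : Γ →* ℤˣ) : Rep w C.ψ C.form := by
  obtain ⟨E, hE, h⟩ := net_eq w C.ψ C.Y C.N C.X C.W C.rk C.N_rk C.XNW C.YW
  exact ⟨C.K, inferInstance, inferInstance, Equiv.refl _, E, hE, h⟩

/-- successor -/
def sc (s : Fin C.τ) : Fin C.τ := if h : s.val + 1 < C.τ then ⟨s.val + 1, h⟩ else s

/-- predecessor -/
def pd (s : Fin C.τ) : Fin C.τ := ⟨s.val - 1, by have := s.isLt; omega⟩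

theorem sc_eq (s s' : Fin C.τ) (h : s.val + 1 = s'.val) : s' = C.sc s := by
  unfold sc
  rw [dif_pos (by have := s'.isLt; omega)]
  exact Fin.ext h.symm

theorem pd_eq (s s' : Fin C.τ) (h : s.val + 1 = s'.val) : s = C.pd s' := by
  unfold pd
  exact Fin.ext (by simp only; omega)

theorem deg3 {α : Type} [Fintype α] [DecidableEq α] (P Q : α → Prop) [DecidablePred P]
    [DecidablePred Q] (x y z : α) (hQ : ∀ b, ¬ Q b) (hP : ∀ b, P b → b = x ∨ b = y ∨ b = z) :
    (Finset.univ.filter P).card + (Finset.univ.filter Q).card ≤ 3 := by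
  have h1 : Finset.univ.filter Q = ∅ := by
    rw [Finset.filter_eq_empty_iff]; intro b _; exact hQ b
  have h2 : Finset.univ.filter P ⊆ {x, y, z} := by
    intro b hb
    have := hP b (Finset.mem_filter.1 hb).2
    simpa using this
  rw [h1, Finset.card_empty, add_zero]
  exact (Finset.card_le_card h2).trans Finset.card_le_three

open Classical in
theorem degree (a : n ⊕ (C.K ⊕ C.K)) :
    (Finset.univ.filter fun b => C.form a b ≠ 0).card
      + (Finset.univ.filter fun b => C.form b a ≠ 0).card ≤ 3 := by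
  rcases a with v | (⟨i, s⟩ | ⟨i, s⟩) | (⟨i, s⟩ | ⟨i, s⟩)
  · -- an old vertex
    have h1 : (Finset.univ.filter fun b => C.form (Sum.inl v) b ≠ 0).card ≤ 1 := by
      rw [Finset.card_le_one]
      intro b hb b' hb'
      have hb := (Finset.mem_filter.1 hb).2
      have hb' := (Finset.mem_filter.1 hb').2
      rcases b with x | (⟨j, t⟩ | ⟨j, t⟩) | (⟨j, t⟩ | ⟨j, t⟩) <;>
        rcases b' with x' | (⟨j', t'⟩ | ⟨j', t'⟩) | (⟨j', t'⟩ | ⟨j', t'⟩) <;>
        simp only [form, net, Matrix.fromBlocks_apply₁₁, Matrix.fromBlocks_apply₁₂,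
          Matrix.fromCols_apply_inl, Matrix.fromCols_apply_inr, Matrix.zero_apply, ne_eq,
          not_true_eq_false, Matrix.neg_apply, Y, Matrix.of_apply, neg_zero] at hb hb'
      by_cases h1 : v = j ∧ t.val = 0
      · by_cases h2 : v = j' ∧ t'.val = 0
        · have h3 : t = t' := Fin.ext (h1.2.trans h2.2.symm)
          rw [← h1.1, ← h2.1, h3]
        · rw [if_neg h2] at hb'; exact absurd neg_zero hb'
      · rw [if_neg h1] at hb; exact absurd neg_zero hb
    have h2 : (Finset.univ.filter fun b => C.form b (Sum.inl v) ≠ 0).card ≤ 1 := by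
      rw [Finset.card_le_one]
      intro b hb b' hb'
      have hb := (Finset.mem_filter.1 hb).2
      have hb' := (Finset.mem_filter.1 hb').2
      rcases b with x | (⟨j, t⟩ | ⟨j, t⟩) | (⟨j, t⟩ | ⟨j, t⟩) <;>
        rcases b' with x' | (⟨j', t'⟩ | ⟨j', t'⟩) | (⟨j', t'⟩ | ⟨j', t'⟩) <;>
        simp only [form, net, Matrix.fromBlocks_apply₁₁, Matrix.fromBlocks_apply₂₁,
          Matrix.fromRows_apply_inl, Matrix.fromRows_apply_inr, Matrix.zero_apply, ne_eq,
          not_true_eq_false, X, Matrix.of_apply] at hb hb'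
      by_cases h1 : v = j ∧ t.val + 1 = C.τ
      · by_cases h2 : v = j' ∧ t'.val + 1 = C.τ
        · have h3 : t = t' := Fin.ext (by omega)
          rw [← h1.1, ← h2.1, h3]
        · rw [if_neg h2] at hb'; exact absurd rfl hb'
      · rw [if_neg h1] at hb; exact absurd rfl hb
    omega
  · -- first type of row comb
    apply deg3 _ _ (Sum.inr (Sum.inr (Sum.inl (i, s)))) (Sum.inr (Sum.inr (Sum.inl (i, C.sc s))))
      (Sum.inr (Sum.inr (Sum.inr (C.jj s, s))))
    · rintro (x | (⟨j, t⟩ | ⟨j, t⟩) | (⟨j, t⟩ | ⟨j, t⟩)) h <;> exact h rfl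
    · rintro (x | (⟨j, t⟩ | ⟨j, t⟩) | (⟨j, t⟩ | ⟨j, t⟩)) h
      · exact absurd rfl h
      · exact absurd rfl h
      · exact absurd rfl h
      · change (1 - C.N) (Sum.inl (i, s)) (Sum.inl (j, t)) ≠ 0 at h
        by_cases h1 : (i, s) = (j, t)
        · left; rw [h1]
        · rw [Matrix.sub_apply, Matrix.one_apply, if_neg (fun h2 => h1 (Sum.inl_injective h2)),
            zero_sub] at h
          by_cases h3 : i = j ∧ s.val + 1 = t.val
          · right; left; rw [← C.sc_eq s t h3.2, h3.1]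
          · exfalso; apply h
            simp only [N, Matrix.of_apply]; rw [if_neg h3, neg_zero]
      · change (1 - C.N) (Sum.inl (i, s)) (Sum.inr (j, t)) ≠ 0 at h
        rw [Matrix.sub_apply, Matrix.one_apply, if_neg Sum.inl_ne_inr, zero_sub] at h
        by_cases h3 : s = t ∧ i = C.ii s ∧ j = C.jj s
        · right; right; rw [h3.2.2, ← h3.1]
        · exfalso; apply h
          simp only [N, Matrix.of_apply]; rw [if_neg h3, neg_zero]
  · -- first type of column comb
    apply deg3 _ _ (Sum.inr (Sum.inr (Sum.inr (i, s)))) (Sum.inr (Sum.inr (Sum.inr (i, C.sc s))))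
      (Sum.inl i)
    · rintro (x | (⟨j, t⟩ | ⟨j, t⟩) | (⟨j, t⟩ | ⟨j, t⟩)) h <;> exact h rfl
    · rintro (x | (⟨j, t⟩ | ⟨j, t⟩) | (⟨j, t⟩ | ⟨j, t⟩)) h
      · change C.X (Sum.inr (i, s)) x ≠ 0 at h
        by_cases h3 : x = i ∧ s.val + 1 = C.τ
        · right; right; rw [h3.1]
        · exfalso; apply h; simp only [X, Matrix.of_apply]; rw [if_neg h3]
      · exact absurd rfl h
      · exact absurd rfl h
      · change (1 - C.N) (Sum.inr (i, s)) (Sum.inl (j, t)) ≠ 0 at h
        rw [Matrix.sub_apply, Matrix.one_apply, if_neg Sum.inr_ne_inl, zero_sub] at h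
        exfalso; apply h; simp [N]
      · change (1 - C.N) (Sum.inr (i, s)) (Sum.inr (j, t)) ≠ 0 at h
        by_cases h1 : (i, s) = (j, t)
        · left; rw [h1]
        · rw [Matrix.sub_apply, Matrix.one_apply, if_neg (fun h2 => h1 (Sum.inr_injective h2)),
            zero_sub] at h
          by_cases h3 : i = j ∧ s.val + 1 = t.val
          · right; left; rw [← C.sc_eq s t h3.2, h3.1]
          · exfalso; apply h
            simp only [N, Matrix.of_apply]; rw [if_neg h3, neg_zero]
  · -- second type of row comb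
    rw [add_comm]
    apply deg3 _ _ (Sum.inr (Sum.inl (Sum.inl (i, s)))) (Sum.inr (Sum.inl (Sum.inl (i, C.pd s))))
      (Sum.inl i)
    · rintro (x | (⟨j, t⟩ | ⟨j, t⟩) | (⟨j, t⟩ | ⟨j, t⟩)) h <;> exact h rfl
    · rintro (x | (⟨j, t⟩ | ⟨j, t⟩) | (⟨j, t⟩ | ⟨j, t⟩)) h
      · change -C.Y x (Sum.inl (i, s)) ≠ 0 at h
        by_cases h3 : x = i ∧ s.val = 0
        · right; right; rw [h3.1]
        · exfalso; apply h; simp only [Y, Matrix.of_apply]; rw [if_neg h3, neg_zero]
      · change (1 - C.N) (Sum.inl (j, t)) (Sum.inl (i, s)) ≠ 0 at h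
        by_cases h1 : (j, t) = (i, s)
        · left; rw [h1]
        · rw [Matrix.sub_apply, Matrix.one_apply, if_neg (fun h2 => h1 (Sum.inl_injective h2)),
            zero_sub] at h
          by_cases h3 : j = i ∧ t.val + 1 = s.val
          · right; left; rw [← C.pd_eq t s h3.2, h3.1]
          · exfalso; apply h
            simp only [N, Matrix.of_apply]; rw [if_neg h3, neg_zero]
      · change (1 - C.N) (Sum.inr (j, t)) (Sum.inl (i, s)) ≠ 0 at h
        rw [Matrix.sub_apply, Matrix.one_apply, if_neg Sum.inr_ne_inl, zero_sub] at h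
        exfalso; apply h; simp [N]
      · exact absurd rfl h
      · exact absurd rfl h
  · -- second type of column comb
    rw [add_comm]
    apply deg3 _ _ (Sum.inr (Sum.inl (Sum.inr (i, s)))) (Sum.inr (Sum.inl (Sum.inr (i, C.pd s))))
      (Sum.inr (Sum.inl (Sum.inl (C.ii s, s))))
    · rintro (x | (⟨j, t⟩ | ⟨j, t⟩) | (⟨j, t⟩ | ⟨j, t⟩)) h <;> exact h rfl
    · rintro (x | (⟨j, t⟩ | ⟨j, t⟩) | (⟨j, t⟩ | ⟨j, t⟩)) h
      · change -C.Y x (Sum.inr (i, s)) ≠ 0 at h
        exfalso; apply h; simp only [Y, Matrix.of_apply]; exact neg_zero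
      · change (1 - C.N) (Sum.inl (j, t)) (Sum.inr (i, s)) ≠ 0 at h
        rw [Matrix.sub_apply, Matrix.one_apply, if_neg Sum.inl_ne_inr, zero_sub] at h
        by_cases h3 : t = s ∧ j = C.ii t ∧ i = C.jj t
        · right; right; rw [h3.2.1, h3.1]
        · exfalso; apply h
          simp only [N, Matrix.of_apply]; rw [if_neg h3, neg_zero]
      · change (1 - C.N) (Sum.inr (j, t)) (Sum.inr (i, s)) ≠ 0 at h
        by_cases h1 : (j, t) = (i, s)
        · left; rw [h1]
        · rw [Matrix.sub_apply, Matrix.one_apply, if_neg (fun h2 => h1 (Sum.inr_injective h2)),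
            zero_sub] at h
          by_cases h3 : j = i ∧ t.val + 1 = s.val
          · right; left; rw [← C.pd_eq t s h3.2, h3.1]
          · exfalso; apply h
            simp only [N, Matrix.of_apply]; rw [if_neg h3, neg_zero]
      · exact absurd rfl h
      · exact absurd rfl h

/-- zero or a monomial -/
def Mono (x : (MonoidAlgebra ℤ Γ)) : Prop := x = 0 ∨ ∃ (g : Γ) (u : ℤˣ), x = MonoidAlgebra.single g (u : ℤ)

theorem Mono.zero : Mono (0 : (MonoidAlgebra ℤ Γ)) := Or.inl rfl

theorem Mono.one : Mono (1 : (MonoidAlgebra ℤ Γ)) := Or.inr ⟨1, 1, by rw [MonoidAlgebra.one_def]; rfl⟩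

theorem Mono.neg {x : (MonoidAlgebra ℤ Γ)} (h : Mono x) : Mono (-x) := by
  rcases h with rfl | ⟨g, u, rfl⟩
  · left; exact neg_zero
  · right; exact ⟨g, -u, by rw [← MonoidAlgebra.single_neg]; simp⟩

theorem Mono.ite {x : (MonoidAlgebra ℤ Γ)} (h : Mono x) (p : Prop) [Decidable p] : Mono (if p then x else 0) := by
  split_ifs
  · exact h
  · exact Mono.zero

theorem form_mono (hm : ∀ s, Mono (C.mm s)) (a b : n ⊕ (C.K ⊕ C.K)) : Mono (C.form a b) := by
  have hN : ∀ k l, Mono ((1 - C.N) k l) := by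
    intro k l
    rw [Matrix.sub_apply, Matrix.one_apply]
    by_cases h : k = l
    · subst h
      have h1 : C.N k k = 0 := by
        by_contra h1
        exact lt_irrefl _ (C.N_rk k k h1)
      rw [if_pos rfl, h1, sub_zero]; exact Mono.one
    · rw [if_neg h, zero_sub]
      apply Mono.neg
      rcases k with p | p <;> rcases l with p' | p'
      · exact Mono.one.ite _
      · exact (hm _).ite _
      · exact Mono.zero
      · exact Mono.one.ite _
  have hX : ∀ k v, Mono (C.X k v) := by
    rintro (p | p) v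
    · exact Mono.zero
    · exact Mono.one.ite _
  have hY : ∀ v k, Mono ((-C.Y) v k) := by
    rintro v (p | p)
    · exact (Mono.one.ite _).neg
    · exact Mono.zero.neg
  rcases a with v | a | a <;> rcases b with v' | b | b
  · exact Mono.zero
  · exact Mono.zero
  · exact hY _ _
  · exact hX _ _
  · exact Mono.zero
  · exact hN _ _
  · exact Mono.zero
  · exact Mono.zero
  · exact Mono.zero

/-- every matrix is a sum of terms -/
theorem exists_comb (ψ : Matrix n n (MonoidAlgebra ℤ Γ)) : ∃ C : Comb n Γ, (∀ s, Mono (C.mm s)) ∧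
    (∀ s, C.mm s ≠ 0) ∧ C.ψ = ψ := by
  -- lists of terms
  have key : ∃ L : List (n × n × Γ × ℤˣ), (L.map fun x => Matrix.single x.1 x.2.1
      (MonoidAlgebra.single x.2.2.1 ((x.2.2.2 : ℤˣ) : ℤ))).sum = ψ := by
    let P : Matrix n n (MonoidAlgebra ℤ Γ) → Prop := fun ψ => ∃ L : List (n × n × Γ × ℤˣ), (L.map fun x =>
      Matrix.single x.1 x.2.1 (MonoidAlgebra.single x.2.2.1 ((x.2.2.2 : ℤˣ) : ℤ))).sum = ψ
    have h0 : P 0 := ⟨[], rfl⟩
    have hadd : ∀ A B, P A → P B → P (A + B) := by
      rintro A B ⟨L, hL⟩ ⟨M, hM⟩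
      exact ⟨L ++ M, by rw [List.map_append, List.sum_append, hL, hM]⟩
    have hsum : ∀ (s : Finset (n × n)) (f : n × n → Matrix n n (MonoidAlgebra ℤ Γ)), (∀ x ∈ s, P (f x)) →
        P (∑ x ∈ s, f x) := by
      intro s f
      induction s using Finset.induction_on with
      | empty => intro _; rw [Finset.sum_empty]; exact h0
      | insert x s hx ih =>
        intro h
        rw [Finset.sum_insert hx]
        exact hadd _ _ (h x (Finset.mem_insert_self _ _))
          (ih fun y hy => h y (Finset.mem_insert_of_mem hy))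
    have hz : ∀ (i j : n) (g : Γ) (z : ℤ), P (Matrix.single i j (MonoidAlgebra.single g z)) := by
      intro i j g z
      induction z using Int.induction_on with
      | zero => rw [MonoidAlgebra.single_zero, Matrix.single_zero]; exact h0
      | succ z ih =>
        rw [MonoidAlgebra.single_add, Matrix.single_add]
        exact hadd _ _ ih ⟨[(i, j, g, 1)], by simp⟩
      | pred z ih =>
        rw [sub_eq_add_neg, MonoidAlgebra.single_add, Matrix.single_add]
        exact hadd _ _ ih ⟨[(i, j, g, -1)], by simp⟩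
    have hx : ∀ (i j : n) (x : (MonoidAlgebra ℤ Γ)), P (Matrix.single i j x) := by
      intro i j x
      induction x using MonoidAlgebra.induction_linear with
      | zero => rw [Matrix.single_zero]; exact h0
      | add x y hx hy => rw [Matrix.single_add]; exact hadd _ _ hx hy
      | single g z => exact hz i j g z
    have h1 : P ψ := by
      rw [Matrix.matrix_eq_sum_single ψ, ← Finset.sum_product']
      exact hsum _ (fun x => Matrix.single x.1 x.2 (ψ x.1 x.2)) fun x _ => hx _ _ _
    exact h1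
  obtain ⟨L, hL⟩ := key
  refine ⟨⟨L.length, fun s => (L.get s).1, fun s => (L.get s).2.1,
    fun s => MonoidAlgebra.single (L.get s).2.2.1 (((L.get s).2.2.2 : ℤˣ) : ℤ)⟩, ?_, ?_, ?_⟩
  · intro s; exact Or.inr ⟨_, _, rfl⟩
  · intro s h
    have h1 := congrArg l1 h
    simp only at h1
    rw [l1_single_unit, l1_zero] at h1
    exact one_ne_zero h1
  · have h : ∀ F : n × n × Γ × ℤˣ → Matrix n n (MonoidAlgebra ℤ Γ),
        L.map F = List.ofFn (fun s : Fin L.length => F (L.get s)) := by
      intro F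
      conv_lhs => rw [← List.ofFn_get L]
      rw [List.map_ofFn]; rfl
    rw [← hL, h, List.sum_ofFn]
    ext1 v v'
    rw [Matrix.sum_apply]
    simp only [Comb.ψ, Matrix.of_apply, Matrix.single_apply]

end Comb

end Helper82K9.SF
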