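import Pool.Agent.Helper82K9.Subdiv
import Pool.Agent.Helper82K9.Comb
import Pool.Agent.TH57.Thr.Red

set_option autoImplicit false
set_option linter.unusedSectionVars false

/-! # Every form is stably isometric to one of norm close to `3 / √2` -/

namespace Helper82K9.SF

open Matrix TH57.Thr TH6.LF TH6.PF

variable {Γ : Type} [Group Γ]

section real

theorem exists_theta (c : ℝ) (hc0 : 0 < c) (hc : 9 / 2 < c ^ 2) :
    ∃ θ : ℝ, 0 < θ ∧ c * θ = 1 + θ ^ 2 ∧ 3 * θ < c := by
  set s := Real.sqrt (c ^ 2 - 4) with hs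
  have hs2 : s ^ 2 = c ^ 2 - 4 := Real.sq_sqrt (by linarith)
  have hs0 : 0 ≤ s := Real.sqrt_nonneg _
  have hcs : s < c := by
    by_contra h
    rw [not_lt] at h
    nlinarith
  refine ⟨(c - s) / 2, by linarith, by nlinarith, ?_⟩
  -- c < 3 s
  by_contra h
  rw [not_lt] at h
  have h1 : 3 * s ≤ c := by linarith
  nlinarith

theorem exists_q (θ δ : ℝ) (h0 : 0 < θ) (h1 : θ < 1) (hδ : 0 < δ) :
    ∃ q0 : ℕ, ∀ q, q0 ≤ q → θ ^ (2 * q) ≤ δ := by
  obtain ⟨N, hN⟩ := exists_pow_lt_of_lt_one hδ h1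
  refine ⟨N, fun q hq => ?_⟩
  exact (pow_le_pow_of_le_one h0.le h1.le (by omega)).trans hN.le

/-- the weight function -/
noncomputable def wf (θ : ℝ) (L : ℕ) (k : ℕ) : ℝ := θ ^ k + θ ^ (L - k)

theorem wf_step (θ c : ℝ) (h : c * θ = 1 + θ ^ 2) (L k : ℕ) (hk : k + 2 ≤ L) :
    wf θ L k + wf θ L (k + 2) = c * wf θ L (k + 1) := by
  unfold wf
  obtain ⟨r, hr⟩ := Nat.exists_eq_add_of_le hk
  have e1 : L - k = r + 2 := by omega
  have e2 : L - (k + 2) = r := by omega
  have e3 : L - (k + 1) = r + 1 := by omega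
  rw [e1, e2, e3]
  have h1 : θ ^ k + θ ^ (k + 2) = c * θ ^ (k + 1) := by
    rw [pow_add, pow_add, pow_one]
    linear_combination (-θ ^ k) * h
  have h2 : θ ^ r + θ ^ (r + 2) = c * θ ^ (r + 1) := by
    rw [pow_add, pow_add, pow_one]
    linear_combination (-θ ^ r) * h
  linear_combination h1 + h2

theorem wf_pos (θ : ℝ) (h : 0 < θ) (L k : ℕ) : 0 < wf θ L k := by unfold wf; positivity

end real

/-- zero, or a group element of the set `S` or its inverse or one, with a sign -/
def Allowed (S : Set Γ) (x : (MonoidAlgebra ℤ Γ)) : Prop :=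
  x = 0 ∨ ∃ (g : Γ) (u : ℤˣ), (g = 1 ∨ g ∈ S ∨ g⁻¹ ∈ S) ∧ x = MonoidAlgebra.single g (u : ℤ)

namespace Allowed

variable {S : Set Γ}

theorem zero : Allowed S (0 : (MonoidAlgebra ℤ Γ)) := Or.inl rfl

theorem one : Allowed S (1 : (MonoidAlgebra ℤ Γ)) := Or.inr ⟨1, 1, Or.inl rfl, by rw [MonoidAlgebra.one_def]; rfl⟩

theorem neg {x : (MonoidAlgebra ℤ Γ)} (h : Allowed S x) : Allowed S (-x) := by
  rcases h with rfl | ⟨g, u, hg, rfl⟩
  · left; exact neg_zero
  · right; exact ⟨g, -u, hg, by rw [← MonoidAlgebra.single_neg]; simp⟩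

theorem ite {x : (MonoidAlgebra ℤ Γ)} (h : Allowed S x) (p : Prop) [Decidable p] : Allowed S (if p then x else 0) := by
  split_ifs
  · exact h
  · exact zero

theorem sbar (w : Γ →* ℤˣ) {x : (MonoidAlgebra ℤ Γ)} (h : Allowed S x) : Allowed S (sbar w x) := by
  rcases h with rfl | ⟨g, u, hg, rfl⟩
  · left; exact sbar_zero w
  · right
    refine ⟨g⁻¹, w g * u, ?_, ?_⟩
    · rcases hg with rfl | hg | hg
      · left; exact inv_one
      · right; right; rwa [inv_inv]
      · right; left; exact hg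
    · rw [sbar_single]; simp

theorem eps (ε : ℤ) (hε : ε = 1 ∨ ε = -1) {x : (MonoidAlgebra ℤ Γ)} (h : Allowed S x) : Allowed S (ε • x) := by
  rcases hε with rfl | rfl
  · rwa [one_smul]
  · rw [neg_one_smul]; exact h.neg

open Classical in
theorem l1_le {x : (MonoidAlgebra ℤ Γ)} (h : Allowed S x) : (if x ≠ 0 then (1 : ℝ) else 0) ≤ l1 x := by
  rcases h with rfl | ⟨g, u, hg, rfl⟩
  · rw [if_neg (fun h => h rfl), l1_zero]
  · rw [l1_single_unit]; split_ifs <;> norm_num

end Allowed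

section main

variable {n m : Type} [Fintype n] [DecidableEq n] [Fintype m] [DecidableEq m]

open Classical in
/-- the subdivision of a form with monomial entries -/
theorem subdivide (w : Γ →* ℤˣ) (S : Set Γ) (hS : Subgroup.closure S = ⊤) (ε : ℤ)
    (hε : ε = 1 ∨ ε = -1) (c : ℝ) (hc0 : 0 < c) (hc : 9 / 2 < c ^ 2) (B : Matrix m m (MonoidAlgebra ℤ Γ))
    (hB : ∀ a b, Comb.Mono (B a b))
    (hdeg : ∀ a, (Finset.univ.filter fun b => B a b ≠ 0).card
      + (Finset.univ.filter fun b => B b a ≠ 0).card ≤ 3) :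
    ∃ (p : Type) (_ : Fintype p) (_ : DecidableEq p) (F : Matrix p p (MonoidAlgebra ℤ Γ)), Rep w B F ∧
      NormLE (F + ε • sadj w F) c ∧
      (∀ i j, Allowed S ((F + ε • sadj w F) i j)) ∧
      (∀ i, (F + ε • sadj w F) i i = 0) ∧
      ∀ i, ∑ j, l1 ((F + ε • sadj w F) i j) ≤ 3 := by
  obtain ⟨θ, hθ0, hθ, hθ3⟩ := exists_theta c hc0 hc
  have hθ1 : θ < 1 := by
    by_contra h
    rw [not_lt] at h
    nlinarith
  obtain ⟨q0, hq0⟩ := exists_q θ ((c - 3 * θ) / 3) hθ0 hθ1 (by linarith)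
  let T : Type := {t : m × m // B t.1 t.2 ≠ 0}
  -- the labels
  have hlab : ∀ t : T, ∃ (l : List Γ) (u : ℤˣ), (∀ x ∈ l, x ∈ S ∨ x⁻¹ ∈ S) ∧
      B t.1.1 t.1.2 = MonoidAlgebra.single l.prod (u : ℤ) := by
    intro t
    rcases hB t.1.1 t.1.2 with h | ⟨g, u, h⟩
    · exact absurd h t.2
    · have hg : g ∈ Subgroup.closure S := by rw [hS]; exact Subgroup.mem_top g
      rw [← Subgroup.mem_toSubmonoid, Subgroup.closure_toSubmonoid] at hg
      obtain ⟨l, hl, rfl⟩ := Submonoid.exists_list_of_mem_closure hg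
      exact ⟨l, u, fun x hx => by simpa using hl x hx, h⟩
  choose l u hl hlu using hlab
  let q : ℕ := (Finset.univ.sup fun t => (l t).length) + q0 + 1
  have hlen : ∀ t, (l t).length ≤ q := fun t => by
    have : (l t).length ≤ Finset.univ.sup fun t => (l t).length :=
      Finset.le_sup (f := fun t => (l t).length) (Finset.mem_univ t)
    omega
  let D : Sub m T Γ :=
    { i := fun t => t.1.1
      j := fun t => t.1.2
      q := q
      a := fun t k => MonoidAlgebra.single ((l t).getD k 1) (((if k = 0 then u t else 1 : ℤˣ)) : ℤ)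
      u := fun t k => MonoidAlgebra.single ((l t).drop k).prod
        (((if k = 0 then u t else 1 : ℤˣ)) : ℤ)
      hq := Nat.succ_pos _
      hu := by
        intro t k
        rw [MonoidAlgebra.single_mul_single, if_neg (Nat.succ_ne_zero k), Units.val_one, mul_one]
        congr 1
        by_cases h : k < (l t).length
        · rw [List.drop_eq_getElem_cons h, List.prod_cons, List.getD_eq_getElem _ _ h]
        · rw [List.drop_eq_nil_of_le (by omega), List.drop_eq_nil_of_le (by omega),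
            List.getD_eq_default _ _ (by omega), List.prod_nil, mul_one]
      hu1 := by
        intro t
        rw [if_neg (Nat.succ_ne_zero _), List.drop_eq_nil_of_le (by have := hlen t; omega),
          List.prod_nil, MonoidAlgebra.one_def]
        rfl }
  have ha : ∀ t k, l1 (D.a t k) = 1 := fun t k => l1_single_unit _ _
  have hA : ∀ t k, Allowed S (D.a t k) := by
    intro t k
    right
    refine ⟨_, _, ?_, rfl⟩
    by_cases h : k < (l t).length
    · rw [List.getD_eq_getElem _ _ h]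
      right; exact hl t _ (List.getElem_mem h)
    · rw [List.getD_eq_default _ _ (by omega)]; left; rfl
  have hBD : ∀ v v', B v v' = ∑ t, if D.i t = v ∧ D.j t = v' then D.u t 0 else 0 := by
    intro v v'
    have hu0 : ∀ t : T, D.u t 0 = B t.1.1 t.1.2 := by
      intro t
      rw [hlu t]
      simp [D]
    by_cases h : B v v' = 0
    · rw [h]
      symm
      refine Finset.sum_eq_zero fun t _ => ?_
      rw [if_neg]
      rintro ⟨rfl, rfl⟩
      exact t.2 h
    · rw [Finset.sum_eq_single (⟨(v, v'), h⟩ : T)]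
      · rw [if_pos ⟨rfl, rfl⟩, hu0]
      · intro t _ ht
        rw [if_neg]
        rintro ⟨rfl, rfl⟩
        exact ht rfl
      · intro h1; exact absurd (Finset.mem_univ _) h1
  have hdi : ∀ v : m, (Finset.univ.filter fun t : T => D.i t = v).card
      ≤ (Finset.univ.filter fun b => B v b ≠ 0).card := by
    intro v
    apply Finset.card_le_card_of_injOn (fun t => t.1.2)
    · intro t ht
      have h1 : t.1.1 = v := (Finset.mem_filter.1 ht).2
      have h2 := t.2
      simp only [Finset.coe_filter, Finset.mem_univ, true_and, Set.mem_ofPred_eq]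
      rw [← h1]; exact h2
    · intro t ht t' ht' h
      have h1 : t.1.1 = v := (Finset.mem_filter.1 ht).2
      have h2 : t'.1.1 = v := (Finset.mem_filter.1 ht').2
      exact Subtype.ext (Prod.ext (h1.trans h2.symm) h)
  have hdj : ∀ v : m, (Finset.univ.filter fun t : T => D.j t = v).card
      ≤ (Finset.univ.filter fun b => B b v ≠ 0).card := by
    intro v
    apply Finset.card_le_card_of_injOn (fun t => t.1.1)
    · intro t ht
      have h1 : t.1.2 = v := (Finset.mem_filter.1 ht).2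
      have h2 := t.2
      simp only [Finset.coe_filter, Finset.mem_univ, true_and, Set.mem_ofPred_eq]
      rw [← h1]; exact h2
    · intro t ht t' ht' h
      have h1 : t.1.2 = v := (Finset.mem_filter.1 ht).2
      have h2 : t'.1.2 = v := (Finset.mem_filter.1 ht').2
      exact Subtype.ext (Prod.ext h (h1.trans h2.symm))
  have hd : ∀ v : m, (((Finset.univ.filter fun t : T => D.j t = v).card : ℝ)
      + (Finset.univ.filter fun t : T => D.i t = v).card) ≤ 3 := by
    intro v
    have h1 := hdi v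
    have h2 := hdj v
    have h3 := hdeg v
    have h4 : (Finset.univ.filter fun t : T => D.j t = v).card
      + (Finset.univ.filter fun t : T => D.i t = v).card ≤ 3 := by omega
    exact_mod_cast h4
  -- the entries
  have hent : ∀ i j, (D.form i j = 0 ∧ Allowed S (D.form j i)) ∨
      (D.form j i = 0 ∧ Allowed S (D.form i j)) := by
    have hN : ∀ k k', Allowed S ((1 - D.N) k k') := by
      intro k k'
      rw [Matrix.sub_apply, Matrix.one_apply]
      by_cases h : k = k'
      · subst h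
        have h1 : D.N k k = 0 := by
          by_contra h1
          exact lt_irrefl _ (D.N_rk k k h1)
        rw [if_pos rfl, h1, sub_zero]; exact Allowed.one
      · rw [if_neg h, zero_sub]
        exact ((hA _ _).ite _).neg
    have hX : ∀ k v, Allowed S (D.X k v) := fun k v => (hA _ _).ite _
    have hY : ∀ v k, Allowed S ((-D.Y) v k) := fun v k => ((hA _ _).ite _).neg
    rintro (v | k | k) (v' | k' | k')
    · exact Or.inl ⟨rfl, Allowed.zero⟩
    · exact Or.inl ⟨rfl, hX _ _⟩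
    · exact Or.inr ⟨rfl, hY _ _⟩
    · exact Or.inr ⟨rfl, hX _ _⟩
    · exact Or.inr ⟨rfl, Allowed.zero⟩
    · exact Or.inr ⟨rfl, hN _ _⟩
    · exact Or.inl ⟨rfl, hY _ _⟩
    · exact Or.inl ⟨rfl, hN _ _⟩
    · exact Or.inl ⟨rfl, Allowed.zero⟩
  refine ⟨m ⊕ ((T × Fin D.q) ⊕ (T × Fin D.q)), inferInstance, inferInstance, D.form,
    D.rep w B hBD, ?_, ?_, ?_, ?_⟩
  · -- the norm
    set L := 2 * D.q + 1 with hL
    have hf : wf θ L (2 * D.q + 1) = wf θ L 0 := by
      unfold wf
      rw [hL, Nat.sub_self, Nat.sub_zero]; ring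
    have hf2 : wf θ L (2 * D.q) = wf θ L 1 := by
      unfold wf
      have e1 : L - 2 * D.q = 1 := by omega
      have e2 : L - 1 = 2 * D.q := by omega
      rw [e1, e2]; ring
    apply schur_form w ε hε D.form c (D.wt (wf θ L))
    · rintro (v | k | k) <;> exact wf_pos θ hθ0 _ _
    · rintro (v | ⟨t, s⟩ | ⟨t, s⟩)
      · rw [Sub.row_v D ha]
        change _ ≤ c * wf θ L 0
        rw [hf2, ← add_mul]
        have h1 := hd v
        have h2 := wf_pos θ hθ0 L 1
        have h3 := mul_le_mul_of_nonneg_right h1 h2.le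
        refine h3.trans ?_
        unfold wf
        have e2 : L - 1 = 2 * D.q := by omega
        rw [e2, pow_one, pow_zero]
        have h4 := hq0 D.q (by change q0 ≤ _ + q0 + 1; omega)
        have h5 : 0 < θ ^ (L - 0) := pow_pos hθ0 _
        have h6 : 0 < c * θ ^ (L - 0) := mul_pos hc0 h5
        nlinarith
      · rw [Sub.row_p D ha _ hf]
        have hs := s.isLt
        exact (wf_step θ c hθ L (2 * s.val + 1) (by omega)).le
      · rw [Sub.row_r D ha]
        have hs := s.isLt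
        exact (wf_step θ c hθ L (2 * s.val) (by omega)).le
  · -- the entries
    intro i j
    rw [Matrix.add_apply, Matrix.smul_apply, sadj_apply]
    rcases hent i j with ⟨h1, h2⟩ | ⟨h1, h2⟩
    · rw [h1, zero_add]
      exact (h2.sbar w).eps ε hε
    · rw [h1, sbar_zero, smul_zero, add_zero]
      exact h2
  · -- the diagonal
    intro i
    rw [Matrix.add_apply, Matrix.smul_apply, sadj_apply]
    have h1 : D.form i i = 0 := by rcases hent i i with ⟨h1, _⟩ | ⟨h1, _⟩ <;> exact h1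
    rw [h1, sbar_zero, smul_zero, add_zero]
  · -- the number of entries
    intro i
    have h1 : ∀ j, l1 ((D.form + ε • sadj w D.form) i j)
        ≤ (l1 (D.form i j) + l1 (D.form j i)) * D.wt (fun _ => 1) j := by
      intro j
      have h2 : D.wt (fun _ => 1) j = 1 := by rcases j with v | k | k <;> rfl
      rw [h2, mul_one]
      refine (l1_add_le _ _).trans ?_
      rw [Matrix.smul_apply, l1_zsmul_unit ε hε, sadj_apply, l1_sbar]
    refine (Finset.sum_le_sum fun j _ => h1 j).trans ?_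
    rcases i with v | ⟨t, s⟩ | ⟨t, s⟩
    · rw [Sub.row_v D ha, mul_one, mul_one]
      exact hd v
    · rw [Sub.row_p D ha _ rfl]; norm_num
    · rw [Sub.row_r D ha]; norm_num

theorem isUnit_sadj (w : Γ →* ℤˣ) (E : Matrix m m (MonoidAlgebra ℤ Γ)) (h : IsUnit E) : IsUnit (sadj w E) := by
  obtain ⟨⟨E, F, h1, h2⟩, rfl⟩ := h
  refine ⟨⟨sadj w E, sadj w F, ?_, ?_⟩, rfl⟩
  · rw [← sadj_mul, h2, sadj_one]
  · rw [← sadj_mul, h1, sadj_one]

theorem isUnit_stab (w : Γ →* ℤˣ) (ε : ℤ) (hε : ε = 1 ∨ ε = -1) (ψ : Matrix n n (MonoidAlgebra ℤ Γ))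
    (h : IsUnit (ψ + ε • sadj w ψ)) (E : Matrix (n ⊕ (m ⊕ m)) (n ⊕ (m ⊕ m)) (MonoidAlgebra ℤ Γ))
    (hE : E ∈ El (R := (MonoidAlgebra ℤ Γ)) (n ⊕ (m ⊕ m))) :
    IsUnit (E * stab ψ m * sadj w E + ε • sadj w (E * stab ψ m * sadj w E)) := by
  have hε2 : ε * ε = 1 := by rcases hε with rfl | rfl <;> norm_num
  obtain ⟨u, hu, _⟩ := El_unit E hE
  have hEu : IsUnit E := ⟨u, hu⟩
  have h1 : E * stab ψ m * sadj w E + ε • sadj w (E * stab ψ m * sadj w E)
      = E * (stab ψ m + ε • sadj w (stab ψ m)) * sadj w E := by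
    rw [sadj_mul, sadj_mul, sadj_sadj, Matrix.mul_add, Matrix.add_mul, Matrix.mul_smul,
      Matrix.smul_mul, Matrix.mul_assoc, Matrix.mul_assoc]
  rw [h1]
  refine (hEu.mul ?_).mul (isUnit_sadj w E hEu)
  have h2 : stab ψ m + ε • sadj w (stab ψ m)
      = fromBlocks (ψ + ε • sadj w ψ) 0 0 (fromBlocks 0 1 (ε • (1 : Matrix m m (MonoidAlgebra ℤ Γ))) 0) := by
    unfold stab
    rw [sadj_fromBlocks, sadj_fromBlocks, Matrix.fromBlocks_smul, Matrix.fromBlocks_smul,
      Matrix.fromBlocks_add, Matrix.fromBlocks_add]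
    simp only [sadj_zero, sadj_one, smul_zero, add_zero, zero_add]
  rw [h2]
  obtain ⟨⟨A, A', e1, e2⟩, hA⟩ := h
  simp only at hA
  rw [← hA]
  refine ⟨⟨fromBlocks A 0 0 (fromBlocks 0 1 (ε • (1 : Matrix m m (MonoidAlgebra ℤ Γ))) 0),
    fromBlocks A' 0 0 (fromBlocks 0 (ε • (1 : Matrix m m (MonoidAlgebra ℤ Γ))) 1 0), ?_, ?_⟩, rfl⟩
  · rw [Matrix.fromBlocks_multiply, Matrix.fromBlocks_multiply]
    simp only [Matrix.mul_zero, Matrix.zero_mul, add_zero, zero_add, Matrix.mul_one,
      Matrix.mul_smul, smul_smul, hε2, one_smul, e1, smul_zero, Matrix.fromBlocks_one]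
  · rw [Matrix.fromBlocks_multiply, Matrix.fromBlocks_multiply]
    simp only [Matrix.mul_zero, Matrix.zero_mul, add_zero, zero_add, Matrix.mul_one,
      Matrix.mul_smul, smul_smul, hε2, one_smul, e2, smul_zero, Matrix.fromBlocks_one]

open Classical in
/-- **Every form is stably isometric to one of norm close to `3 / √2`.** -/
theorem above (w : Γ →* ℤˣ) (S : Set Γ) (hS : Subgroup.closure S = ⊤) (ε : ℤ)
    (hε : ε = 1 ∨ ε = -1) (c : ℝ) (hc0 : 0 < c) (hc : 9 / 2 < c ^ 2) (ψ : Matrix n n (MonoidAlgebra ℤ Γ)) :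
    ∃ (q : ℕ) (E : Matrix (n ⊕ (Fin q ⊕ Fin q)) (n ⊕ (Fin q ⊕ Fin q)) (MonoidAlgebra ℤ Γ))
      (ψ' lam : Matrix (n ⊕ (Fin q ⊕ Fin q)) (n ⊕ (Fin q ⊕ Fin q)) (MonoidAlgebra ℤ Γ)),
      E ∈ El (R := (MonoidAlgebra ℤ Γ)) (n ⊕ (Fin q ⊕ Fin q)) ∧
      ψ' = E * stab ψ (Fin q) * sadj w E ∧ lam = ψ' + ε • sadj w ψ' ∧
      NormLE lam c ∧ (∀ i j, Allowed S (lam i j)) ∧ (∀ i, lam i i = 0) ∧
      (∀ i, (Finset.univ.filter fun j => lam i j ≠ 0).card ≤ 3) ∧
      (IsUnit (ψ + ε • sadj w ψ) → IsUnit lam) := by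
  obtain ⟨C, hC1, hC2, rfl⟩ := Comb.exists_comb ψ
  obtain ⟨p, i1, i2, F, hF, hN, hall, hdiag, hsum⟩ := subdivide w S hS ε hε c hc0 hc C.form
    (C.form_mono hC1) (fun a => by convert C.degree a)
  obtain ⟨q, e, E, hE, h⟩ := ((C.rep w).trans hF).fin
  refine ⟨q, E, F.submatrix e e, (F + ε • sadj w F).submatrix e e, hE, h, ?_, ?_, ?_, ?_, ?_, ?_⟩
  · rfl
  · exact NormLE_re e _ c hN
  · intro i j; exact hall _ _
  · intro i; exact hdiag _
  · intro i
    have h1 : ((Finset.univ.filter fun j => (F + ε • sadj w F).submatrix e e i j ≠ 0).card : ℝ)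
        ≤ ∑ j, l1 ((F + ε • sadj w F).submatrix e e i j) := by
      rw [Finset.card_filter, Nat.cast_sum]
      refine Finset.sum_le_sum fun j _ => ?_
      have h2 := (hall (e i) (e j)).l1_le
      rw [Matrix.submatrix_apply]
      push_cast
      exact h2
    have h3 : ∑ j, l1 ((F + ε • sadj w F).submatrix e e i j)
        = ∑ b, l1 ((F + ε • sadj w F) (e i) b) :=
      Fintype.sum_equiv e _ _ fun j => rfl
    have h4 := h1.trans (h3.trans_le (hsum (e i)))
    exact_mod_cast h4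
  · intro hu
    have h1 : (F + ε • sadj w F).submatrix e e
        = E * stab C.ψ (Fin q) * sadj w E + ε • sadj w (E * stab C.ψ (Fin q) * sadj w E) := by
      rw [← h]; rfl
    rw [h1]
    exact isUnit_stab w ε hε _ hu E hE

end main

end Helper82K9.SF
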