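import Pool.Agent.Helper82K9.Schur

set_option autoImplicit false
set_option linter.unusedSectionVars false

/-! # Hyperbolic stabilisation and networks -/

namespace Helper82K9.SF

open Matrix TH57.Thr TH6.LF TH6.PF

variable {Γ : Type} [Group Γ]

section el

variable {R : Type} [Ring R] {κ μ : Type} [Fintype κ] [DecidableEq κ] [Fintype μ] [DecidableEq μ]

theorem el_ext' (F : Matrix κ κ R) (hF : F ∈ El (R := R) κ) :
    fromBlocks (1 : Matrix μ μ R) 0 0 F ∈ El (R := R) (μ ⊕ κ) := by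
  have h := el_reindex (Equiv.sumComm μ κ) _ (el_ext (μ := μ) F hF)
  convert h using 1
  ext (i | i) (j | j) <;> rfl

theorem el_upper (U : Matrix μ κ R) : fromBlocks 1 U 0 1 ∈ El (R := R) (μ ⊕ κ) := by
  have h := el_unip (Finset.univ.filter fun v : μ ⊕ κ => v.isLeft)
    (fromBlocks 0 U 0 0 : Matrix (μ ⊕ κ) (μ ⊕ κ) R) (by
      rintro (i | i) (j | j) h <;> simp at h ⊢)
  rwa [← Matrix.fromBlocks_one, Matrix.fromBlocks_add, add_zero, add_zero, zero_add, add_zero] at h

/-- the rows of rank less than `m` -/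
def lowRows (rk : κ → ℕ) (N : Matrix κ κ R) (m : ℕ) : Matrix κ κ R :=
  Matrix.of fun i j => if rk i < m then N i j else 0

/-- unitriangular matrices are products of elementary matrices -/
theorem el_tri (rk : κ → ℕ) (N : Matrix κ κ R) (hN : ∀ i j, N i j ≠ 0 → rk i < rk j) :
    1 - N ∈ El (R := R) κ := by
  have key : ∀ m : ℕ, 1 - lowRows rk N m ∈ El (R := R) κ := by
    intro m
    induction m with
    | zero =>
      have : lowRows rk N 0 = 0 := by ext i j; simp [lowRows]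
      rw [this, sub_zero]; exact one_mem _
    | succ m ih =>
      set A : Matrix κ κ R := Matrix.of fun i j => if rk i = m then -N i j else 0 with hA
      have h1 : 1 + A ∈ El (R := R) κ := by
        apply el_unip (Finset.univ.filter fun i => rk i = m)
        intro i j h
        simp only [hA, Matrix.of_apply] at h
        by_cases h2 : rk i = m
        · rw [if_pos h2] at h
          have h3 := hN i j (fun h0 => h (by rw [h0, neg_zero]))
          simp only [Finset.mem_filter, Finset.mem_univ, true_and]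
          exact ⟨h2, by omega⟩
        · rw [if_neg h2] at h; exact absurd rfl h
      have h2 := mul_mem h1 ih
      have h3 : A * lowRows rk N m = 0 := by
        ext i j
        rw [Matrix.mul_apply]
        refine Finset.sum_eq_zero fun k _ => ?_
        by_cases h4 : A i k = 0
        · rw [h4, zero_mul]
        · have h5 : rk i = m := by
            by_contra h5
            exact h4 (if_neg h5)
          have h6 : rk i < rk k := hN i k fun h0 => h4 (by
            simp only [hA, Matrix.of_apply]; rw [if_pos h5, h0, neg_zero])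
          simp only [lowRows, Matrix.of_apply]
          rw [if_neg (by omega), mul_zero]
      have h4 : (1 + A) * (1 - lowRows rk N m) = 1 - lowRows rk N (m + 1) := by
        rw [Matrix.mul_sub, Matrix.mul_one, Matrix.add_mul, Matrix.one_mul, h3, add_zero]
        ext i j
        simp only [hA, lowRows, Matrix.sub_apply, Matrix.add_apply, Matrix.of_apply]
        rcases lt_trichotomy (rk i) m with h4 | h4 | h4
        · rw [if_neg (by omega), if_pos (by omega), if_pos (by omega)]; abel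
        · rw [if_pos h4, if_neg (by omega), if_pos (by omega)]; abel
        · rw [if_neg (by omega), if_neg (by omega), if_neg (by omega)]; abel
      rw [← h4]
      exact h2
  have h := key ((Finset.univ.sup rk) + 1)
  have h1 : lowRows rk N ((Finset.univ.sup rk) + 1) = N := by
    ext i j
    simp only [lowRows, Matrix.of_apply]
    rw [if_pos (Nat.lt_succ_of_le (Finset.le_sup (Finset.mem_univ i)))]
  rwa [h1] at h

end el

variable {n m K : Type} [Fintype n] [DecidableEq n] [Fintype m] [DecidableEq m]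
  [Fintype K] [DecidableEq K]

/-- The sum of the form `ψ` and the hyperbolic form of rank `K`. -/
noncomputable def stab (ψ : Matrix n n (MonoidAlgebra ℤ Γ)) (K : Type) [DecidableEq K] :
    Matrix (n ⊕ (K ⊕ K)) (n ⊕ (K ⊕ K)) (MonoidAlgebra ℤ Γ) :=
  fromBlocks ψ 0 0 (fromBlocks 0 1 0 0)

/-- the form of a network -/
noncomputable def net (Y : Matrix n K (MonoidAlgebra ℤ Γ)) (N : Matrix K K (MonoidAlgebra ℤ Γ)) (X : Matrix K n (MonoidAlgebra ℤ Γ)) :
    Matrix (n ⊕ (K ⊕ K)) (n ⊕ (K ⊕ K)) (MonoidAlgebra ℤ Γ) :=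
  fromBlocks 0 (fromCols 0 (-Y)) (fromRows X 0) (fromBlocks 0 (1 - N) 0 0)

theorem net_eq (w : Γ →* ℤˣ) (ψ : Matrix n n (MonoidAlgebra ℤ Γ)) (Y : Matrix n K (MonoidAlgebra ℤ Γ)) (N : Matrix K K (MonoidAlgebra ℤ Γ))
    (X : Matrix K n (MonoidAlgebra ℤ Γ)) (W : Matrix K n (MonoidAlgebra ℤ Γ)) (rk : K → ℕ) (hN : ∀ i j, N i j ≠ 0 → rk i < rk j)
    (hW : X + N * W = W) (hY : Y * W = ψ) :
    ∃ E ∈ El (R := (MonoidAlgebra ℤ Γ)) (n ⊕ (K ⊕ K)), net Y N X = E * stab ψ K * sadj w E := by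
  refine ⟨fromBlocks 1 (fromCols (-Y) (sadj w W)) 0 (fromBlocks (1 - N) 0 0 1), ?_, ?_⟩
  · have h1 : (fromBlocks 1 (fromCols (-Y) (sadj w W)) 0 (fromBlocks (1 - N) 0 0 1) :
        Matrix (n ⊕ (K ⊕ K)) (n ⊕ (K ⊕ K)) (MonoidAlgebra ℤ Γ))
        = fromBlocks 1 0 0 (fromBlocks (1 - N) 0 0 1)
          * fromBlocks 1 (fromCols (-Y) (sadj w W)) 0 1 := by
      rw [Matrix.fromBlocks_multiply]; simp
    rw [h1]
    exact mul_mem (el_ext' _ (el_ext _ (el_tri rk N hN))) (el_upper _)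
  · have hX : (1 - N) * W = X := by
      rw [Matrix.sub_mul, Matrix.one_mul, sub_eq_iff_eq_add]; exact hW.symm
    rw [sadj_fromBlocks, sadj_fromBlocks, sadj_fromCols]
    simp only [sadj_zero, sadj_one, sadj_sadj]
    unfold stab net
    rw [Matrix.fromBlocks_multiply, Matrix.fromBlocks_multiply]
    congr 1
    · simp only [Matrix.mul_one, Matrix.one_mul, Matrix.mul_zero, Matrix.zero_mul, zero_add, add_zero,
        Matrix.fromCols_mul_fromBlocks, Matrix.fromCols_mul_fromRows]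
      rw [Matrix.neg_mul, hY, add_neg_cancel]
    · simp only [Matrix.mul_one, Matrix.one_mul, Matrix.mul_zero, Matrix.zero_mul, zero_add, add_zero,
        Matrix.fromCols_mul_fromBlocks]
    · simp only [Matrix.mul_one, Matrix.one_mul, Matrix.mul_zero, Matrix.zero_mul, zero_add, add_zero,
        Matrix.fromBlocks_multiply, Matrix.fromBlocks_mul_fromRows, hX]
    · simp only [Matrix.mul_one, Matrix.one_mul, Matrix.mul_zero, Matrix.zero_mul, zero_add, add_zero,
        Matrix.fromBlocks_multiply]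

/-- `B` is, up to the names of the basis elements, a form which arises from the sum of `ψ` and a
hyperbolic form by a change of basis by a product of elementary matrices. -/
def Rep (w : Γ →* ℤˣ) (ψ : Matrix n n (MonoidAlgebra ℤ Γ)) (B : Matrix m m (MonoidAlgebra ℤ Γ)) : Prop :=
  ∃ (K : Type) (_ : Fintype K) (_ : DecidableEq K) (e : (n ⊕ (K ⊕ K)) ≃ m)
    (E : Matrix (n ⊕ (K ⊕ K)) (n ⊕ (K ⊕ K)) (MonoidAlgebra ℤ Γ)), E ∈ El (R := (MonoidAlgebra ℤ Γ)) (n ⊕ (K ⊕ K)) ∧
      B.submatrix e e = E * stab ψ K * sadj w E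

theorem Rep.trans {w : Γ →* ℤˣ} {p : Type} [Fintype p] [DecidableEq p] {ψ : Matrix n n (MonoidAlgebra ℤ Γ)}
    {B : Matrix m m (MonoidAlgebra ℤ Γ)} {C : Matrix p p (MonoidAlgebra ℤ Γ)} (h1 : Rep w ψ B) (h2 : Rep w B C) : Rep w ψ C := by
  obtain ⟨K, i1, i2, e, E, hE, hB⟩ := h1
  obtain ⟨L, i3, i4, f, F, hF, hC⟩ := h2
  let τ : (n ⊕ ((K ⊕ L) ⊕ (K ⊕ L))) ≃ ((n ⊕ (K ⊕ K)) ⊕ (L ⊕ L)) :=
    { toFun := Sum.elim (fun i => Sum.inl (Sum.inl i)) (Sum.elim
        (Sum.elim (fun k => Sum.inl (Sum.inr (Sum.inl k))) (fun l => Sum.inr (Sum.inl l)))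
        (Sum.elim (fun k => Sum.inl (Sum.inr (Sum.inr k))) (fun l => Sum.inr (Sum.inr l))))
      invFun := Sum.elim (Sum.elim Sum.inl (Sum.elim (fun k => Sum.inr (Sum.inl (Sum.inl k)))
        (fun k => Sum.inr (Sum.inr (Sum.inl k)))))
        (Sum.elim (fun l => Sum.inr (Sum.inl (Sum.inr l))) (fun l => Sum.inr (Sum.inr (Sum.inr l))))
      left_inv := by rintro (i | (i | i) | (i | i)) <;> rfl
      right_inv := by rintro ((i | i | i) | i | i) <;> rfl }
  let g : ((n ⊕ (K ⊕ K)) ⊕ (L ⊕ L)) ≃ (m ⊕ (L ⊕ L)) := Equiv.sumCongr e (Equiv.refl _)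
  have e1 : (stab B L).submatrix g g = fromBlocks (B.submatrix e e) 0 0 (fromBlocks 0 1 0 0) := by
    ext (i | i) (j | j) <;> rfl
  have e2 : (fromBlocks (stab ψ K) 0 0 (fromBlocks 0 1 0 0) :
      Matrix ((n ⊕ (K ⊕ K)) ⊕ (L ⊕ L)) ((n ⊕ (K ⊕ K)) ⊕ (L ⊕ L)) (MonoidAlgebra ℤ Γ)).submatrix τ τ
      = stab ψ (K ⊕ L) := by
    ext (i | (i | i) | (i | i)) (j | (j | j) | (j | j)) <;>
      simp [stab, τ, Matrix.one_apply]
  let E' : Matrix ((n ⊕ (K ⊕ K)) ⊕ (L ⊕ L)) ((n ⊕ (K ⊕ K)) ⊕ (L ⊕ L)) (MonoidAlgebra ℤ Γ) := fromBlocks E 0 0 1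
  have hE' : E' ∈ El (R := (MonoidAlgebra ℤ Γ)) ((n ⊕ (K ⊕ K)) ⊕ (L ⊕ L)) := el_ext _ hE
  have e3 : (stab B L).submatrix g g
      = E' * fromBlocks (stab ψ K) 0 0 (fromBlocks 0 1 0 0) * sadj w E' := by
    rw [e1, hB]
    simp only [E']
    rw [sadj_fromBlocks, Matrix.fromBlocks_multiply, Matrix.fromBlocks_multiply]
    simp only [sadj_zero, sadj_one]
    simp
  refine ⟨K ⊕ L, inferInstance, inferInstance, (τ.trans g).trans f,
    (F.submatrix g g * E').submatrix τ τ, ?_, ?_⟩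
  · exact el_reindex τ _ (mul_mem (el_reindex g _ hF) hE')
  · have e4 : C.submatrix ((τ.trans g).trans f) ((τ.trans g).trans f)
        = ((C.submatrix f f).submatrix g g).submatrix τ τ := rfl
    rw [e4, hC]
    have e5 : (F * stab B L * sadj w F).submatrix g g
        = F.submatrix g g * (stab B L).submatrix g g * sadj w (F.submatrix g g) := by
      rw [sadj_submatrix, Matrix.submatrix_mul_equiv, Matrix.submatrix_mul_equiv]
    rw [e5, e3]
    have e6 : F.submatrix g g * (E' * fromBlocks (stab ψ K) 0 0 (fromBlocks 0 1 0 0) * sadj w E')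
        * sadj w (F.submatrix g g)
        = (F.submatrix g g * E') * fromBlocks (stab ψ K) 0 0 (fromBlocks 0 1 0 0)
          * sadj w (F.submatrix g g * E') := by
      rw [sadj_mul]; simp only [Matrix.mul_assoc]
    rw [e6, sadj_submatrix, ← e2, Matrix.submatrix_mul_equiv, Matrix.submatrix_mul_equiv]

theorem Rep.fin {w : Γ →* ℤˣ} {ψ : Matrix n n (MonoidAlgebra ℤ Γ)} {B : Matrix m m (MonoidAlgebra ℤ Γ)} (h : Rep w ψ B) :
    ∃ (q : ℕ) (e : (n ⊕ (Fin q ⊕ Fin q)) ≃ m)
    (E : Matrix (n ⊕ (Fin q ⊕ Fin q)) (n ⊕ (Fin q ⊕ Fin q)) (MonoidAlgebra ℤ Γ)),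
      E ∈ El (R := (MonoidAlgebra ℤ Γ)) (n ⊕ (Fin q ⊕ Fin q)) ∧
      B.submatrix e e = E * stab ψ (Fin q) * sadj w E := by
  obtain ⟨K, i1, i2, e, E, hE, hB⟩ := h
  let f : Fin (Fintype.card K) ≃ K := (Fintype.equivFin K).symm
  let g : (n ⊕ (Fin (Fintype.card K) ⊕ Fin (Fintype.card K))) ≃ (n ⊕ (K ⊕ K)) :=
    Equiv.sumCongr (Equiv.refl _) (Equiv.sumCongr f f)
  have e1 : (stab ψ K).submatrix g g = stab ψ (Fin (Fintype.card K)) := by
    ext (i | i | i) (j | j | j) <;> simp [stab, g, Matrix.one_apply]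
  refine ⟨Fintype.card K, g.trans e, E.submatrix g g, el_reindex g _ hE, ?_⟩
  have e2 : B.submatrix (g.trans e) (g.trans e) = (B.submatrix e e).submatrix g g := rfl
  rw [e2, hB, sadj_submatrix, ← e1, Matrix.submatrix_mul_equiv, Matrix.submatrix_mul_equiv]

end Helper82K9.SF
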