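import Pool.Agent.Y55.DS.Poly2

/-! The dispersion inequality for the `3x+d` maps, `d` any odd number. -/

set_option autoImplicit false

namespace Pool.Agent.Helper82K9.PM

open Finset Pool.Agent.Y965.PS Pool.Agent.Y55.DS

variable {d : ℤ}

theorem doc_abs {t a : ℕ} {R0 : ℝ} {x : ℤ} (hx : Gd d t a R0 x) : |(d : ℝ) * oc d t x| ≤ d.natAbs * (R0 * 2 ^ t) := by
  have hc := oc_nonneg (d := d) x t
  have hcR : (0 : ℝ) ≤ oc d t x := by exact_mod_cast hc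
  rw [abs_mul, abs_of_nonneg hcR]
  have h1 : |(d : ℝ)| = d.natAbs := by rw [Nat.cast_natAbs, Int.cast_abs]
  rw [h1]
  exact mul_le_mul_of_nonneg_left hx.2 (Nat.cast_nonneg _)

theorem pr_smallD (hd2 : d % 2 = 1) (t a : ℕ) {R0 : ℝ} {x y : ℤ} (hx : Gd d t a R0 x) (hy : Gd d t a R0 y)
    (h : (Tz d)^[t] x = (Tz d)^[t] y) : ((y - x : ℤ) : ℝ) ≤ (d.natAbs * R0) * 2 ^ t / 3 ^ a := by
  have h1 := main_id hd2 x t
  have h2 := main_id hd2 y t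
  rw [hx.1] at h1
  rw [hy.1] at h2
  rw [h] at h1
  have h3 : (3 : ℤ) ^ a * (y - x) = d * (oc d t x - oc d t y) := by linarith
  have hcx : (0 : ℝ) ≤ oc d t x := by exact_mod_cast oc_nonneg (d := d) x t
  have hcy : (0 : ℝ) ≤ oc d t y := by exact_mod_cast oc_nonneg (d := d) y t
  have h4 : (3 : ℝ) ^ a * ((y - x : ℤ) : ℝ) ≤ (d.natAbs * R0) * 2 ^ t := by
    have h5 : (3 : ℝ) ^ a * ((y - x : ℤ) : ℝ) = d * ((oc d t x : ℝ) - oc d t y) := by exact_mod_cast h3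
    rw [h5]
    have h6 : |(oc d t x : ℝ) - oc d t y| ≤ R0 * 2 ^ t := by
      rw [abs_le]
      have := hx.2
      have := hy.2
      constructor <;> linarith
    have h7 : |(d : ℝ)| = d.natAbs := by rw [Nat.cast_natAbs, Int.cast_abs]
    calc (d : ℝ) * ((oc d t x : ℝ) - oc d t y) ≤ |(d : ℝ) * ((oc d t x : ℝ) - oc d t y)| := le_abs_self _
      _ = d.natAbs * |(oc d t x : ℝ) - oc d t y| := by rw [abs_mul, h7]
      _ ≤ d.natAbs * (R0 * 2 ^ t) := mul_le_mul_of_nonneg_left h6 (Nat.cast_nonneg _)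
      _ = _ := by ring
  have h12 : (0 : ℝ) < 3 ^ a := by positivity
  rw [le_div_iff₀ h12, mul_comm]
  exact h4

theorem value_D (hd2 : d % 2 = 1) (t a : ℕ) {R0 : ℝ} {x : ℤ} (hx : Gd d t a R0 x) :
    (((Tz d)^[t] x : ℤ) : ℝ) ≤ x * (3 ^ a / 2 ^ t) + d.natAbs * R0 ∧
      x * (3 ^ a / 2 ^ t) - d.natAbs * R0 ≤ (((Tz d)^[t] x : ℤ) : ℝ) := by
  have h1 := main_id hd2 x t
  rw [hx.1] at h1
  have h2 : (2 : ℝ) ^ t * (((Tz d)^[t] x : ℤ) : ℝ) = 3 ^ a * x + d * oc d t x := by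
    exact_mod_cast h1
  have h3 := abs_le.1 (doc_abs hx)
  have h12 : (0 : ℝ) < 2 ^ t := by positivity
  have e : ∀ c : ℝ, x * (3 ^ a / 2 ^ t) + c = (3 ^ a * x + c * 2 ^ t) / 2 ^ t := by
    intro c; field_simp
  constructor
  · rw [e, le_div_iff₀ h12]; linarith [h3.2]
  · rw [sub_eq_add_neg, e, div_le_iff₀ h12]; linarith [h3.1]

/-- number of the points reached -/
theorem image_cardD (hd2 : d % 2 = 1) (t a : ℕ) {R0 R : ℝ} (hR0 : 0 ≤ R0) (hR : 2 * (d.natAbs * R0) + 1 ≤ R) (N1 N : ℕ) :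
    (((GA d t a R0 N1 N).image fun m : ℕ => (Tz d)^[t] (m : ℤ)).card : ℝ) ≤ N * (3 ^ a / 2 ^ t) + R := by
  set U : ℝ := N * (3 ^ a / 2 ^ t) + d.natAbs * R0 with hU
  set L : ℝ := -(d.natAbs * R0) with hL
  have hU0 : 0 ≤ U := by positivity
  have hL0 : L ≤ 0 := by rw [hL, neg_nonpos]; positivity
  have hsub : ((GA d t a R0 N1 N).image fun m : ℕ => (Tz d)^[t] (m : ℤ)) ⊆ (Icc ⌈L⌉ ⌊U⌋) := by
    intro p hp
    rw [mem_image] at hp
    obtain ⟨m, hm, rfl⟩ := hp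
    rw [mem_GA] at hm
    obtain ⟨v1, v2⟩ := value_D hd2 t a hm.2
    have hm0 : (0 : ℝ) ≤ ((m : ℤ) : ℝ) * (3 ^ a / 2 ^ t) := by positivity
    rw [mem_Icc]
    constructor
    · apply Int.ceil_le.2
      rw [hL]; linarith
    · apply Int.le_floor.2
      refine v1.trans ?_
      rw [hU]
      have : ((m : ℤ) : ℝ) ≤ N := by exact_mod_cast hm.1.2
      gcongr
  have h1 := card_le_card hsub
  rw [Int.card_Icc] at h1
  have h2 : ((⌊U⌋ + 1 - ⌈L⌉).toNat : ℝ) ≤ U + 1 - L := by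
    have h3 : 0 ≤ ⌊U⌋ + 1 - ⌈L⌉ := by
      have a1 : 0 ≤ ⌊U⌋ := Int.floor_nonneg.2 hU0
      have a2 : ⌈L⌉ ≤ 0 := Int.ceil_le.2 (by exact_mod_cast hL0)
      omega
    have h4 : (((⌊U⌋ + 1 - ⌈L⌉).toNat : ℤ) : ℝ) = ((⌊U⌋ + 1 - ⌈L⌉ : ℤ) : ℝ) := by rw [Int.toNat_of_nonneg h3]
    have h5 : (((⌊U⌋ + 1 - ⌈L⌉).toNat : ℕ) : ℝ) = ((⌊U⌋ + 1 - ⌈L⌉ : ℤ) : ℝ) := by exact_mod_cast h4
    rw [h5]
    push_cast
    have a1 := Int.floor_le U
    have a2 := Int.le_ceil L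
    linarith
  have h6 : (((GA d t a R0 N1 N).image fun m : ℕ => (Tz d)^[t] (m : ℤ)).card : ℝ) ≤
      ((⌊U⌋ + 1 - ⌈L⌉).toNat : ℝ) := by exact_mod_cast h1
  refine (h6.trans h2).trans ?_
  rw [hU, hL]
  linarith

open Classical in
theorem upper_pairsD (hd2 : d % 2 = 1) (t a : ℕ) {R0 R : ℝ} (hRR : d.natAbs * R0 ≤ R) (N1 N : ℕ) (z : ℕ → ℂ) :
    ∑ p ∈ (PA d t a R0 N1 N).filter (fun p => p.1 < p.2), z p.1 * (starRingEnd ℂ) (z p.2)
      = ∑ h ∈ Icc 1 ⌊R * 2 ^ t / 3 ^ a⌋₊, ∑ m ∈ (Ioc N1 (N - h)).filter (fun m : ℕ => Pr d t a R0 h m),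
          z m * (starRingEnd ℂ) (z (m + h)) := by
  rw [sum_sigma']
  refine sum_bij' (fun p _ => ⟨p.2 - p.1, p.1⟩) (fun q _ => (q.2, q.2 + q.1)) ?_ ?_ ?_ ?_ ?_
  · intro p hp
    rw [mem_filter, mem_PA, mem_GA, mem_GA] at hp
    obtain ⟨⟨⟨⟨a1, a2⟩, b1, b2⟩, hk⟩, hlt⟩ := hp
    rw [mem_sigma, mem_Icc, mem_filter, mem_Ioc]
    have e : ((p.1 : ℤ) + ((p.2 - p.1 : ℕ) : ℤ)) = (p.2 : ℤ) := by omega
    refine ⟨⟨by dsimp only; omega, ?_⟩, ⟨by dsimp only; omega, by dsimp only; omega⟩, ?_⟩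
    · apply Nat.le_floor
      have h1 := pr_smallD hd2 t a a2 b2 hk
      have h2 : (((p.2 : ℤ) - (p.1 : ℤ) : ℤ) : ℝ) = ((p.2 - p.1 : ℕ) : ℝ) := by
        have : ((p.2 : ℤ) - (p.1 : ℤ) : ℤ) = ((p.2 - p.1 : ℕ) : ℤ) := by omega
        rw [this]; norm_cast
      rw [h2] at h1
      refine h1.trans ?_
      gcongr
    · unfold Pr
      dsimp only
      rw [e]
      exact ⟨a2, b2, hk⟩
  · rintro ⟨h, m⟩ hq
    rw [mem_sigma, mem_Icc, mem_filter, mem_Ioc] at hq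
    dsimp only at hq
    obtain ⟨⟨h1, h2⟩, ⟨h3, h4⟩, h5, h6, h7⟩ := hq
    rw [mem_filter, mem_PA, mem_GA, mem_GA]
    dsimp only
    push_cast
    refine ⟨⟨⟨⟨⟨h3, by omega⟩, h5⟩, ⟨by omega, by omega⟩, h6⟩, h7⟩, by omega⟩
  · intro p hp
    rw [mem_filter] at hp
    have : p.1 + (p.2 - p.1) = p.2 := by omega
    simp only [this, Prod.mk.eta]
  · rintro ⟨h, m⟩ _
    simp
  · intro p hp
    rw [mem_filter] at hp
    have : p.1 + (p.2 - p.1) = p.2 := by omega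
    simp only [this]

open Classical in
/-- THE DISPERSION INEQUALITY for a fixed number of odd steps -/
theorem dispD (hd2 : d % 2 = 1) (t a : ℕ) {R0 R : ℝ} (hR0 : 0 ≤ R0) (hRR : 2 * (d.natAbs * R0) + 1 ≤ R) (N1 N : ℕ) {F : ℤ → ℝ} (hF : Sync d F)
    {z : ℕ → ℂ} (hz1 : ∀ m, ‖z m‖ ≤ 1) {β : ℕ → ℝ} (hβ : ∀ h, 0 ≤ β h)
    (hz : ∀ h : ℕ, 1 ≤ h → (h : ℝ) ≤ R * 2 ^ t / 3 ^ a → ∀ m0 J : ℕ, N1 < m0 →
      (∀ j < J, m0 + 2 ^ t * j + h ≤ N) →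
      ‖∑ j ∈ range J, z (m0 + 2 ^ t * j) * (starRingEnd ℂ) (z (m0 + 2 ^ t * j + h))‖ ≤ β h) :
    ‖∑ m ∈ GA d t a R0 N1 N, (F m : ℂ) * z m‖ ^ 2 ≤ (N * (3 ^ a / 2 ^ t) + R) *
      (N + 2 * (2 ^ t * ∑ h ∈ Icc 1 ⌊R * 2 ^ t / 3 ^ a⌋₊, β h)) := by
  have hDR : 0 ≤ (d.natAbs : ℝ) * R0 := by positivity
  have hR : 0 ≤ R := by linarith
  set G := GA d t a R0 N1 N with hG
  set κ : ℕ → ℤ := fun m => (Tz d)^[t] (m : ℤ) with hκ
  set I := G.image κ with hI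
  set A : ℤ → ℂ := fun p => ∑ m ∈ G.filter (fun m => κ m = p), z m with hA
  -- step 1
  have h1 : ‖∑ m ∈ G, (F m : ℂ) * z m‖ ≤ ∑ p ∈ I, ‖A p‖ := by
    rw [← sum_fiberwise_of_maps_to (s := G) (t := I) (g := κ) (fun m hm => mem_image_of_mem _ hm)]
    refine (norm_sum_le _ _).trans (sum_le_sum fun p hp => ?_)
    rw [hI, mem_image] at hp
    obtain ⟨m0, hm0, hp0⟩ := hp
    have e : ∑ m ∈ G.filter (fun m => κ m = p), (F m : ℂ) * z m = (F m0 : ℂ) * A p := by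
      rw [hA]
      dsimp only
      rw [mul_sum]
      apply sum_congr rfl
      intro m hm
      rw [mem_filter] at hm
      have h2 : κ m = κ m0 := by rw [hm.2, hp0]
      rw [hF.2 t m m0 h2]
    rw [e, norm_mul, Complex.norm_real, Real.norm_eq_abs]
    have := hF.1 m0
    nlinarith [norm_nonneg (A p)]
  -- step 2
  have h2 : (∑ p ∈ I, ‖A p‖) ^ 2 ≤ I.card * ∑ p ∈ I, ‖A p‖ ^ 2 := sq_sum_le_card_mul_sum_sq
  -- step 3
  have h3 : ((∑ p ∈ I, ‖A p‖ ^ 2 : ℝ) : ℂ) = ∑ p ∈ PA d t a R0 N1 N, z p.1 * (starRingEnd ℂ) (z p.2) := by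
    have e1 : ∑ p ∈ PA d t a R0 N1 N, z p.1 * (starRingEnd ℂ) (z p.2)
        = ∑ m ∈ G, ∑ m' ∈ G.filter (fun m' => κ m = κ m'), z m * (starRingEnd ℂ) (z m') := by
      unfold PA
      rw [sum_filter, sum_product]
      exact sum_congr rfl fun m _ => (sum_filter _ _).symm
    rw [e1, ← sum_fiberwise_of_maps_to (s := G) (t := I) (g := κ) (fun m hm => mem_image_of_mem _ hm)]
    push_cast
    apply sum_congr rfl
    intro p _
    have e2 : ∑ m ∈ G.filter (fun m => κ m = p), ∑ m' ∈ G.filter (fun m' => κ m = κ m'), z m * (starRingEnd ℂ) (z m')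
        = ∑ m ∈ G.filter (fun m => κ m = p), ∑ m' ∈ G.filter (fun m' => κ m' = p), z m * (starRingEnd ℂ) (z m') := by
      apply sum_congr rfl
      intro m hm
      rw [mem_filter] at hm
      rw [hm.2]
      apply sum_congr _ fun _ _ => rfl
      ext m'
      rw [mem_filter, mem_filter]
      constructor
      · rintro ⟨a, b⟩; exact ⟨a, b.symm⟩
      · rintro ⟨a, b⟩; exact ⟨a, b.symm⟩
    rw [e2, ← sum_mul_sum, ← map_sum]
    rw [← Complex.ofReal_pow, ← Complex.normSq_eq_norm_sq, Complex.mul_conj]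
  -- step 4
  set D : ℂ := ∑ p ∈ (PA d t a R0 N1 N).filter (fun p => p.1 < p.2), z p.1 * (starRingEnd ℂ) (z p.2) with hD
  have h4 : ∑ p ∈ PA d t a R0 N1 N, z p.1 * (starRingEnd ℂ) (z p.2)
      = ∑ p ∈ (PA d t a R0 N1 N).filter (fun p => p.1 = p.2), z p.1 * (starRingEnd ℂ) (z p.2)
        + (D + (starRingEnd ℂ) D) := by
    rw [← sum_filter_add_sum_filter_not (PA d t a R0 N1 N) (fun p => p.1 = p.2)]
    congr 1
    rw [← sum_filter_add_sum_filter_not ((PA d t a R0 N1 N).filter fun p => ¬ p.1 = p.2) (fun p => p.1 < p.2)]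
    congr 1
    · rw [hD, filter_filter]
      apply sum_congr _ fun _ _ => rfl
      apply filter_congr
      intro p _
      omega
    · rw [hD, map_sum, filter_filter]
      refine sum_bij' (fun p _ => (p.2, p.1)) (fun p _ => (p.2, p.1)) ?_ ?_ ?_ ?_ ?_
      · intro p hp
        rw [mem_filter, mem_PA] at hp ⊢
        exact ⟨⟨⟨hp.1.1.2, hp.1.1.1⟩, hp.1.2.symm⟩, by dsimp only; omega⟩
      · intro p hp
        rw [mem_filter, mem_PA] at hp ⊢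
        refine ⟨⟨⟨hp.1.1.2, hp.1.1.1⟩, hp.1.2.symm⟩, ?_⟩
        dsimp only
        have := hp.2
        omega
      · intro p _; rfl
      · intro p _; rfl
      · intro p _
        dsimp only
        rw [map_mul, Complex.conj_conj, mul_comm]
  have h5 : ‖∑ p ∈ (PA d t a R0 N1 N).filter (fun p => p.1 = p.2), z p.1 * (starRingEnd ℂ) (z p.2)‖ ≤ N := by
    refine (norm_sum_le _ _).trans ?_
    have h6 : ∀ p ∈ (PA d t a R0 N1 N).filter (fun p => p.1 = p.2), ‖z p.1 * (starRingEnd ℂ) (z p.2)‖ ≤ 1 := by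
      intro p _
      rw [norm_mul, RCLike.norm_conj]
      have a := hz1 p.1
      have b := hz1 p.2
      nlinarith [norm_nonneg (z p.1), norm_nonneg (z p.2)]
    refine (sum_le_sum h6).trans ?_
    rw [sum_const, nsmul_eq_mul, mul_one]
    have h7 : ((PA d t a R0 N1 N).filter (fun p => p.1 = p.2)) ⊆ (Icc 1 N).image fun m => (m, m) := by
      intro p hp
      rw [mem_filter, mem_PA, mem_GA] at hp
      rw [mem_image]
      refine ⟨p.1, ?_, ?_⟩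
      · rw [mem_Icc]; have := hp.1.1.1.1; omega
      · ext
        · rfl
        · exact hp.2
    have h8 := (card_le_card h7).trans card_image_le
    rw [Nat.card_Icc, Nat.add_sub_cancel] at h8
    exact_mod_cast h8
  have h6 : ‖D‖ ≤ 2 ^ t * ∑ h ∈ Icc 1 ⌊R * 2 ^ t / 3 ^ a⌋₊, β h := by
    rw [hD, upper_pairsD hd2 t a (R := R) (by linarith), mul_sum]
    refine (norm_sum_le _ _).trans (sum_le_sum fun h hh => ?_)
    rw [mem_Icc] at hh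
    have hh2 : (h : ℝ) ≤ R * 2 ^ t / 3 ^ a := (Nat.le_floor_iff (by positivity)).1 hh.2
    exact pr_sum t a R0 N1 N h (hz h hh.1 hh2) (hβ h)
  have h7 : ∑ p ∈ I, ‖A p‖ ^ 2 ≤ N + 2 * (2 ^ t * ∑ h ∈ Icc 1 ⌊R * 2 ^ t / 3 ^ a⌋₊, β h) := by
    have h8 : ‖((∑ p ∈ I, ‖A p‖ ^ 2 : ℝ) : ℂ)‖ = ∑ p ∈ I, ‖A p‖ ^ 2 := by
      rw [Complex.norm_real, Real.norm_eq_abs, abs_of_nonneg (sum_nonneg fun _ _ => by positivity)]
    rw [← h8, h3, h4]
    refine (norm_add_le _ _).trans ?_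
    have h9 := norm_add_le D ((starRingEnd ℂ) D)
    rw [RCLike.norm_conj] at h9
    linarith
  calc _ ≤ (∑ p ∈ I, ‖A p‖) ^ 2 := pow_le_pow_left₀ (norm_nonneg _) h1 2
    _ ≤ I.card * ∑ p ∈ I, ‖A p‖ ^ 2 := h2
    _ ≤ _ := mul_le_mul (image_cardD hd2 t a hR0 hRR N1 N) h7 (sum_nonneg fun _ _ => by positivity) (by positivity)

end Pool.Agent.Helper82K9.PM
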