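import Pool.Agent.Helper82K9.PM1

/-! The master inequality for the `3x+d` maps, `d` any odd number. -/

set_option autoImplicit false

namespace Pool.Agent.Helper82K9.PM

open Finset Pool.Agent.Y965.PS Pool.Agent.Y55.DS

variable {d : ℤ}

theorem one_classD (hd2 : d % 2 = 1) (u a : ℕ) (ha : 2 * u ≤ a) (ha' : a ≤ 3 * u) {R0 R η : ℝ} (hR0 : 0 ≤ R0)
    (hRR : 2 * (d.natAbs * R0) + 1 ≤ R) (hR : 0 ≤ R) (hη : 0 ≤ η)
    (N : ℕ) (hN0 : 0 < N)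
    (hRN : R * (32 / 9) ^ u ≤ N) {F : ℤ → ℝ} (hF : Sync d F) {z : ℕ → ℂ} (hz1 : ∀ m, ‖z m‖ ≤ 1) {β : ℕ → ℝ}
    (hβ : ∀ h, 0 ≤ β h)
    (hz : ∀ h : ℕ, 1 ≤ h → (h : ℝ) ≤ R * (32 / 9) ^ u → ∀ m0 J : ℕ, (∀ j < J, m0 + 2 ^ (5 * u) * j + h ≤ N) →
      ‖∑ j ∈ range J, z (m0 + 2 ^ (5 * u) * j) * (starRingEnd ℂ) (z (m0 + 2 ^ (5 * u) * j + h))‖ ≤ β h)
    (hs : 2 ^ (5 * u) * ∑ h ∈ Icc 1 ⌊R * 2 ^ (5 * u) / 3 ^ a⌋₊, β h ≤ η * N * (R * 2 ^ (5 * u) / 3 ^ a)) :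
    ‖∑ m ∈ GA d (5 * u) a R0 0 N, (F m : ℂ) * z m‖ ≤ N * Real.sqrt ((27 / 32) ^ u + R / N + 4 * η * R) := by
  have h12 : (0 : ℝ) < 9 ^ u := by positivity
  have hNR : (0 : ℝ) < N := by exact_mod_cast hN0
  have h10 : (3 : ℝ) ^ (2 * u) = 9 ^ u := by rw [pow_mul]; norm_num
  have h11 : (2 : ℝ) ^ (5 * u) = 32 ^ u := by rw [pow_mul]; norm_num
  have h27 : (3 : ℝ) ^ (3 * u) = 27 ^ u := by rw [pow_mul]; norm_num
  have hw1 : (3 : ℝ) ^ a / 2 ^ (5 * u) ≤ (27 / 32) ^ u := by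
    rw [div_pow, h11, ← h27]
    have : (3 : ℝ) ^ a ≤ 3 ^ (3 * u) := pow_le_pow_right₀ (by norm_num) ha'
    gcongr
  have hw2 : R * 2 ^ (5 * u) / 3 ^ a ≤ R * (32 / 9) ^ u := by
    rw [div_pow, h11, ← mul_div_assoc, ← h10]
    have : (3 : ℝ) ^ (2 * u) ≤ 3 ^ a := pow_le_pow_right₀ (by norm_num) ha
    gcongr
  have hw0 : 0 ≤ R * 2 ^ (5 * u) / 3 ^ a := by positivity
  have key := dispD hd2 (5 * u) a hR0 hRR 0 N hF hz1 hβ (fun h h1 h2 m0 J _ h3 => hz h h1 (h2.trans hw2) m0 J h3)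
  set w : ℝ := 3 ^ a / 2 ^ (5 * u) with hw
  set v : ℝ := R * 2 ^ (5 * u) / 3 ^ a with hv
  have hwv : w * v = R := by rw [hw, hv]; field_simp
  have hww : 0 < w := by rw [hw]; positivity
  have hvN : v ≤ N := hw2.trans hRN
  have h1 : ‖∑ m ∈ GA d (5 * u) a R0 0 N, (F m : ℂ) * z m‖ ^ 2 ≤ (N : ℝ) ^ 2 * ((27 / 32) ^ u + R / N + 4 * η * R) := by
    refine key.trans ?_
    have e1 : (N * w + R) * (N + 2 * (2 ^ (5 * u) * ∑ h ∈ Icc 1 ⌊v⌋₊, β h)) ≤ (N * w + R) * (N + 2 * (η * N * v)) := by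
      apply mul_le_mul_of_nonneg_left _ (by positivity)
      linarith
    refine e1.trans ?_
    have e2 : (N * w + R) * (N + 2 * (η * N * v)) = (N : ℝ) ^ 2 * w + N * R + 2 * η * N ^ 2 * (w * v) + 2 * η * R * N * v := by ring
    rw [e2, hwv]
    have e3 : (N : ℝ) ^ 2 * ((27 / 32) ^ u + R / N + 4 * η * R) = (N : ℝ) ^ 2 * (27 / 32) ^ u + N * R + 2 * η * N ^ 2 * R
        + 2 * η * R * N * N := by
      field_simp; ring
    rw [e3]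
    have e4 : (N : ℝ) ^ 2 * w ≤ (N : ℝ) ^ 2 * (27 / 32) ^ u := mul_le_mul_of_nonneg_left hw1 (by positivity)
    have e5 : 2 * η * R * N * v ≤ 2 * η * R * N * N := mul_le_mul_of_nonneg_left hvN (by positivity)
    linarith
  have h2 : 0 ≤ (27 / 32) ^ u + R / N + 4 * η * R := by positivity
  refine le_of_sq_le_sq ?_ (by positivity)
  rw [mul_pow, Real.sq_sqrt h2]
  exact h1
where
  le_of_sq_le_sq {x y : ℝ} (h : x ^ 2 ≤ y ^ 2) (hy : 0 ≤ y) : x ≤ y := by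
    exact le_of_sq_le_sq' h hy
  le_of_sq_le_sq' {x y : ℝ} (h : x ^ 2 ≤ y ^ 2) (hy : 0 ≤ y) : x ≤ y := by
    by_contra hc
    push Not at hc
    nlinarith

open Classical in
/-- THE MASTER INEQUALITY -/
theorem masterD (hd2 : d % 2 = 1) (u : ℕ) {R0 R η : ℝ} (hR0 : 0 < R0) (hRR : 2 * (d.natAbs * R0) + 1 ≤ R)
    (hR : 0 < R) (hη : 0 ≤ η) (N : ℕ) (hN : 2 ^ (5 * u) ≤ N)
    (hRN : R * (32 / 9) ^ u ≤ N) {F : ℤ → ℝ} (hF : Sync d F) {z : ℕ → ℂ} (hz1 : ∀ m, ‖z m‖ ≤ 1) {β : ℕ → ℝ}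
    (hβ : ∀ h, 0 ≤ β h)
    (hz : ∀ h : ℕ, 1 ≤ h → (h : ℝ) ≤ R * (32 / 9) ^ u → ∀ m0 J : ℕ, (∀ j < J, m0 + 2 ^ (5 * u) * j + h ≤ N) →
      ‖∑ j ∈ range J, z (m0 + 2 ^ (5 * u) * j) * (starRingEnd ℂ) (z (m0 + 2 ^ (5 * u) * j + h))‖ ≤ β h)
    (hs : ∀ a, 2 * u ≤ a → a ≤ 3 * u →
      2 ^ (5 * u) * ∑ h ∈ Icc 1 ⌊R * 2 ^ (5 * u) / 3 ^ a⌋₊, β h ≤ η * N * (R * 2 ^ (5 * u) / 3 ^ a)) :
    ‖∑ m ∈ Icc 1 N, (F m : ℂ) * z m‖ ≤ 2 * N * (2 * (3125 / 3456) ^ u + 5 * u / (4 * R0))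
      + (u + 1) * (N * Real.sqrt ((27 / 32) ^ u + R / N + 4 * η * R)) := by
  have hN0 : 0 < N := lt_of_lt_of_le (by positivity) hN
  have hb : ∀ m : ℕ, ‖(F m : ℂ) * z m‖ ≤ 1 := by
    intro m
    rw [norm_mul, Complex.norm_real, Real.norm_eq_abs]
    have h1 := hF.1 m
    have h2 := hz1 m
    nlinarith [norm_nonneg (z m), abs_nonneg (F m)]
  rw [← sum_filter_add_sum_filter_not (Icc 1 N) (fun m : ℕ => ¬ Good d u R0 (m : ℤ))]
  refine (norm_add_le _ _).trans (add_le_add ?_ ?_)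
  · refine (norm_sum_le _ _).trans ((sum_le_sum fun m _ => hb m).trans ?_)
    rw [sum_const, nsmul_eq_mul, mul_one]
    exact bad_count u hR0 N hN
  · have h1 : ((Icc 1 N).filter fun m : ℕ => ¬ ¬ Good d u R0 (m : ℤ)) = (Icc (2 * u) (3 * u)).biUnion fun a => GA d (5 * u) a R0 0 N := by
      ext m
      rw [mem_filter, mem_biUnion, not_not, mem_Icc]
      constructor
      · rintro ⟨⟨h1, h2⟩, h3, h4, h5⟩
        refine ⟨ac d (5 * u) m, mem_Icc.2 ⟨h3, h4⟩, ?_⟩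
        rw [mem_GA]
        exact ⟨⟨by omega, h2⟩, rfl, h5⟩
      · rintro ⟨a, ha, hm⟩
        rw [mem_GA] at hm
        rw [mem_Icc] at ha
        refine ⟨⟨by omega, hm.1.2⟩, ?_⟩
        unfold Good
        rw [hm.2.1]
        exact ⟨ha.1, ha.2, hm.2.2⟩
    rw [h1, sum_biUnion]
    · refine (norm_sum_le _ _).trans ?_
      have h2 : ∀ a ∈ Icc (2 * u) (3 * u), ‖∑ m ∈ GA d (5 * u) a R0 0 N, (F m : ℂ) * z m‖ ≤
          N * Real.sqrt ((27 / 32) ^ u + R / N + 4 * η * R) := by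
        intro a ha
        rw [mem_Icc] at ha
        exact one_classD hd2 u a ha.1 ha.2 hR0.le hRR hR.le hη N hN0 hRN hF hz1 hβ hz (hs a ha.1 ha.2)
      refine (sum_le_sum h2).trans ?_
      rw [sum_const, Nat.card_Icc, nsmul_eq_mul]
      have h3 : 3 * u + 1 - 2 * u = u + 1 := by omega
      rw [h3]
      push_cast
      exact le_rfl
    · intro a _ b _ hab
      rw [Function.onFun, Finset.disjoint_left]
      intro m hm hm'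
      rw [mem_GA] at hm hm'
      exact hab (hm.2.1.symm.trans hm'.2.1)

theorem bound_KD (hd2 : d % 2 = 1) {E K : ℕ} {lam : ℝ} (hl0 : 0 < lam) (hl1 : lam < 1)
    (hE1 : (3125 / 3456 : ℝ) ^ E ≤ lam ^ 4) (hE2 : (27 / 32 : ℝ) ^ E ≤ lam ^ 4) {N : ℕ}
    (hN : 2 ^ (5 * (E * K)) ≤ N) (hRN : ((32 / 9) ^ E / lam ^ 4) ^ K ≤ (N : ℝ)) (hR : (1 / lam ^ 4) ^ K / (N : ℝ) ≤ lam ^ (4 * K))
    {C1 : ℝ} (hC1 : 0 ≤ C1) {F : ℤ → ℝ} (hF : Sync d F) {z : ℕ → ℂ} (hz1 : ∀ m, ‖z m‖ ≤ 1) {β : ℕ → ℝ}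
    (hβ : ∀ h, 0 ≤ β h)
    (hz : ∀ h : ℕ, 1 ≤ h → (h : ℝ) ≤ ((32 / 9) ^ E / lam ^ 4) ^ K → ∀ m0 J : ℕ,
      (∀ j < J, m0 + 2 ^ (5 * (E * K)) * j + h ≤ N) →
      ‖∑ j ∈ range J, z (m0 + 2 ^ (5 * (E * K)) * j) * (starRingEnd ℂ) (z (m0 + 2 ^ (5 * (E * K)) * j + h))‖ ≤ β h)
    (hs : ∀ X : ℝ, (32 / 27) ^ (E * K) ≤ X → X ≤ ((32 / 9) ^ E / lam ^ 4) ^ K →
      2 ^ (5 * (E * K)) * ∑ h ∈ Icc 1 ⌊X⌋₊, β h ≤ (C1 * lam ^ (8 * K)) * N * X) :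
    ‖∑ m ∈ Icc 1 N, (F m : ℂ) * z m‖ ≤
      ((4 + (2 * d.natAbs + 1) + (2 * d.natAbs + 1) * (5 * E / 2) + (E + 1) * Real.sqrt (2 + 4 * C1)) / (1 - lam)) * N * lam ^ K := by
  set R : ℝ := (1 / lam ^ 4) ^ K with hRdef
  have hl4 : 0 < lam ^ 4 := by positivity
  have hR0 : 0 < R := by positivity
  have hl41 : lam ^ 4 ≤ 1 := pow_le_one₀ hl0.le hl1.le
  have hR1 : 1 ≤ R := by
    rw [hRdef]; apply one_le_pow₀
    rw [le_div_iff₀ hl4, one_mul]; exact hl41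
  have hRl : R * lam ^ (4 * K) = 1 := by
    rw [hRdef, pow_mul, ← mul_pow, one_div, inv_mul_cancel₀ hl4.ne', one_pow]
  have hX : R * (32 / 9) ^ (E * K) = ((32 / 9) ^ E / lam ^ 4) ^ K := by
    rw [hRdef, pow_mul (32 / 9 : ℝ), ← mul_pow]; congr 1; ring
  have h11 : (2 : ℝ) ^ (5 * (E * K)) = 32 ^ (E * K) := by rw [pow_mul 2 5]; norm_num
  have h27 : (3 : ℝ) ^ (3 * (E * K)) = 27 ^ (E * K) := by rw [pow_mul 3 3]; norm_num
  have h9 : (3 : ℝ) ^ (2 * (E * K)) = 9 ^ (E * K) := by rw [pow_mul 3 2]; norm_num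
  have hK1 : lam ^ (8 * K) ≤ 1 := pow_le_one₀ hl0.le hl1.le
  have hNn : (0 : ℝ) ≤ N := Nat.cast_nonneg _
  have hDn : (0 : ℝ) ≤ d.natAbs := Nat.cast_nonneg _
  have hEn : (0 : ℝ) ≤ E := Nat.cast_nonneg _
  have hl1' : 0 < 1 - lam := by linarith
  have hsqn : 0 ≤ Real.sqrt (2 + 4 * C1) := Real.sqrt_nonneg _
  by_cases hbig : (2 * d.natAbs + 1 : ℝ) ≤ R
  swap
  · -- small parameter: the trivial bound
    push Not at hbig
    have t1 : ‖∑ m ∈ Icc 1 N, (F m : ℂ) * z m‖ ≤ N := by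
      refine (norm_sum_le _ _).trans ?_
      have t2 : ∀ m ∈ Icc 1 N, ‖(F (m : ℤ) : ℂ) * z m‖ ≤ 1 := by
        intro m _
        rw [norm_mul, Complex.norm_real, Real.norm_eq_abs]
        have h1 := hF.1 m
        have h2 := hz1 m
        nlinarith [norm_nonneg (z m), abs_nonneg (F m)]
      refine (sum_le_sum t2).trans ?_
      rw [sum_const, nsmul_eq_mul, mul_one, Nat.card_Icc, Nat.add_sub_cancel]
    have t3 : (1 : ℝ) ≤ (2 * d.natAbs + 1) * lam ^ K := by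
      calc (1 : ℝ) = R * lam ^ (4 * K) := hRl.symm
        _ ≤ (2 * d.natAbs + 1) * lam ^ K := by
          apply mul_le_mul hbig.le (pow_le_pow_of_le_one hl0.le hl1.le (by omega)) (by positivity) (by positivity)
    have t4 : (2 * d.natAbs + 1 : ℝ) ≤
        (4 + (2 * d.natAbs + 1) + (2 * d.natAbs + 1) * (5 * E / 2) + (E + 1) * Real.sqrt (2 + 4 * C1)) / (1 - lam) := by
      rw [le_div_iff₀ hl1']
      have i1 : 0 ≤ (2 * (d.natAbs : ℝ) + 1) * (5 * E / 2) := by positivity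
      have i2 : 0 ≤ ((E : ℝ) + 1) * Real.sqrt (2 + 4 * C1) := by positivity
      nlinarith
    calc ‖∑ m ∈ Icc 1 N, (F m : ℂ) * z m‖ ≤ N * 1 := by rw [mul_one]; exact t1
      _ ≤ N * ((2 * d.natAbs + 1) * lam ^ K) := by gcongr
      _ ≤ N * (((4 + (2 * d.natAbs + 1) + (2 * d.natAbs + 1) * (5 * E / 2) + (E + 1) * Real.sqrt (2 + 4 * C1)) / (1 - lam)) * lam ^ K) := by
        gcongr
      _ = _ := by ring
  have hD1 : (0 : ℝ) < 2 * d.natAbs + 1 := by positivity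
  have hRR : 2 * ((d.natAbs : ℝ) * (R / (2 * d.natAbs + 1))) + 1 ≤ R := by
    have e1 : R - 2 * ((d.natAbs : ℝ) * (R / (2 * d.natAbs + 1))) = R / (2 * d.natAbs + 1) := by
      field_simp
      ring
    have e2 : 1 ≤ R / (2 * d.natAbs + 1) := by rw [le_div_iff₀ hD1, one_mul]; exact hbig
    linarith
  have key := masterD hd2 (E * K) (R0 := R / (2 * d.natAbs + 1)) (by positivity) hRR hR0 (η := C1 * lam ^ (8 * K)) (by positivity) N hN (by rw [hX]; exact hRN) hF hz1 hβ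
    (by rw [hX]; exact hz) (by
      intro a ha1 ha2
      apply hs
      · have e1 : (32 / 27 : ℝ) ^ (E * K) = 2 ^ (5 * (E * K)) / 3 ^ (3 * (E * K)) := by rw [div_pow, h11, h27]
        rw [e1]
        have e2 : (3 : ℝ) ^ a ≤ 3 ^ (3 * (E * K)) := pow_le_pow_right₀ (by norm_num) ha2
        calc (2 : ℝ) ^ (5 * (E * K)) / 3 ^ (3 * (E * K)) ≤ 2 ^ (5 * (E * K)) / 3 ^ a := by gcongr
          _ = 1 * 2 ^ (5 * (E * K)) / 3 ^ a := by rw [one_mul]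
          _ ≤ R * 2 ^ (5 * (E * K)) / 3 ^ a := by gcongr
      · rw [← hX]
        have e1 : (32 / 9 : ℝ) ^ (E * K) = 2 ^ (5 * (E * K)) / 3 ^ (2 * (E * K)) := by rw [div_pow, h11, h9]
        rw [e1, ← mul_div_assoc]
        have e2 : (3 : ℝ) ^ (2 * (E * K)) ≤ 3 ^ a := pow_le_pow_right₀ (by norm_num) ha1
        gcongr)
  refine key.trans ?_
  have hN0 : (0 : ℝ) ≤ N := Nat.cast_nonneg _
  -- the square root
  have hs1 : Real.sqrt ((27 / 32) ^ (E * K) + R / N + 4 * (C1 * lam ^ (8 * K)) * R) ≤ Real.sqrt (2 + 4 * C1) * lam ^ (2 * K) := by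
    have e0 : lam ^ (2 * K) = Real.sqrt (lam ^ (4 * K)) := by
      rw [show lam ^ (4 * K) = (lam ^ (2 * K)) ^ 2 by rw [← pow_mul]; congr 1; ring, Real.sqrt_sq (by positivity)]
    rw [e0, ← Real.sqrt_mul (by positivity)]
    apply Real.sqrt_le_sqrt
    have e1 : (27 / 32 : ℝ) ^ (E * K) ≤ lam ^ (4 * K) := by
      rw [pow_mul, pow_mul]; exact pow_le_pow_left₀ (by positivity) hE2 K
    have e2 : 4 * (C1 * lam ^ (8 * K)) * R = 4 * C1 * lam ^ (4 * K) := by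
      have : lam ^ (8 * K) = lam ^ (4 * K) * lam ^ (4 * K) := by rw [← pow_add]; congr 1; ring
      rw [this]
      calc 4 * (C1 * (lam ^ (4 * K) * lam ^ (4 * K))) * R = 4 * C1 * lam ^ (4 * K) * (R * lam ^ (4 * K)) := by ring
        _ = _ := by rw [hRl, mul_one]
    rw [e2]
    have : R / N ≤ lam ^ (4 * K) := hR
    nlinarith
  have hs2 : (3125 / 3456 : ℝ) ^ (E * K) ≤ lam ^ (2 * K) := by
    have e1 : (3125 / 3456 : ℝ) ^ (E * K) ≤ lam ^ (4 * K) := by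
      rw [pow_mul, pow_mul]; exact pow_le_pow_left₀ (by positivity) hE1 K
    exact e1.trans (pow_le_pow_of_le_one hl0.le hl1.le (by omega))
  have hs3 : 5 * ((E * K : ℕ) : ℝ) / (4 * (R / (2 * d.natAbs + 1))) ≤ (2 * d.natAbs + 1) * (5 * E / 4) * K * lam ^ (2 * K) := by
    have e1 : 1 / R = lam ^ (4 * K) := by
      rw [div_eq_iff hR0.ne', mul_comm]; exact hRl.symm
    have e2 : 5 * ((E * K : ℕ) : ℝ) / (4 * (R / (2 * d.natAbs + 1))) = (2 * d.natAbs + 1) * (5 * E / 4) * K * (1 / R) := by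
      push_cast; field_simp
    rw [e2, e1]
    apply mul_le_mul_of_nonneg_left _ (by positivity)
    exact pow_le_pow_of_le_one hl0.le hl1.le (by omega)
  have hKK : ((K : ℝ) + 1) * lam ^ (2 * K) ≤ 1 / (1 - lam) * lam ^ K := by
    have := geo hl0 hl1 K
    calc ((K : ℝ) + 1) * lam ^ (2 * K) = (((K : ℝ) + 1) * lam ^ K) * lam ^ K := by rw [two_mul, pow_add]; ring
      _ ≤ 1 / (1 - lam) * lam ^ K := mul_le_mul_of_nonneg_right this (by positivity)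
  have hl2K : 0 ≤ lam ^ (2 * K) := by positivity
  calc 2 * (N : ℝ) * (2 * (3125 / 3456) ^ (E * K) + 5 * ((E * K : ℕ) : ℝ) / (4 * (R / (2 * d.natAbs + 1))))
      + (((E * K : ℕ) : ℝ) + 1) * (N * Real.sqrt ((27 / 32) ^ (E * K) + R / N + 4 * (C1 * lam ^ (8 * K)) * R))
      ≤ 2 * (N : ℝ) * (2 * lam ^ (2 * K) + (2 * d.natAbs + 1) * (5 * E / 4) * K * lam ^ (2 * K))
      + (((E * K : ℕ) : ℝ) + 1) * (N * (Real.sqrt (2 + 4 * C1) * lam ^ (2 * K))) := by gcongr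
    _ = N * lam ^ (2 * K) * (4 + (2 * d.natAbs + 1) * (5 * E / 2) * K + (E * K + 1) * Real.sqrt (2 + 4 * C1)) := by push_cast; ring
    _ ≤ N * lam ^ (2 * K) * ((4 + (2 * d.natAbs + 1) + (2 * d.natAbs + 1) * (5 * E / 2) + (E + 1) * Real.sqrt (2 + 4 * C1)) * (K + 1)) := by
        apply mul_le_mul_of_nonneg_left _ (by positivity)
        have hk0 : (0 : ℝ) ≤ K := Nat.cast_nonneg _
        have i1 : 0 ≤ Real.sqrt (2 + 4 * C1) * K := by positivity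
        have i2 : 0 ≤ Real.sqrt (2 + 4 * C1) * E := by positivity
        have i3 : 0 ≤ (2 * (d.natAbs : ℝ) + 1) * (5 * E / 2) := by positivity
        have i4 : 0 ≤ (2 * (d.natAbs : ℝ) + 1) * K := by positivity
        nlinarith
    _ = (4 + (2 * d.natAbs + 1) + (2 * d.natAbs + 1) * (5 * E / 2) + (E + 1) * Real.sqrt (2 + 4 * C1)) * N * (((K : ℝ) + 1) * lam ^ (2 * K)) := by ring
    _ ≤ (4 + (2 * d.natAbs + 1) + (2 * d.natAbs + 1) * (5 * E / 2) + (E + 1) * Real.sqrt (2 + 4 * C1)) * N * (1 / (1 - lam) * lam ^ K) := by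
        apply mul_le_mul_of_nonneg_left hKK
        positivity
    _ = _ := by ring

end Pool.Agent.Helper82K9.PM
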