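import Pool.Agent.Helper82K9.PM2
import Pool.Agent.Y55.DS.Disc2

/-! The Weyl inequality and the discrepancy for functions which are constant on coalescing trajectories
of the `3x+d` map. -/

set_option autoImplicit false

namespace Pool.Agent.Helper82K9.PM

open Finset Pool.Agent.Y965.PS Pool.Agent.Y55.DS Pool.Agent.H373R2.NB Polynomial
open Pool.Agent.Helper602.MK (ee)
open Pool.Agent.Helper602.MK.N_J5b (ee_add ee_zero ee_conj norm_ee)

theorem weyl_syncD {d : ℤ} (hd2 : d % 2 = 1) {k : ℕ} (hk : 1 ≤ k) {η : ℝ} (hη : 0 < η) : ∃ C c : ℝ, 0 ≤ C ∧ 0 < c ∧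
    ∀ F : ℤ → ℝ, Sync d F → ∀ N : ℕ, 1 ≤ N → ∀ (α : ℝ) (φ : ℕ → ℝ), Ph (k + 1) α φ →
    (∀ l : ℕ, 1 ≤ l → (l : ℝ) ≤ (N : ℝ) ^ η → ∀ a : ℤ, (N : ℝ) ^ (η - k) ≤ |l * α - a|) →
    ‖∑ m ∈ Icc 1 N, (F m : ℂ) * ee (φ m)‖ ≤ C * (N : ℝ) ^ (1 - c) := by
  obtain ⟨c₁, m₁, hc₁, hIW⟩ := IW_all k hk
  set lam : ℝ := 1 / 2 with hlam
  have hl0 : 0 < lam := by rw [hlam]; norm_num
  have hl1 : lam < 1 := by rw [hlam]; norm_num
  have hl4 : 0 < lam ^ 4 := by positivity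
  have hl41 : lam ^ 4 ≤ 1 := pow_le_one₀ hl0.le hl1.le
  obtain ⟨E1, hE1⟩ := exists_pow_lt_of_lt_one hl4 (show (3125 / 3456 : ℝ) < 1 by norm_num)
  obtain ⟨E2, hE2⟩ := exists_pow_lt_of_lt_one hl4 (show (27 / 32 : ℝ) < 1 by norm_num)
  set E := E1 + E2 with hE
  have hEa : (3125 / 3456 : ℝ) ^ E ≤ lam ^ 4 :=
    (pow_le_pow_of_le_one (by norm_num) (by norm_num) (by omega)).trans hE1.le
  have hEb : (27 / 32 : ℝ) ^ E ≤ lam ^ 4 :=
    (pow_le_pow_of_le_one (by norm_num) (by norm_num) (by omega)).trans hE2.le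
  set A : ℝ := (32 / 9) ^ E / lam ^ 4 with hA
  have hA1 : 1 ≤ A := by
    rw [hA, le_div_iff₀ hl4, one_mul]
    exact hl41.trans (one_le_pow₀ (by norm_num))
  have hA0 : 0 < A := by linarith
  obtain ⟨v, hv⟩ : ∃ v : ℝ, v = 2 ^ 8 := ⟨_, rfl⟩
  have hv1 : 1 ≤ v := by rw [hv]; norm_num
  set G : ℝ := (c₁ + 1) * (v ^ (m₁ + k) * 2 ^ (5 * E * k) * A) with hG
  have hc₁R : (1 : ℝ) ≤ c₁ := by exact_mod_cast hc₁
  have hG1 : 1 ≤ v ^ (m₁ + k) * 2 ^ (5 * E * k) * A :=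
    one_le_mul_of_one_le_of_one_le (one_le_mul_of_one_le_of_one_le (one_le_pow₀ hv1) (one_le_pow₀ (by norm_num))) hA1
  have hG2 : 2 ≤ G := by rw [hG]; nlinarith
  have hG0 : 0 < G := by linarith
  set B2 : ℝ := 2 ^ (5 * E) * A * v with hB2
  have hB21 : 1 ≤ B2 := by
    rw [hB2]
    exact one_le_mul_of_one_le_of_one_le (one_le_mul_of_one_le_of_one_le (one_le_pow₀ (by norm_num)) hA1) hv1
  set B : ℝ := G ^ (1 / η) * B2 with hB
  have hGη : 1 < G ^ (1 / η) := Real.one_lt_rpow (by linarith) (by positivity)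
  have hB1 : 1 < B := by rw [hB]; nlinarith
  set C0 : ℝ := (4 + (2 * d.natAbs + 1) + (2 * d.natAbs + 1) * (5 * E / 2) + (E + 1) * Real.sqrt (2 + 4 * 2)) / (1 - lam) with hC0
  have hC01 : 1 ≤ C0 := by
    rw [hC0, le_div_iff₀ (by linarith)]
    generalize hsq : Real.sqrt (2 + 4 * 2) = sq
    have hsq0 : 0 ≤ sq := by rw [← hsq]; exact Real.sqrt_nonneg _
    have h1 : 0 ≤ ((E : ℝ) + 1) * sq := by positivity
    have h2 : (0 : ℝ) ≤ (2 * d.natAbs + 1) * (5 * E / 2) := by positivity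
    have h3 : (0 : ℝ) ≤ 2 * d.natAbs + 1 := by positivity
    linarith
  refine ⟨C0 / lam, -Real.log lam / Real.log B, by positivity,
    div_pos (neg_pos.2 (Real.log_neg hl0 hl1)) (Real.log_pos hB1), ?_⟩
  intro F hF N hN α φ hφ hα
  refine to_rpow hB1 hl0 hl1 (by linarith) hN fun K hK => ?_
  have hNR : (1 : ℝ) ≤ N := by exact_mod_cast hN
  have hN0 : (0 : ℝ) < N := by linarith
  rcases Nat.eq_zero_or_pos K with hK0 | hK0
  · -- the trivial case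
    subst hK0
    rw [pow_zero, mul_one]
    have h1 : ‖∑ m ∈ Icc 1 N, (F m : ℂ) * ee (φ m)‖ ≤ N := by
      refine (norm_sum_le _ _).trans ?_
      have h2 : ∀ m ∈ Icc 1 N, ‖(F m : ℂ) * ee (φ m)‖ ≤ 1 := by
        intro m _
        rw [norm_mul, Complex.norm_real, Real.norm_eq_abs, norm_ee, mul_one]
        exact hF.1 m
      refine (sum_le_sum h2).trans ?_
      simp
    exact h1.trans (le_mul_of_one_le_left hN0.le hC01)
  -- consequences of `B ^ K ≤ N`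
  have hBK : (G ^ (1 / η)) ^ K * B2 ^ K ≤ N := by rw [← mul_pow]; exact hK
  have hB2K : B2 ^ K ≤ N := by
    refine le_trans ?_ hBK
    exact le_mul_of_one_le_left (by positivity) (one_le_pow₀ hGη.le)
  have hGK : G ^ K ≤ (N : ℝ) ^ η := by
    have h1 : (G ^ (1 / η)) ^ K ≤ N := by
      refine le_trans ?_ hBK
      exact le_mul_of_one_le_right (by positivity) (one_le_pow₀ hB21)
    have h2 : ((G ^ (1 / η)) ^ K) ^ η ≤ (N : ℝ) ^ η := Real.rpow_le_rpow (by positivity) h1 hη.le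
    have h3 : ((G ^ (1 / η)) ^ K) ^ η = G ^ K := by
      rw [← Real.rpow_natCast, ← Real.rpow_mul hG0.le, ← Real.rpow_mul hG0.le, ← Real.rpow_natCast]
      congr 1
      field_simp
    rw [h3] at h2
    exact h2
  have hB2e : B2 ^ K = (2 ^ (5 * E)) ^ K * A ^ K * v ^ K := by rw [hB2, mul_pow, mul_pow]
  rw [hB2e] at hB2K
  have hv1K : 1 ≤ v ^ K := one_le_pow₀ hv1
  have h25K : (1 : ℝ) ≤ (2 ^ (5 * E)) ^ K := one_le_pow₀ (one_le_pow₀ (by norm_num))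
  have hAK : 1 ≤ A ^ K := one_le_pow₀ hA1
  have n1 : ((2 : ℝ) ^ (5 * E)) ^ K ≤ N := by
    refine le_trans ?_ hB2K
    rw [mul_assoc]
    exact le_mul_of_one_le_right (by positivity) (one_le_mul_of_one_le_of_one_le hAK hv1K)
  have n2 : A ^ K ≤ N := by
    refine le_trans ?_ hB2K
    calc A ^ K ≤ (2 ^ (5 * E)) ^ K * A ^ K := le_mul_of_one_le_left (by positivity) h25K
      _ ≤ _ := le_mul_of_one_le_right (by positivity) hv1K
  have n3 : v ^ K ≤ N := by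
    refine le_trans ?_ hB2K
    exact le_mul_of_one_le_left (by positivity) (one_le_mul_of_one_le_of_one_le h25K hAK)
  have hvl : v ^ K * lam ^ (8 * K) = 1 := by
    rw [pow_mul, ← mul_pow, hv, hlam]; norm_num
  have he5 : (2 : ℝ) ^ (5 * (E * K)) = (2 ^ (5 * E)) ^ K := by rw [← pow_mul]; congr 1; ring
  set u : ℝ := v ^ K with hu
  have hu1 : 1 ≤ u := hv1K
  have hu0 : 0 < u := by linarith
  set Jm : ℝ := N / 2 ^ (5 * (E * K)) + 1 with hJm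
  have hJm0 : 0 < Jm := by rw [hJm]; positivity
  have hJm2 : 2 ^ (5 * (E * K)) * Jm ≤ 2 * N := by
    rw [hJm, mul_add, mul_one, mul_div_cancel₀ _ (by positivity), he5]
    linarith
  have hGK2 : (c₁ + 1 : ℝ) * (u ^ (m₁ + k) * (2 ^ (5 * (E * K))) ^ k * A ^ K) ≤ G ^ K := by
    have e1 : G ^ K = (c₁ + 1) ^ K * ((v ^ (m₁ + k)) ^ K * (2 ^ (5 * E * k)) ^ K * A ^ K) := by
      rw [hG, mul_pow, mul_pow, mul_pow]
    have e2 : u ^ (m₁ + k) = (v ^ (m₁ + k)) ^ K := by rw [hu, ← pow_mul, ← pow_mul]; congr 1; ring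
    have e3 : ((2 : ℝ) ^ (5 * (E * K))) ^ k = (2 ^ (5 * E * k)) ^ K := by rw [← pow_mul, ← pow_mul]; congr 1; ring
    rw [e1, e2, e3]
    apply mul_le_mul_of_nonneg_right _ (by positivity)
    calc (c₁ + 1 : ℝ) = (c₁ + 1) ^ 1 := (pow_one _).symm
      _ ≤ (c₁ + 1) ^ K := pow_le_pow_right₀ (by linarith) hK0
  have hfin := hGK2.trans hGK
  -- the bound
  refine bound_KD hd2 hl0 hl1 hEa hEb (N := N) ?_ n2 ?_ (C1 := 2) (by norm_num) hF (z := fun m => ee (φ m))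
    (fun m => (norm_ee _).le) (β := fun _ => Jm / u) (fun _ => by positivity) ?_ ?_
  · have : (2 : ℝ) ^ (5 * (E * K)) ≤ N := by rw [he5]; exact n1
    exact_mod_cast this
  · rw [div_le_iff₀ hN0, mul_comm]
    have h1 : (1 / lam ^ 4) ^ K * lam ^ (4 * K) = 1 := by
      rw [pow_mul lam, ← mul_pow, one_div, inv_mul_cancel₀ hl4.ne', one_pow]
    have h3 : lam ^ (8 * K) = lam ^ (4 * K) * lam ^ (4 * K) := by rw [← pow_add]; congr 1; ring
    have h4 : 0 < lam ^ (4 * K) := by positivity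
    have h5 : (1 / lam ^ 4) ^ K = u * lam ^ (4 * K) := by
      have : (1 / lam ^ 4) ^ K * lam ^ (4 * K) = (u * lam ^ (4 * K)) * lam ^ (4 * K) := by
        rw [h1, mul_assoc, ← h3, hu]; exact hvl.symm
      exact mul_right_cancel₀ h4.ne' this
    rw [h5]
    exact mul_le_mul_of_nonneg_right n3 h4.le
  · intro h hh1 hh2 m0 J hJ
    have hJJ : (J : ℝ) ≤ Jm := by
      rcases Nat.eq_zero_or_pos J with h0 | h0
      · rw [h0]; simpa using hJm0.le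
      · have h1 := hJ (J - 1) (by omega)
        have h2 : 2 ^ (5 * (E * K)) * (J - 1) ≤ N := by omega
        have h3 : (2 : ℝ) ^ (5 * (E * K)) * ((J - 1 : ℕ) : ℝ) ≤ N := by exact_mod_cast h2
        rw [Nat.cast_sub h0, Nat.cast_one] at h3
        have h4 : (J : ℝ) - 1 ≤ N / 2 ^ (5 * (E * K)) := by
          rw [le_div_iff₀ (by positivity)]; linarith
        rw [hJm]; linarith
    have hum : 0 < u ^ m₁ := by positivity
    have huk : 1 ≤ u ^ k := one_le_pow₀ hu1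
    have hD0 : (1 : ℝ) ≤ (2 ^ (5 * (E * K))) ^ k := one_le_pow₀ (one_le_pow₀ (by norm_num))
    refine phase_corr (k := k) (c := c₁) (m := m₁) hIW hφ (D := 2 ^ (5 * (E * K))) (Nat.one_le_two_pow) hh1 hu1 hJm0
      (Y := (N : ℝ) ^ η) (Z := (N : ℝ) ^ (η - k)) ?_ ?_ hα m0 J hJJ
    · push_cast
      refine le_trans ?_ hfin
      have e1 : (c₁ : ℝ) * u ^ m₁ * ((2 ^ (5 * (E * K))) ^ k * h) ≤ c₁ * u ^ m₁ * ((2 ^ (5 * (E * K))) ^ k * A ^ K) := by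
        gcongr
      refine e1.trans ?_
      rw [pow_add]
      have e2 : (c₁ : ℝ) * u ^ m₁ * ((2 ^ (5 * (E * K))) ^ k * A ^ K) ≤ (c₁ + 1) * (u ^ m₁ * ((2 ^ (5 * (E * K))) ^ k * A ^ K)) := by
        rw [mul_assoc]
        apply mul_le_mul_of_nonneg_right (by linarith) (by positivity)
      refine e2.trans ?_
      apply mul_le_mul_of_nonneg_left _ (by positivity)
      have e3 : u ^ m₁ * u ^ k * (2 ^ (5 * (E * K))) ^ k * A ^ K = (u ^ m₁ * ((2 ^ (5 * (E * K))) ^ k * A ^ K)) * u ^ k := by ring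
      rw [e3]
      exact le_mul_of_one_le_right (by positivity) huk
    · -- the second condition
      have hNk : (N : ℝ) ^ (η - k) = (N : ℝ) ^ η / (N : ℝ) ^ k := by
        rw [Real.rpow_sub hN0, Real.rpow_natCast]
      rw [hNk, div_pow, div_div_eq_mul_div]
      have hJN : (N : ℝ) / 2 ^ (5 * (E * K)) ≤ Jm := by rw [hJm]; linarith
      have e1 : (c₁ : ℝ) * u ^ m₁ * u ^ k / Jm ^ k ≤ c₁ * u ^ m₁ * u ^ k / (N / 2 ^ (5 * (E * K))) ^ k := by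
        gcongr
      refine e1.trans_lt ?_
      rw [div_pow, div_div_eq_mul_div]
      apply div_lt_div_of_pos_right _ (by positivity)
      refine lt_of_lt_of_le ?_ hfin
      have e2 : (c₁ : ℝ) * u ^ m₁ * u ^ k * (2 ^ (5 * (E * K))) ^ k < (c₁ + 1) * (u ^ (m₁ + k) * (2 ^ (5 * (E * K))) ^ k * 1) := by
        rw [pow_add]
        have : 0 < u ^ m₁ * u ^ k * (2 ^ (5 * (E * K))) ^ k := by positivity
        linarith
      refine e2.trans_le ?_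
      gcongr
  · intro X hX1 hX2
    have hX0 : 0 ≤ X := le_trans (by positivity) hX1
    have hcard : ((Icc 1 ⌊X⌋₊).card : ℝ) ≤ X := by
      rw [Nat.card_Icc, Nat.add_sub_cancel]; exact Nat.floor_le hX0
    rw [sum_const, nsmul_eq_mul]
    have h1 : Jm / u = Jm * lam ^ (8 * K) := by
      rw [div_eq_iff hu0.ne', mul_assoc, mul_comm (lam ^ (8 * K)), hvl, mul_one]
    rw [h1]
    calc (2 : ℝ) ^ (5 * (E * K)) * (((Icc 1 ⌊X⌋₊).card : ℝ) * (Jm * lam ^ (8 * K)))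
        = (2 ^ (5 * (E * K)) * Jm) * lam ^ (8 * K) * ((Icc 1 ⌊X⌋₊).card : ℝ) := by ring
      _ ≤ (2 * N) * lam ^ (8 * K) * X := by gcongr
      _ = _ := by ring

/-- sums with the sawtooth function of a polynomial -/
theorem psi_polyD {d : ℤ} (hd2 : d % 2 = 1) {k : ℕ} (hk : 1 ≤ k) {α : ℝ} (hα : Dioph α) : ∃ C c : ℝ, 0 ≤ C ∧ 0 < c ∧ c < 1 ∧
    ∀ F : ℤ → ℝ, Sync d F → (∀ x, 0 ≤ F x) → ∀ P : ℝ[X], P.natDegree ≤ k + 1 → P.coeff (k + 1) = α → ∀ N : ℕ, 1 ≤ N →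
      |∑ n ∈ Icc 1 N, F n * psi (P.eval (n : ℝ))| ≤ C * (N : ℝ) ^ (1 - c) := by
  obtain ⟨η, hη0, hη1, N0, hN0, hmin⟩ := dioph_minor hk hα
  obtain ⟨C1, c1, hC1, hc1, hW⟩ := weyl_syncD hd2 hk hη0
  set c : ℝ := min (η / 2) (c1 / 2) with hc
  have hc0 : 0 < c := lt_min (by positivity) (by positivity)
  have hcη : c ≤ η / 2 := min_le_left _ _
  have hcc : c ≤ c1 / 2 := min_le_right _ _
  refine ⟨N0 + 5 + (2 + 2 / c1) * C1, c, by positivity, hc0, by linarith, ?_⟩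
  intro F hF hF0 P hP hPc N hN
  have hNR : (1 : ℝ) ≤ N := by exact_mod_cast hN
  have hN00 : (0 : ℝ) < N := by linarith
  have hp1 : (1 : ℝ) ≤ (N : ℝ) ^ (1 - c) := Real.one_le_rpow hNR (by linarith)
  have hpsi : ∀ x : ℝ, |psi x| ≤ 1 := by
    intro x
    unfold psi
    have h1 := Int.fract_nonneg x
    have h2 := (Int.fract_lt_one x).le
    rw [abs_le]; constructor <;> linarith
  rcases lt_or_ge N N0 with hsm | hbig
  · -- small `N`
    have h1 : |∑ n ∈ Icc 1 N, F n * psi (P.eval (n : ℝ))| ≤ N := by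
      refine (abs_sum_le_sum_abs _ _).trans ?_
      have h2 : ∀ n ∈ Icc 1 N, |F (n : ℕ) * psi (P.eval ((n : ℕ) : ℝ))| ≤ 1 := by
        intro n _
        rw [abs_mul]
        have a1 := hF.1 (n : ℕ)
        have a2 := hpsi (P.eval (n : ℝ))
        calc |F (n : ℕ)| * |psi (P.eval ((n : ℕ) : ℝ))| ≤ 1 * 1 := mul_le_mul a1 a2 (abs_nonneg _) zero_le_one
          _ = 1 := one_mul 1
      refine (sum_le_sum h2).trans ?_
      simp
    have h2 : (N : ℝ) ≤ N0 := by exact_mod_cast hsm.le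
    have h3 : (0 : ℝ) ≤ 5 + (2 + 2 / c1) * C1 := by positivity
    calc _ ≤ (N : ℝ) := h1
      _ ≤ N0 + 5 + (2 + 2 / c1) * C1 := by linarith
      _ ≤ _ := le_mul_of_one_le_right (by positivity) hp1
  set K := ⌈(N : ℝ) ^ η⌉₊ with hK
  have hNη : 1 ≤ (N : ℝ) ^ η := Real.one_le_rpow hNR hη0.le
  have hK1 : (N : ℝ) ^ η ≤ K := Nat.le_ceil _
  have hK2 : (K : ℝ) ≤ 2 * (N : ℝ) ^ η := by
    have := Nat.ceil_lt_add_one (by positivity : 0 ≤ (N : ℝ) ^ η)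
    linarith
  have hK3 : (1 : ℝ) ≤ K := hNη.trans hK1
  have hK4 : 1 ≤ K := by exact_mod_cast hK3
  set η' : ℝ := (N : ℝ) ^ (-(η / 2)) / 2 with hη'
  have hη'0 : 0 < η' := by positivity
  have hη'1 : η' < 1 := by
    have : (N : ℝ) ^ (-(η / 2)) ≤ 1 := Real.rpow_le_one_of_one_le_of_nonpos hNR (by linarith)
    rw [hη']; linarith
  have key := psi_sum (Icc 1 N) (F := fun m : ℕ => F m) (fun m => hF0 _) (fun m => (abs_le.1 (hF.1 _)).2)
    (fun m : ℕ => P.eval (m : ℝ)) hK4 hη'0 hη'1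
  have hcard : ((Icc 1 N).card : ℝ) = N := by rw [Nat.card_Icc, Nat.add_sub_cancel]
  rw [hcard] at key
  refine key.trans ?_
  have hP1 := Ph_real (k + 1) P hP
  rw [hPc] at hP1
  -- the exponential sums
  have hsums : ∀ j ∈ Icc 1 K, ‖∑ m ∈ Icc 1 N, (F (m : ℕ) : ℂ) * Pool.Agent.H469R2.NK.e (j * P.eval ((m : ℕ) : ℝ))‖
      ≤ C1 * (N : ℝ) ^ (1 - c1) := by
    intro j hj
    rw [mem_Icc] at hj
    have h1 := Ph_mul (k + 1) (j : ℝ) _ _ hP1
    have h2 := hW F hF N hN _ _ h1 (hmin N hbig j hj.1 ((by exact_mod_cast hj.2 : (j : ℝ) ≤ K).trans hK2))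
    simp only [e_eq_ee]
    exact h2
  have hharm : ∑ j ∈ Icc 1 K, 1 / (j : ℝ) ≤ (2 + 2 / c1) * (N : ℝ) ^ (c1 / 2) := by
    have h1 : ∑ j ∈ Icc 1 K, 1 / (j : ℝ) ≤ 1 + Real.log K := by
      have := harmonic_le_one_add_log K
      rw [harmonic_eq_sum_Icc] at this
      push_cast at this
      simpa [one_div] using this
    have h2 : Real.log K ≤ Real.log 2 + η * Real.log N := by
      have e1 : Real.log K ≤ Real.log (2 * (N : ℝ) ^ η) := Real.log_le_log (by linarith) hK2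
      rwa [Real.log_mul (by norm_num) (by positivity), Real.log_rpow hN00] at e1
    have h3 : Real.log N ≤ (N : ℝ) ^ (c1 / 2) / (c1 / 2) := Real.log_le_rpow_div hN00.le (by positivity)
    have h4 : (1 : ℝ) ≤ (N : ℝ) ^ (c1 / 2) := Real.one_le_rpow hNR (by positivity)
    have h5 : Real.log 2 ≤ 1 := by have := Real.log_two_lt_d9; linarith
    have h6 : 0 ≤ Real.log N := Real.log_nonneg hNR
    have h7 : η * Real.log N ≤ Real.log N := mul_le_of_le_one_left h6 hη1.le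
    have h8 : (N : ℝ) ^ (c1 / 2) / (c1 / 2) = 2 / c1 * (N : ℝ) ^ (c1 / 2) := by field_simp
    calc _ ≤ 1 + Real.log K := h1
      _ ≤ 2 + 2 / c1 * (N : ℝ) ^ (c1 / 2) := by linarith
      _ ≤ _ := by linarith
  have t1 : η' * (N : ℝ) ≤ (N : ℝ) ^ (1 - c) := by
    have e1 : (N : ℝ) ^ (-(η / 2)) * N = (N : ℝ) ^ (1 - η / 2) := by
      rw [sub_eq_neg_add, Real.rpow_add hN00, Real.rpow_one]
    have e2 : (N : ℝ) ^ (1 - η / 2) ≤ (N : ℝ) ^ (1 - c) := Real.rpow_le_rpow_of_exponent_le hNR (by linarith)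
    have e3 : η' * (N : ℝ) = (N : ℝ) ^ (1 - η / 2) / 2 := by rw [hη', ← e1]; ring
    have e4 : (0 : ℝ) ≤ (N : ℝ) ^ (1 - η / 2) := by positivity
    rw [e3]; linarith
  have t2 : 2 * (N : ℝ) / (η' * K) ≤ 4 * (N : ℝ) ^ (1 - c) := by
    rw [div_le_iff₀ (by positivity)]
    have e1 : (N : ℝ) ^ (1 - η / 2) ≤ (N : ℝ) ^ (1 - c) := Real.rpow_le_rpow_of_exponent_le hNR (by linarith)
    have e2 : (N : ℝ) ^ (1 - η / 2) * ((N : ℝ) ^ (-(η / 2)) * (N : ℝ) ^ η) = N := by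
      rw [← Real.rpow_add hN00, ← Real.rpow_add hN00]
      have : 1 - η / 2 + (-(η / 2) + η) = 1 := by ring
      rw [this, Real.rpow_one]
    calc 2 * (N : ℝ) = 4 * (N : ℝ) ^ (1 - η / 2) * (((N : ℝ) ^ (-(η / 2)) / 2) * (N : ℝ) ^ η) := by
          rw [show 4 * (N : ℝ) ^ (1 - η / 2) * (((N : ℝ) ^ (-(η / 2)) / 2) * (N : ℝ) ^ η)
            = 2 * ((N : ℝ) ^ (1 - η / 2) * ((N : ℝ) ^ (-(η / 2)) * (N : ℝ) ^ η)) by ring, e2]
      _ ≤ 4 * (N : ℝ) ^ (1 - c) * (η' * K) := by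
          rw [← hη']
          gcongr
  have t3 : ∑ j ∈ Icc 1 K, 1 / (j : ℝ) * ‖∑ m ∈ Icc 1 N, (F (m : ℕ) : ℂ) * Pool.Agent.H469R2.NK.e (j * P.eval ((m : ℕ) : ℝ))‖
      ≤ (2 + 2 / c1) * C1 * (N : ℝ) ^ (1 - c) := by
    calc _ ≤ ∑ j ∈ Icc 1 K, 1 / (j : ℝ) * (C1 * (N : ℝ) ^ (1 - c1)) :=
          sum_le_sum fun j hj => mul_le_mul_of_nonneg_left (hsums j hj) (by positivity)
      _ = (∑ j ∈ Icc 1 K, 1 / (j : ℝ)) * (C1 * (N : ℝ) ^ (1 - c1)) := by rw [sum_mul]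
      _ ≤ ((2 + 2 / c1) * (N : ℝ) ^ (c1 / 2)) * (C1 * (N : ℝ) ^ (1 - c1)) := by gcongr
      _ = (2 + 2 / c1) * C1 * (N : ℝ) ^ (1 - c1 / 2) := by
          have : (N : ℝ) ^ (1 - c1 / 2) = (N : ℝ) ^ (c1 / 2) * (N : ℝ) ^ (1 - c1) := by
            rw [← Real.rpow_add hN00]; congr 1; ring
          rw [this]; ring
      _ ≤ _ := by
          apply mul_le_mul_of_nonneg_left _ (by positivity)
          exact Real.rpow_le_rpow_of_exponent_le hNR (by linarith)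
  have hN0R : (0 : ℝ) ≤ N0 := Nat.cast_nonneg _
  have hfin : (N : ℝ) ^ (1 - c) + 4 * (N : ℝ) ^ (1 - c) + (2 + 2 / c1) * C1 * (N : ℝ) ^ (1 - c)
      ≤ (N0 + 5 + (2 + 2 / c1) * C1) * (N : ℝ) ^ (1 - c) := by
    have : 0 ≤ N0 * (N : ℝ) ^ (1 - c) := by positivity
    linarith
  exact (add_le_add (add_le_add t1 t2) t3).trans hfin

theorem psi_polyD' {d : ℤ} (hd2 : d % 2 = 1) {k : ℕ} (hk : 1 ≤ k) {α : ℝ} (hα : Dioph α) : ∃ C c : ℝ, 0 ≤ C ∧ 0 < c ∧ c < 1 ∧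
    ∀ F : ℤ → ℝ, Sync d F → ∀ P : ℝ[X], P.natDegree ≤ k + 1 → P.coeff (k + 1) = α → ∀ N : ℕ, 1 ≤ N →
      |∑ n ∈ Icc 1 N, F n * psi (P.eval (n : ℝ))| ≤ C * (N : ℝ) ^ (1 - c) := by
  obtain ⟨C, c, hC, hc, hc1, H⟩ := psi_polyD hd2 hk hα
  refine ⟨3 * C, c, by positivity, hc, hc1, fun F hF P hP hPc N hN => ?_⟩
  have hF' : Sync d (fun x => (1 + F x) / 2) := by
    refine ⟨fun x => ?_, fun j x y h => ?_⟩
    · have := abs_le.1 (hF.1 x)
      rw [abs_le]; constructor <;> linarith [this.1, this.2]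
    · simp only; rw [hF.2 j x y h]
  have h1 := H _ hF' (fun x => by have := (abs_le.1 (hF.1 x)).1; show 0 ≤ (1 + F x) / 2; linarith) P hP hPc N hN
  have h2 := H (fun _ => 1) ⟨fun x => by simp, fun _ _ _ _ => rfl⟩ (fun x => by norm_num) P hP hPc N hN
  have e2 : ∑ n ∈ Icc 1 N, F n * psi (P.eval (n : ℝ)) = 2 * ∑ n ∈ Icc 1 N, (1 + F n) / 2 * psi (P.eval (n : ℝ))
      - ∑ n ∈ Icc 1 N, 1 * psi (P.eval (n : ℝ)) := by
    rw [mul_sum, ← sum_sub_distrib]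
    apply sum_congr rfl
    intro n _; ring
  rw [e2]
  refine (abs_sub _ _).trans ?_
  rw [abs_mul, abs_two]
  linarith

open Classical in
/-- DISCREPANCY of polynomials, weighted by `F` -/
theorem discD {d : ℤ} (hd2 : d % 2 = 1) {k : ℕ} (hk : 1 ≤ k) {α : ℝ} (hα : Dioph α) : ∃ C c : ℝ, 0 ≤ C ∧ 0 < c ∧ c < 1 ∧
    ∀ F : ℤ → ℝ, Sync d F → ∀ P : ℝ[X], P.natDegree ≤ k + 1 → P.coeff (k + 1) = α → ∀ u v : ℝ, 0 ≤ u → u ≤ v → v ≤ 1 →
    ∀ N : ℕ, 1 ≤ N →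
      |∑ n ∈ (Icc 1 N).filter (fun n : ℕ => u ≤ Int.fract (P.eval (n : ℝ)) ∧ Int.fract (P.eval (n : ℝ)) < v), F n
        - (v - u) * ∑ n ∈ Icc 1 N, F n| ≤ C * (N : ℝ) ^ (1 - c) := by
  obtain ⟨C, c, hC, hc, hc1, H⟩ := psi_polyD' hd2 hk hα
  refine ⟨2 * C, c, by positivity, hc, hc1, fun F hF P hP hPc u v hu huv hv N hN => ?_⟩
  have hsub : ∀ w : ℝ, |∑ n ∈ Icc 1 N, F n * psi (P.eval (n : ℝ) - w)| ≤ C * (N : ℝ) ^ (1 - c) := by
    intro w
    have h1 : (P - Polynomial.C w).natDegree ≤ k + 1 := by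
      refine (natDegree_sub_le _ _).trans ?_
      rw [natDegree_C]
      omega
    have h2 : (P - Polynomial.C w).coeff (k + 1) = α := by
      rw [coeff_sub, coeff_C, if_neg (by omega), sub_zero]; exact hPc
    have h3 := H F hF _ h1 h2 N hN
    simpa using h3
  have e1 : ∑ n ∈ (Icc 1 N).filter (fun n : ℕ => u ≤ Int.fract (P.eval (n : ℝ)) ∧ Int.fract (P.eval (n : ℝ)) < v), F n
      - (v - u) * ∑ n ∈ Icc 1 N, F n
      = ∑ n ∈ Icc 1 N, F n * psi (P.eval (n : ℝ) - v) - ∑ n ∈ Icc 1 N, F n * psi (P.eval (n : ℝ) - u) := by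
    rw [sum_filter, mul_sum, ← sum_sub_distrib, ← sum_sub_distrib]
    apply sum_congr rfl
    intro n _
    have h1 := fract_ind hu huv hv (P.eval (n : ℝ))
    have h2 : (if u ≤ Int.fract (P.eval (n : ℝ)) ∧ Int.fract (P.eval (n : ℝ)) < v then F n else 0)
        = F n * (if u ≤ Int.fract (P.eval (n : ℝ)) ∧ Int.fract (P.eval (n : ℝ)) < v then (1 : ℝ) else 0) := by
      rw [mul_ite, mul_one, mul_zero]
    rw [h2, h1]; ring
  rw [e1]
  refine (abs_sub _ _).trans ?_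
  have h1 := hsub v
  have h2 := hsub u
  linarith

end Pool.Agent.Helper82K9.PM
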