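import Pool.Agent.Helper82K9.PM3

/-! Progressions. -/

set_option autoImplicit false

namespace Pool.Agent.Helper82K9.PM

open Finset Pool.Agent.Y965.PS Pool.Agent.Y55.DS Pool.Agent.H373R2.NB Polynomial
open Pool.Agent.Helper602.MK (ee)
open Pool.Agent.Helper602.MK.N_J5b (ee_add ee_zero ee_conj norm_ee ee_nat_mul ee_int ee_eq_one_iff)

theorem Ph_const {k : ℕ} {α : ℝ} {φ : ℕ → ℝ} (h : Ph (k + 1) α φ) (c : ℝ) : Ph (k + 1) α (fun n => φ n + c) := by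
  intro r
  have h1 := h r
  have e : (fun n => (fun n => φ n + c) (n + r) - (fun n => φ n + c) n) = fun n => φ (n + r) - φ n := by
    funext n; ring
  rw [e]; exact h1

theorem Ph_lin {k : ℕ} {α : ℝ} {φ : ℕ → ℝ} (h : Ph (k + 2) α φ) (β : ℝ) : Ph (k + 2) α (fun n => φ n + β * n) := by
  intro r
  have h1 := Ph_const (h r) (β * r)
  have e : (fun n => (fun n : ℕ => φ n + β * n) (n + r) - (fun n : ℕ => φ n + β * n) n) =
      fun n => (φ (n + r) - φ n) + β * r := by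
    funext n; push_cast; ring
  rw [e]; exact h1

/-- orthogonality -/
theorem orth (q : ℕ) (hq : 1 ≤ q) (m : ℤ) : ∑ b ∈ range q, ee (b * ((m : ℝ) / q)) = if (q : ℤ) ∣ m then (q : ℂ) else 0 := by
  have hq0 : (q : ℝ) ≠ 0 := by exact_mod_cast (by omega : q ≠ 0)
  have e : ∀ b ∈ range q, ee (b * ((m : ℝ) / q)) = ee ((m : ℝ) / q) ^ b := fun b _ => ee_nat_mul b _
  rw [sum_congr rfl e]
  split_ifs with h
  · obtain ⟨c, hc⟩ := h
    have h1 : ee ((m : ℝ) / q) = 1 := by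
      rw [ee_eq_one_iff]
      refine ⟨c, ?_⟩
      rw [hc]; push_cast; field_simp
    rw [h1]; simp
  · have h1 : ee ((m : ℝ) / q) ≠ 1 := by
      intro h2
      rw [ee_eq_one_iff] at h2
      obtain ⟨c, hc⟩ := h2
      apply h
      refine ⟨c, ?_⟩
      rw [div_eq_iff hq0] at hc
      have : (m : ℝ) = ((c * q : ℤ) : ℝ) := by rw [hc]; push_cast; ring
      have h3 : m = c * q := by exact_mod_cast this
      rw [h3]; ring
    rw [geom_sum_eq h1, ← ee_nat_mul]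
    have h2 : (q : ℝ) * ((m : ℝ) / q) = m := by field_simp
    rw [h2, ee_int, sub_self, zero_div]

open Classical in
theorem ap_norm (q : ℕ) (hq : 1 ≤ q) (a : ℤ) (A : Finset ℕ) (g : ℕ → ℂ) {B : ℝ}
    (h : ∀ b : ℕ, b < q → ‖∑ m ∈ A, g m * ee ((b : ℝ) / q * m)‖ ≤ B) :
    ‖∑ m ∈ A, (if (m : ℤ) ≡ a [ZMOD q] then g m else 0)‖ ≤ B := by
  have hq0 : (0 : ℝ) < q := by exact_mod_cast hq
  have hqC : (q : ℂ) ≠ 0 := by exact_mod_cast (by omega : q ≠ 0)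
  have e : (q : ℂ) * ∑ m ∈ A, (if (m : ℤ) ≡ a [ZMOD q] then g m else 0) =
      ∑ b ∈ range q, ee (-((b : ℝ) * (a / q))) * ∑ m ∈ A, g m * ee ((b : ℝ) / q * m) := by
    rw [mul_sum]
    simp only [mul_sum]
    rw [sum_comm]
    apply sum_congr rfl
    intro m _
    have e1 : ∀ b ∈ range q, ee (-((b : ℝ) * (a / q))) * (g m * ee ((b : ℝ) / q * m)) = g m * ee (b * ((((m : ℤ) - a : ℤ) : ℝ) / q)) := by
      intro b _
      have : (b : ℝ) * ((((m : ℤ) - a : ℤ) : ℝ) / q) = -((b : ℝ) * (a / q)) + (b : ℝ) / q * m := by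
        push_cast; ring
      rw [this, ee_add]; ring
    rw [sum_congr rfl e1, ← mul_sum, orth q hq]
    have hiff : (m : ℤ) ≡ a [ZMOD q] ↔ (q : ℤ) ∣ (m : ℤ) - a := by
      rw [Int.modEq_comm, Int.modEq_iff_dvd]
    simp only [hiff]
    split_ifs <;> ring
  have h1 : (q : ℝ) * ‖∑ m ∈ A, (if (m : ℤ) ≡ a [ZMOD q] then g m else 0)‖ ≤ q * B := by
    have e2 : (q : ℝ) * ‖∑ m ∈ A, (if (m : ℤ) ≡ a [ZMOD q] then g m else 0)‖ =
        ‖(q : ℂ) * ∑ m ∈ A, (if (m : ℤ) ≡ a [ZMOD q] then g m else 0)‖ := by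
      rw [norm_mul, Complex.norm_natCast]
    rw [e2, e]
    refine (norm_sum_le _ _).trans ?_
    calc _ ≤ ∑ b ∈ range q, B := sum_le_sum fun b hb => by
          rw [norm_mul, norm_ee, one_mul]; exact h b (mem_range.1 hb)
      _ = _ := by rw [sum_const, card_range, nsmul_eq_mul]
  exact le_of_mul_le_mul_left h1 hq0

open Classical in
/-- the Weyl inequality in progressions -/
theorem weyl_ap {d : ℤ} (hd2 : d % 2 = 1) {k : ℕ} (hk : 1 ≤ k) {η : ℝ} (hη : 0 < η) : ∃ C c : ℝ, 0 ≤ C ∧ 0 < c ∧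
    ∀ F : ℤ → ℝ, Sync d F → ∀ q : ℕ, 1 ≤ q → ∀ a : ℤ, ∀ N : ℕ, 1 ≤ N → ∀ (α : ℝ) (φ : ℕ → ℝ), Ph (k + 1) α φ →
    (∀ l : ℕ, 1 ≤ l → (l : ℝ) ≤ (N : ℝ) ^ η → ∀ a : ℤ, (N : ℝ) ^ (η - k) ≤ |l * α - a|) →
    ‖∑ m ∈ Icc 1 N, (((if (m : ℤ) ≡ a [ZMOD q] then F m else 0 : ℝ)) : ℂ) * ee (φ m)‖ ≤ C * (N : ℝ) ^ (1 - c) := by
  obtain ⟨C, c, hC, hc, H⟩ := weyl_syncD hd2 hk hη
  refine ⟨C, c, hC, hc, fun F hF q hq a N hN α φ hφ hm => ?_⟩
  have e : ∀ m ∈ Icc 1 N, (((if (m : ℤ) ≡ a [ZMOD q] then F m else 0 : ℝ)) : ℂ) * ee (φ m) =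
      if (m : ℤ) ≡ a [ZMOD q] then (F m : ℂ) * ee (φ m) else 0 := by
    intro m _
    split_ifs <;> simp
  rw [sum_congr rfl e]
  apply ap_norm q hq
  intro b _
  obtain ⟨k', rfl⟩ : ∃ k', k = k' + 1 := ⟨k - 1, by omega⟩
  have h1 := H F hF N hN α _ (Ph_lin hφ ((b : ℝ) / q)) hm
  refine le_trans (le_of_eq ?_) h1
  congr 1
  apply sum_congr rfl
  intro m _
  rw [ee_add]; ring

/-- sums with the sawtooth function of a polynomial -/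
theorem psi_gen {k : ℕ} (hk : 1 ≤ k) {α : ℝ} (hα : Dioph α) (W : Set (ℕ → ℝ)) (hW1 : ∀ G ∈ W, ∀ m, |G m| ≤ 1)
    (hWe : ∀ η : ℝ, 0 < η → ∃ C c : ℝ, 0 ≤ C ∧ 0 < c ∧
    ∀ G ∈ W, ∀ N : ℕ, 1 ≤ N → ∀ (α : ℝ) (φ : ℕ → ℝ), Ph (k + 1) α φ →
    (∀ l : ℕ, 1 ≤ l → (l : ℝ) ≤ (N : ℝ) ^ η → ∀ a : ℤ, (N : ℝ) ^ (η - k) ≤ |l * α - a|) →
    ‖∑ m ∈ Icc 1 N, (G m : ℂ) * ee (φ m)‖ ≤ C * (N : ℝ) ^ (1 - c)) : ∃ C c : ℝ, 0 ≤ C ∧ 0 < c ∧ c < 1 ∧
    ∀ G ∈ W, (∀ x, 0 ≤ G x) → ∀ P : ℝ[X], P.natDegree ≤ k + 1 → P.coeff (k + 1) = α → ∀ N : ℕ, 1 ≤ N →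
      |∑ n ∈ Icc 1 N, G n * psi (P.eval (n : ℝ))| ≤ C * (N : ℝ) ^ (1 - c) := by
  obtain ⟨η, hη0, hη1, N0, hN0, hmin⟩ := dioph_minor hk hα
  obtain ⟨C1, c1, hC1, hc1, hW⟩ := hWe η hη0
  set c : ℝ := min (η / 2) (c1 / 2) with hc
  have hc0 : 0 < c := lt_min (by positivity) (by positivity)
  have hcη : c ≤ η / 2 := min_le_left _ _
  have hcc : c ≤ c1 / 2 := min_le_right _ _
  refine ⟨N0 + 5 + (2 + 2 / c1) * C1, c, by positivity, hc0, by linarith, ?_⟩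
  intro G hG hG0 P hP hPc N hN
  have hG1 := hW1 G hG
  have hNR : (1 : ℝ) ≤ N := by exact_mod_cast hN
  have hN00 : (0 : ℝ) < N := by linarith
  have hp1 : (1 : ℝ) ≤ (N : ℝ) ^ (1 - c) := Real.one_le_rpow hNR (by linarith)
  have hpsi : ∀ x : ℝ, |psi x| ≤ 1 := by
    intro x
    unfold psi
    have h1 := Int.fract_nonneg x
    have h2 := (Int.fract_lt_one x).le
    rw [abs_le]; constructor <;> linarith
  rcases lt_or_ge N N0 with hsm | hbig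
  · -- small `N`
    have h1 : |∑ n ∈ Icc 1 N, G n * psi (P.eval (n : ℝ))| ≤ N := by
      refine (abs_sum_le_sum_abs _ _).trans ?_
      have h2 : ∀ n ∈ Icc 1 N, |G n * psi (P.eval ((n : ℕ) : ℝ))| ≤ 1 := by
        intro n _
        rw [abs_mul]
        have a1 := hG1 n
        have a2 := hpsi (P.eval (n : ℝ))
        calc |G n| * |psi (P.eval ((n : ℕ) : ℝ))| ≤ 1 * 1 := mul_le_mul a1 a2 (abs_nonneg _) zero_le_one
          _ = 1 := one_mul 1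
      refine (sum_le_sum h2).trans ?_
      simp
    have h2 : (N : ℝ) ≤ N0 := by exact_mod_cast hsm.le
    have h3 : (0 : ℝ) ≤ 5 + (2 + 2 / c1) * C1 := by positivity
    calc _ ≤ (N : ℝ) := h1
      _ ≤ N0 + 5 + (2 + 2 / c1) * C1 := by linarith
      _ ≤ _ := le_mul_of_one_le_right (by positivity) hp1
  set K := ⌈(N : ℝ) ^ η⌉₊ with hK
  have hNη : 1 ≤ (N : ℝ) ^ η := Real.one_le_rpow hNR hη0.le
  have hK1 : (N : ℝ) ^ η ≤ K := Nat.le_ceil _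
  have hK2 : (K : ℝ) ≤ 2 * (N : ℝ) ^ η := by
    have := Nat.ceil_lt_add_one (by positivity : 0 ≤ (N : ℝ) ^ η)
    linarith
  have hK3 : (1 : ℝ) ≤ K := hNη.trans hK1
  have hK4 : 1 ≤ K := by exact_mod_cast hK3
  set η' : ℝ := (N : ℝ) ^ (-(η / 2)) / 2 with hη'
  have hη'0 : 0 < η' := by positivity
  have hη'1 : η' < 1 := by
    have : (N : ℝ) ^ (-(η / 2)) ≤ 1 := Real.rpow_le_one_of_one_le_of_nonpos hNR (by linarith)
    rw [hη']; linarith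
  have key := psi_sum (Icc 1 N) (F := G) hG0 (fun m => (abs_le.1 (hG1 m)).2)
    (fun m : ℕ => P.eval (m : ℝ)) hK4 hη'0 hη'1
  have hcard : ((Icc 1 N).card : ℝ) = N := by rw [Nat.card_Icc, Nat.add_sub_cancel]
  rw [hcard] at key
  refine key.trans ?_
  have hP1 := Ph_real (k + 1) P hP
  rw [hPc] at hP1
  -- the exponential sums
  have hsums : ∀ j ∈ Icc 1 K, ‖∑ m ∈ Icc 1 N, (G m : ℂ) * Pool.Agent.H469R2.NK.e (j * P.eval ((m : ℕ) : ℝ))‖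
      ≤ C1 * (N : ℝ) ^ (1 - c1) := by
    intro j hj
    rw [mem_Icc] at hj
    have h1 := Ph_mul (k + 1) (j : ℝ) _ _ hP1
    have h2 := hW G hG N hN _ _ h1 (hmin N hbig j hj.1 ((by exact_mod_cast hj.2 : (j : ℝ) ≤ K).trans hK2))
    simp only [e_eq_ee]
    exact h2
  have hharm : ∑ j ∈ Icc 1 K, 1 / (j : ℝ) ≤ (2 + 2 / c1) * (N : ℝ) ^ (c1 / 2) := by
    have h1 : ∑ j ∈ Icc 1 K, 1 / (j : ℝ) ≤ 1 + Real.log K := by
      have := harmonic_le_one_add_log K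
      rw [harmonic_eq_sum_Icc] at this
      push_cast at this
      simpa [one_div] using this
    have h2 : Real.log K ≤ Real.log 2 + η * Real.log N := by
      have e1 : Real.log K ≤ Real.log (2 * (N : ℝ) ^ η) := Real.log_le_log (by linarith) hK2
      rwa [Real.log_mul (by norm_num) (by positivity), Real.log_rpow hN00] at e1
    have h3 : Real.log N ≤ (N : ℝ) ^ (c1 / 2) / (c1 / 2) := Real.log_le_rpow_div hN00.le (by positivity)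
    have h4 : (1 : ℝ) ≤ (N : ℝ) ^ (c1 / 2) := Real.one_le_rpow hNR (by positivity)
    have h5 : Real.log 2 ≤ 1 := by have := Real.log_two_lt_d9; linarith
    have h6 : 0 ≤ Real.log N := Real.log_nonneg hNR
    have h7 : η * Real.log N ≤ Real.log N := mul_le_of_le_one_left h6 hη1.le
    have h8 : (N : ℝ) ^ (c1 / 2) / (c1 / 2) = 2 / c1 * (N : ℝ) ^ (c1 / 2) := by field_simp
    calc _ ≤ 1 + Real.log K := h1
      _ ≤ 2 + 2 / c1 * (N : ℝ) ^ (c1 / 2) := by linarith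
      _ ≤ _ := by linarith
  have t1 : η' * (N : ℝ) ≤ (N : ℝ) ^ (1 - c) := by
    have e1 : (N : ℝ) ^ (-(η / 2)) * N = (N : ℝ) ^ (1 - η / 2) := by
      rw [sub_eq_neg_add, Real.rpow_add hN00, Real.rpow_one]
    have e2 : (N : ℝ) ^ (1 - η / 2) ≤ (N : ℝ) ^ (1 - c) := Real.rpow_le_rpow_of_exponent_le hNR (by linarith)
    have e3 : η' * (N : ℝ) = (N : ℝ) ^ (1 - η / 2) / 2 := by rw [hη', ← e1]; ring
    have e4 : (0 : ℝ) ≤ (N : ℝ) ^ (1 - η / 2) := by positivity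
    rw [e3]; linarith
  have t2 : 2 * (N : ℝ) / (η' * K) ≤ 4 * (N : ℝ) ^ (1 - c) := by
    rw [div_le_iff₀ (by positivity)]
    have e1 : (N : ℝ) ^ (1 - η / 2) ≤ (N : ℝ) ^ (1 - c) := Real.rpow_le_rpow_of_exponent_le hNR (by linarith)
    have e2 : (N : ℝ) ^ (1 - η / 2) * ((N : ℝ) ^ (-(η / 2)) * (N : ℝ) ^ η) = N := by
      rw [← Real.rpow_add hN00, ← Real.rpow_add hN00]
      have : 1 - η / 2 + (-(η / 2) + η) = 1 := by ring
      rw [this, Real.rpow_one]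
    calc 2 * (N : ℝ) = 4 * (N : ℝ) ^ (1 - η / 2) * (((N : ℝ) ^ (-(η / 2)) / 2) * (N : ℝ) ^ η) := by
          rw [show 4 * (N : ℝ) ^ (1 - η / 2) * (((N : ℝ) ^ (-(η / 2)) / 2) * (N : ℝ) ^ η)
            = 2 * ((N : ℝ) ^ (1 - η / 2) * ((N : ℝ) ^ (-(η / 2)) * (N : ℝ) ^ η)) by ring, e2]
      _ ≤ 4 * (N : ℝ) ^ (1 - c) * (η' * K) := by
          rw [← hη']
          gcongr
  have t3 : ∑ j ∈ Icc 1 K, 1 / (j : ℝ) * ‖∑ m ∈ Icc 1 N, (G m : ℂ) * Pool.Agent.H469R2.NK.e (j * P.eval ((m : ℕ) : ℝ))‖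
      ≤ (2 + 2 / c1) * C1 * (N : ℝ) ^ (1 - c) := by
    calc _ ≤ ∑ j ∈ Icc 1 K, 1 / (j : ℝ) * (C1 * (N : ℝ) ^ (1 - c1)) :=
          sum_le_sum fun j hj => mul_le_mul_of_nonneg_left (hsums j hj) (by positivity)
      _ = (∑ j ∈ Icc 1 K, 1 / (j : ℝ)) * (C1 * (N : ℝ) ^ (1 - c1)) := by rw [sum_mul]
      _ ≤ ((2 + 2 / c1) * (N : ℝ) ^ (c1 / 2)) * (C1 * (N : ℝ) ^ (1 - c1)) := by gcongr
      _ = (2 + 2 / c1) * C1 * (N : ℝ) ^ (1 - c1 / 2) := by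
          have : (N : ℝ) ^ (1 - c1 / 2) = (N : ℝ) ^ (c1 / 2) * (N : ℝ) ^ (1 - c1) := by
            rw [← Real.rpow_add hN00]; congr 1; ring
          rw [this]; ring
      _ ≤ _ := by
          apply mul_le_mul_of_nonneg_left _ (by positivity)
          exact Real.rpow_le_rpow_of_exponent_le hNR (by linarith)
  have hN0R : (0 : ℝ) ≤ N0 := Nat.cast_nonneg _
  have hfin : (N : ℝ) ^ (1 - c) + 4 * (N : ℝ) ^ (1 - c) + (2 + 2 / c1) * C1 * (N : ℝ) ^ (1 - c)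
      ≤ (N0 + 5 + (2 + 2 / c1) * C1) * (N : ℝ) ^ (1 - c) := by
    have : 0 ≤ N0 * (N : ℝ) ^ (1 - c) := by positivity
    linarith
  exact (add_le_add (add_le_add t1 t2) t3).trans hfin

open Classical in
theorem psi_ap {d : ℤ} (hd2 : d % 2 = 1) {k : ℕ} (hk : 1 ≤ k) {α : ℝ} (hα : Dioph α) : ∃ C c : ℝ, 0 ≤ C ∧ 0 < c ∧ c < 1 ∧
    ∀ F : ℤ → ℝ, Sync d F → ∀ q : ℕ, 1 ≤ q → ∀ a : ℤ, ∀ P : ℝ[X], P.natDegree ≤ k + 1 → P.coeff (k + 1) = α →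
    ∀ N : ℕ, 1 ≤ N →
      |∑ n ∈ Icc 1 N, (if (n : ℤ) ≡ a [ZMOD q] then F n else 0) * psi (P.eval (n : ℝ))| ≤ C * (N : ℝ) ^ (1 - c) := by
  obtain ⟨C, c, hC, hc, hc1, H⟩ := psi_gen hk hα {G | ∃ F : ℤ → ℝ, Sync d F ∧ ∃ q : ℕ, 1 ≤ q ∧ ∃ a : ℤ,
    ∀ n : ℕ, G n = if (n : ℤ) ≡ a [ZMOD q] then F n else 0} (by
      rintro G ⟨F, hF, q, hq, a, hG⟩ m
      rw [hG]
      split_ifs
      · exact hF.1 m
      · simp) (by
      intro η hη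
      obtain ⟨C, c, hC, hc, H⟩ := weyl_ap hd2 hk hη
      refine ⟨C, c, hC, hc, ?_⟩
      rintro G ⟨F, hF, q, hq, a, hG⟩ N hN α φ hφ hm
      have := H F hF q hq a N hN α φ hφ hm
      simp only [hG]
      exact this)
  refine ⟨3 * C, c, by positivity, hc, hc1, fun F hF q hq a P hP hPc N hN => ?_⟩
  have hF' : Sync d (fun x => (1 + F x) / 2) := by
    refine ⟨fun x => ?_, fun j x y h => ?_⟩
    · have := abs_le.1 (hF.1 x)
      rw [abs_le]; constructor <;> linarith [this.1, this.2]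
    · simp only; rw [hF.2 j x y h]
  have h1 := H (fun n => if (n : ℤ) ≡ a [ZMOD q] then (1 + F n) / 2 else 0) ⟨_, hF', q, hq, a, fun _ => rfl⟩
    (fun x => by
      have := (abs_le.1 (hF.1 x)).1
      show 0 ≤ (if (x : ℤ) ≡ a [ZMOD q] then (1 + F x) / 2 else 0)
      split_ifs
      · linarith
      · exact le_rfl) P hP hPc N hN
  have h2 := H (fun n => if (n : ℤ) ≡ a [ZMOD q] then 1 else 0)
    ⟨fun _ => 1, ⟨fun x => by simp, fun _ _ _ _ => rfl⟩, q, hq, a, fun _ => rfl⟩ (fun x => by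
      show (0 : ℝ) ≤ (if (x : ℤ) ≡ a [ZMOD q] then 1 else 0)
      split_ifs <;> norm_num) P hP hPc N hN
  have e2 : ∑ n ∈ Icc 1 N, (if (n : ℤ) ≡ a [ZMOD q] then F n else 0) * psi (P.eval (n : ℝ)) =
      2 * ∑ n ∈ Icc 1 N, (if (n : ℤ) ≡ a [ZMOD q] then (1 + F n) / 2 else 0) * psi (P.eval (n : ℝ))
      - ∑ n ∈ Icc 1 N, (if (n : ℤ) ≡ a [ZMOD q] then 1 else 0) * psi (P.eval (n : ℝ)) := by
    rw [mul_sum, ← sum_sub_distrib]
    apply sum_congr rfl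
    intro n _
    split_ifs <;> ring
  rw [e2]
  refine (abs_sub _ _).trans ?_
  rw [abs_mul, abs_two]
  linarith

open Classical in
/-- discrepancy in progressions -/
theorem disc_ap {d : ℤ} (hd2 : d % 2 = 1) {k : ℕ} (hk : 1 ≤ k) {α : ℝ} (hα : Dioph α) : ∃ C c : ℝ, 0 ≤ C ∧ 0 < c ∧ c < 1 ∧
    ∀ F : ℤ → ℝ, Sync d F → ∀ q : ℕ, 1 ≤ q → ∀ a : ℤ, ∀ P : ℝ[X], P.natDegree ≤ k + 1 → P.coeff (k + 1) = α →
    ∀ u v : ℝ, 0 ≤ u → u ≤ v → v ≤ 1 → ∀ N : ℕ, 1 ≤ N →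
      |∑ n ∈ (Icc 1 N).filter (fun n : ℕ => (n : ℤ) ≡ a [ZMOD q] ∧ u ≤ Int.fract (P.eval (n : ℝ)) ∧ Int.fract (P.eval (n : ℝ)) < v), F n
        - (v - u) * ∑ n ∈ (Icc 1 N).filter (fun n : ℕ => (n : ℤ) ≡ a [ZMOD q]), F n| ≤ C * (N : ℝ) ^ (1 - c) := by
  obtain ⟨C, c, hC, hc, hc1, H⟩ := psi_ap hd2 hk hα
  refine ⟨2 * C, c, by positivity, hc, hc1, fun F hF q hq a P hP hPc u v hu huv hv N hN => ?_⟩
  have hsub : ∀ w : ℝ, |∑ n ∈ Icc 1 N, (if (n : ℤ) ≡ a [ZMOD q] then F n else 0) * psi (P.eval (n : ℝ) - w)| ≤ C * (N : ℝ) ^ (1 - c) := by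
    intro w
    have h1 : (P - Polynomial.C w).natDegree ≤ k + 1 := by
      refine (natDegree_sub_le _ _).trans ?_
      rw [natDegree_C]
      omega
    have h2 : (P - Polynomial.C w).coeff (k + 1) = α := by
      rw [coeff_sub, coeff_C, if_neg (by omega), sub_zero]; exact hPc
    have h3 := H F hF q hq a _ h1 h2 N hN
    simpa using h3
  have e1 : ∑ n ∈ (Icc 1 N).filter (fun n : ℕ => (n : ℤ) ≡ a [ZMOD q] ∧ u ≤ Int.fract (P.eval (n : ℝ)) ∧ Int.fract (P.eval (n : ℝ)) < v), F n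
      - (v - u) * ∑ n ∈ (Icc 1 N).filter (fun n : ℕ => (n : ℤ) ≡ a [ZMOD q]), F n
      = ∑ n ∈ Icc 1 N, (if (n : ℤ) ≡ a [ZMOD q] then F n else 0) * psi (P.eval (n : ℝ) - v)
        - ∑ n ∈ Icc 1 N, (if (n : ℤ) ≡ a [ZMOD q] then F n else 0) * psi (P.eval (n : ℝ) - u) := by
    rw [sum_filter, sum_filter, mul_sum, ← sum_sub_distrib, ← sum_sub_distrib]
    apply sum_congr rfl
    intro n _
    have h1 := fract_ind hu huv hv (P.eval (n : ℝ))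
    by_cases ha : (n : ℤ) ≡ a [ZMOD q]
    · have h2 : (if (n : ℤ) ≡ a [ZMOD q] ∧ u ≤ Int.fract (P.eval (n : ℝ)) ∧ Int.fract (P.eval (n : ℝ)) < v then F n else 0)
          = F n * (if u ≤ Int.fract (P.eval (n : ℝ)) ∧ Int.fract (P.eval (n : ℝ)) < v then (1 : ℝ) else 0) := by
        rw [mul_ite, mul_one, mul_zero]
        simp only [ha, true_and]
      rw [h2, h1, if_pos ha]; ring
    · rw [if_neg (fun h => ha h.1), if_neg ha]; ring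
  rw [e1]
  refine (abs_sub _ _).trans ?_
  have h1 := hsub v
  have h2 := hsub u
  linarith

end Pool.Agent.Helper82K9.PM
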