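import Pool.Agent.TH57.Thr.Small
import Pool.Agent.TH6.PF.SBar

set_option autoImplicit false
set_option linter.unusedSectionVars false

/-! # The Schur test for matrices over integral group rings -/

namespace Helper82K9.SF

open Matrix TH57.Thr TH6.LF TH6.PF

variable {Γ : Type} [Group Γ]

/-- the `ℓ¹`-norm of an element of the integral group ring -/
noncomputable def l1 (x : MonoidAlgebra ℤ Γ) : ℝ := ∑ g ∈ x.coeff.support, |((x.coeff g : ℤ) : ℝ)|

theorem l1_nonneg (x : MonoidAlgebra ℤ Γ) : 0 ≤ l1 x := Finset.sum_nonneg fun _ _ => abs_nonneg _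

theorem l1_zero : l1 (0 : MonoidAlgebra ℤ Γ) = 0 := by simp [l1]

theorem l1_eq (x : MonoidAlgebra ℤ Γ) (T : Finset Γ) (h : x.coeff.support ⊆ T) :
    l1 x = ∑ g ∈ T, |((x.coeff g : ℤ) : ℝ)| := by
  refine Finset.sum_subset h fun g _ hg => ?_
  rw [Finsupp.notMem_support_iff.1 hg]; simp

theorem l1_add_le (x y : MonoidAlgebra ℤ Γ) : l1 (x + y) ≤ l1 x + l1 y := by
  classical
  set T := x.coeff.support ∪ y.coeff.support with hT
  have hs : (x + y).coeff.support ⊆ T := Finsupp.support_add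
  rw [l1_eq _ T hs, l1_eq x T Finset.subset_union_left, l1_eq y T Finset.subset_union_right,
    ← Finset.sum_add_distrib]
  refine Finset.sum_le_sum fun g _ => ?_
  rw [MonoidAlgebra.coeff_add, Finsupp.add_apply]
  push_cast
  exact abs_add_le _ _

theorem l1_single (g : Γ) (z : ℤ) : l1 (MonoidAlgebra.single g z : MonoidAlgebra ℤ Γ) = |(z : ℝ)| := by
  classical
  rw [l1_eq _ {g}]
  · simp
  · intro h hh
    rw [Finsupp.mem_support_iff, MonoidAlgebra.coeff_single, Finsupp.single_apply] at hh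
    rw [Finset.mem_singleton]
    by_contra hne
    exact hh (if_neg (Ne.symm hne))

theorem l1_single_unit (g : Γ) (u : ℤˣ) :
    l1 (MonoidAlgebra.single g (u : ℤ) : MonoidAlgebra ℤ Γ) = 1 := by
  rw [l1_single]
  rcases Int.units_eq_one_or u with h | h <;> rw [h] <;> simp

theorem l1_one : l1 (1 : MonoidAlgebra ℤ Γ) = 1 := by
  rw [MonoidAlgebra.one_def]; simpa using l1_single_unit (1 : Γ) 1

theorem l1_neg (x : MonoidAlgebra ℤ Γ) : l1 (-x) = l1 x := by
  rw [l1_eq (-x) x.coeff.support]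
  · refine Finset.sum_congr rfl fun g _ => ?_
    rw [MonoidAlgebra.coeff_neg, Finsupp.neg_apply]
    push_cast
    exact abs_neg _
  · intro g hg
    rw [Finsupp.mem_support_iff, MonoidAlgebra.coeff_neg, Finsupp.neg_apply] at hg
    rw [Finsupp.mem_support_iff]
    intro h
    exact hg (by rw [h, neg_zero])

theorem l1_zsmul_unit (ε : ℤ) (hε : ε = 1 ∨ ε = -1) (x : MonoidAlgebra ℤ Γ) :
    l1 (ε • x) = l1 x := by
  rcases hε with rfl | rfl
  · rw [one_smul]
  · rw [neg_one_smul, l1_neg]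

theorem l1_sbar (w : Γ →* ℤˣ) (x : MonoidAlgebra ℤ Γ) : l1 (sbar w x) = l1 x := by
  classical
  have hs : (sbar w x).coeff.support ⊆ x.coeff.support.image (fun g => g⁻¹) := by
    intro g hg
    rw [Finsupp.mem_support_iff, coeff_sbar] at hg
    rw [Finset.mem_image]
    refine ⟨g⁻¹, ?_, inv_inv g⟩
    rw [Finsupp.mem_support_iff]
    intro h
    exact hg (by rw [h, star_zero, smul_zero])
  rw [l1_eq _ _ hs, Finset.sum_image (fun a _ b _ h => inv_injective h)]
  unfold l1
  refine Finset.sum_congr rfl fun g _ => ?_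
  rw [coeff_sbar, inv_inv, w_inv]
  rcases Int.units_eq_one_or (w g) with h | h <;> rw [h] <;> simp

theorem n1_sum_le {α : Type*} (s : Finset α) (y : α → MonoidAlgebra ℝ Γ) (u : α → ℝ)
    (hu : ∀ a ∈ s, 0 < u a) :
    n1 (∑ a ∈ s, y a) ≤ (∑ a ∈ s, u a) * ∑ a ∈ s, n1 (y a) / u a := by
  classical
  set T : Finset Γ := s.biUnion fun a => (y a).coeff.support with hT
  have hsub : ∀ a ∈ s, (y a).coeff.support ⊆ T := fun a ha =>
    Finset.subset_biUnion_of_mem (fun a => (y a).coeff.support) ha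
  have hs : (∑ a ∈ s, y a).coeff.support ⊆ T := by
    intro g hg
    rw [Finsupp.mem_support_iff, MonoidAlgebra.coeff_sum, Finsupp.finsetSum_apply] at hg
    obtain ⟨a, ha, h⟩ := Finset.exists_ne_zero_of_sum_ne_zero hg
    exact hsub a ha (Finsupp.mem_support_iff.2 h)
  rw [n1_eq _ T hs]
  have h1 : ∀ a ∈ s, n1 (y a) / u a = ∑ g ∈ T, (y a).coeff g ^ 2 / u a := by
    intro a ha
    rw [n1_eq _ T (hsub a ha), Finset.sum_div]
  rw [Finset.sum_congr rfl h1, Finset.sum_comm, Finset.mul_sum]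
  refine Finset.sum_le_sum fun g _ => ?_
  rw [MonoidAlgebra.coeff_sum, Finsupp.finsetSum_apply]
  refine Finset.sum_sq_le_sum_mul_sum_of_sq_le_mul s (fun a ha => (hu a ha).le)
    (fun a ha => div_nonneg (sq_nonneg _) (hu a ha).le) fun a ha => le_of_eq ?_
  have := (hu a ha).ne'
  field_simp

theorem n1_smul (r : ℝ) (y : MonoidAlgebra ℝ Γ) (g : Γ) :
    n1 (y * MonoidAlgebra.single g r) = r ^ 2 * n1 y := by
  classical
  have hs : (y * MonoidAlgebra.single g r).coeff.support
      ⊆ y.coeff.support.image (fun h => h * g) := by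
    intro h hh
    rw [Finsupp.mem_support_iff, MonoidAlgebra.coeff_mul_single_apply] at hh
    rw [Finset.mem_image]
    exact ⟨h * g⁻¹, Finsupp.mem_support_iff.2 (left_ne_zero_of_mul hh), by simp⟩
  rw [n1_eq _ _ hs, Finset.sum_image (fun a _ b _ h => mul_right_cancel h)]
  unfold n1
  rw [Finset.mul_sum]
  refine Finset.sum_congr rfl fun h _ => ?_
  rw [MonoidAlgebra.coeff_mul_single_apply, mul_inv_cancel_right]
  ring

variable {ι κ : Type} [Fintype ι] [Fintype κ]

/-- **The Schur test.** -/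
theorem schur_test (A : Matrix ι κ (MonoidAlgebra ℤ Γ)) (c : ℝ) (h : ι → ℝ) (k : κ → ℝ)
    (hh : ∀ i, 0 < h i) (hk : ∀ j, 0 < k j)
    (hr : ∀ i, ∑ j, l1 (A i j) * k j ≤ c * h i) (hc : ∀ j, ∑ i, l1 (A i j) * h i ≤ c * k j) :
    NormLE A c := by
  classical
  intro x
  -- the columns
  have key : ∀ j, n1 ((x ᵥ* toReal A) j) ≤ (c * k j) * ∑ i, l1 (A i j) * (n1 (x i) / h i) := by
    intro j
    have h1 : (x ᵥ* toReal A) j = ∑ a ∈ (Finset.univ : Finset ι).sigma
        (fun i => (A i j).coeff.support), x a.1 * MonoidAlgebra.single a.2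
          (((A a.1 j).coeff a.2 : ℤ) : ℝ) := by
      rw [Finset.sum_sigma]
      simp only [Matrix.vecMul, dotProduct]
      refine Finset.sum_congr rfl fun i _ => ?_
      rw [← Finset.mul_sum]
      congr 1
      ext g
      rw [MonoidAlgebra.coeff_sum, Finsupp.finsetSum_apply]
      simp only [toReal, Matrix.map_apply, MonoidAlgebra.coeff_mapRingHom,
        MonoidAlgebra.coeff_single, Finsupp.single_apply]
      rw [Finset.sum_ite_eq']
      split_ifs with hg
      · rfl
      · rw [Finsupp.notMem_support_iff.1 hg]; simp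
    rw [h1]
    refine (n1_sum_le _ _ (fun a => |(((A a.1 j).coeff a.2 : ℤ) : ℝ)| * h a.1) ?_).trans ?_
    · rintro ⟨i, g⟩ ha
      rw [Finset.mem_sigma] at ha
      have h2 := Finsupp.mem_support_iff.1 ha.2
      exact mul_pos (abs_pos.2 (by exact_mod_cast h2)) (hh i)
    · rw [Finset.sum_sigma, Finset.sum_sigma]
      have e1 : ∑ i, ∑ g ∈ (A i j).coeff.support, |(((A i j).coeff g : ℤ) : ℝ)| * h i
          = ∑ i, l1 (A i j) * h i := by
        refine Finset.sum_congr rfl fun i _ => ?_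
        rw [← Finset.sum_mul]; rfl
      have e2 : ∑ i, ∑ g ∈ (A i j).coeff.support,
          n1 (x i * MonoidAlgebra.single g (((A i j).coeff g : ℤ) : ℝ))
            / (|(((A i j).coeff g : ℤ) : ℝ)| * h i)
          = ∑ i, l1 (A i j) * (n1 (x i) / h i) := by
        refine Finset.sum_congr rfl fun i _ => ?_
        unfold l1
        rw [Finset.sum_mul]
        refine Finset.sum_congr rfl fun g hg => ?_
        have h2 := Finsupp.mem_support_iff.1 hg
        have h3 : |(((A i j).coeff g : ℤ) : ℝ)| ≠ 0 := (abs_pos.2 (by exact_mod_cast h2)).ne'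
        have h4 := (hh i).ne'
        rw [n1_smul, ← sq_abs (((A i j).coeff g : ℤ) : ℝ)]
        field_simp
      rw [e1, e2]
      refine mul_le_mul_of_nonneg_right (hc j) (Finset.sum_nonneg fun i _ => ?_)
      exact mul_nonneg (l1_nonneg _) (div_nonneg (n1_nonneg _) (hh i).le)
  rw [normSq_eq, normSq_eq]
  calc ∑ j, n1 ((x ᵥ* toReal A) j)
      ≤ ∑ j, (c * k j) * ∑ i, l1 (A i j) * (n1 (x i) / h i) :=
        Finset.sum_le_sum fun j _ => key j
    _ = ∑ i, c * (n1 (x i) / h i) * ∑ j, l1 (A i j) * k j := by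
        simp only [Finset.mul_sum]
        rw [Finset.sum_comm]
        refine Finset.sum_congr rfl fun i _ => Finset.sum_congr rfl fun j _ => ?_
        ring
    _ ≤ ∑ i, c * (n1 (x i) / h i) * (c * h i) := by
        refine Finset.sum_le_sum fun i _ => ?_
        by_cases hc0 : 0 ≤ c
        · exact mul_le_mul_of_nonneg_left (hr i)
            (mul_nonneg hc0 (div_nonneg (n1_nonneg _) (hh i).le))
        · exfalso
          have h5 := hr i
          have h6 : 0 ≤ ∑ j, l1 (A i j) * k j :=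
            Finset.sum_nonneg fun j _ => mul_nonneg (l1_nonneg _) (hk j).le
          have h7 : c * h i < 0 := mul_neg_of_neg_of_pos (not_le.1 hc0) (hh i)
          linarith
    _ = c ^ 2 * ∑ i, n1 (x i) := by
        rw [Finset.mul_sum]
        refine Finset.sum_congr rfl fun i _ => ?_
        have := (hh i).ne'
        field_simp

/-- the Schur test for the symmetrisation of a form -/
theorem schur_form (w : Γ →* ℤˣ) (ε : ℤ) (hε : ε = 1 ∨ ε = -1)
    (B : Matrix ι ι (MonoidAlgebra ℤ Γ)) (c : ℝ) (h : ι → ℝ) (hh : ∀ i, 0 < h i)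
    (hr : ∀ i, ∑ j, (l1 (B i j) + l1 (B j i)) * h j ≤ c * h i) :
    NormLE (B + ε • sadj w B) c := by
  have e : ∀ i j, l1 ((B + ε • sadj w B) i j) ≤ l1 (B i j) + l1 (B j i) := by
    intro i j
    refine (l1_add_le _ _).trans ?_
    rw [Matrix.smul_apply, l1_zsmul_unit ε hε, sadj_apply, l1_sbar]
  refine schur_test _ c h h hh hh (fun i => ?_) (fun j => ?_)
  · refine (Finset.sum_le_sum fun j _ => ?_).trans (hr i)
    exact mul_le_mul_of_nonneg_right (e i j) (hh j).le
  · refine (Finset.sum_le_sum fun i _ => ?_).trans (hr j)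
    refine mul_le_mul_of_nonneg_right ((e i j).trans_eq (add_comm _ _)) (hh i).le

end Helper82K9.SF
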