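import Pool.Agent.Helper82K9.Net

set_option autoImplicit false
set_option linter.unusedSectionVars false

/-! # Subdivision of the entries of a form -/

namespace Helper82K9.SF

open Matrix TH57.Thr TH6.LF TH6.PF

variable {Γ : Type} [Group Γ]

variable {m T : Type} [Fintype m] [DecidableEq m] [Fintype T] [DecidableEq T]

/-- the data of a subdivision: the edges `t` with their end points and the labels of their parts -/
structure Sub (m T : Type) (Γ : Type) [Group Γ] where
  i : T → m
  j : T → m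
  q : ℕ
  a : T → ℕ → MonoidAlgebra ℤ Γ
  u : T → ℕ → MonoidAlgebra ℤ Γ
  hq : 0 < q
  hu : ∀ t k, u t k = a t k * u t (k + 1)
  hu1 : ∀ t, u t (q + 1) = 1

namespace Sub

variable (D : Sub m T Γ)

/-- first edges -/
noncomputable def Y : Matrix m (T × Fin D.q) (MonoidAlgebra ℤ Γ) := Matrix.of fun v k =>
  if v = D.i k.1 ∧ k.2.val = 0 then D.a k.1 0 else 0

/-- inner edges -/
noncomputable def N : Matrix (T × Fin D.q) (T × Fin D.q) (MonoidAlgebra ℤ Γ) := Matrix.of fun k l =>
  if k.1 = l.1 ∧ k.2.val + 1 = l.2.val then D.a k.1 l.2.val else 0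

/-- last edges -/
noncomputable def X : Matrix (T × Fin D.q) m (MonoidAlgebra ℤ Γ) := Matrix.of fun k v =>
  if v = D.j k.1 ∧ k.2.val + 1 = D.q then D.a k.1 D.q else 0

/-- the paths to the end -/
noncomputable def W : Matrix (T × Fin D.q) m (MonoidAlgebra ℤ Γ) := Matrix.of fun k v =>
  if v = D.j k.1 then D.u k.1 (k.2.val + 1) else 0

theorem N_rk (k l : T × Fin D.q) (h : D.N k l ≠ 0) : k.2.val < l.2.val := by
  simp only [N, Matrix.of_apply] at h
  by_cases h1 : k.1 = l.1 ∧ k.2.val + 1 = l.2.val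
  · omega
  · rw [if_neg h1] at h; exact absurd rfl h

theorem NW (t : T) (s : Fin D.q) (v : m) :
    (D.N * D.W) (t, s) v = if s.val + 1 < D.q then D.W (t, s) v else 0 := by
  rw [Matrix.mul_apply, Fintype.sum_prod_type]
  rw [Finset.sum_eq_single t]
  · by_cases h : s.val + 1 < D.q
    · rw [Finset.sum_eq_single (⟨s.val + 1, h⟩ : Fin D.q)]
      · rw [if_pos h]
        simp only [N, W, Matrix.of_apply, true_and, if_true]
        split_ifs
        · rw [← D.hu]
        · rw [mul_zero]
      · intro s' _ hs'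
        have h1 : ¬ (s.val + 1 = s'.val) := fun h2 => hs' (Fin.ext h2.symm)
        simp only [N, Matrix.of_apply, true_and]
        rw [if_neg h1, zero_mul]
      · intro h1; exact absurd (Finset.mem_univ _) h1
    · rw [if_neg h]
      refine Finset.sum_eq_zero fun s' _ => ?_
      simp only [N, Matrix.of_apply, true_and]
      rw [if_neg (by have := s'.isLt; omega), zero_mul]
  · intro t' _ ht'
    refine Finset.sum_eq_zero fun s' _ => ?_
    simp only [N, Matrix.of_apply]
    rw [if_neg (fun h => ht' h.1.symm), zero_mul]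
  · intro h1; exact absurd (Finset.mem_univ _) h1

theorem XNW : D.X + D.N * D.W = D.W := by
  ext1 k v
  obtain ⟨t, s⟩ := k
  rw [Matrix.add_apply, NW]
  by_cases h : s.val + 1 < D.q
  · rw [if_pos h]
    simp only [X, Matrix.of_apply]
    rw [if_neg (by omega), zero_add]
  · have h1 : s.val + 1 = D.q := by have := s.isLt; omega
    rw [if_neg h, add_zero]
    simp only [X, W, Matrix.of_apply, h1, and_true]
    split_ifs
    · rw [D.hu, D.hu1, mul_one]
    · rfl

theorem YW (v v' : m) :
    (D.Y * D.W) v v' = ∑ t, if D.i t = v ∧ D.j t = v' then D.u t 0 else 0 := by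
  rw [Matrix.mul_apply, Fintype.sum_prod_type]
  refine Finset.sum_congr rfl fun t _ => ?_
  rw [Finset.sum_eq_single (⟨0, D.hq⟩ : Fin D.q)]
  · simp only [Y, W, Matrix.of_apply, and_true]
    by_cases h1 : v = D.i t
    · by_cases h2 : v' = D.j t
      · rw [if_pos h1, if_pos h2, if_pos ⟨h1.symm, h2.symm⟩, D.hu t 0]
      · rw [if_neg h2, mul_zero, if_neg (fun h => h2 h.2.symm)]
    · rw [if_neg h1, zero_mul, if_neg (fun h => h1 h.1.symm)]
  · intro s _ hs
    simp only [Y, Matrix.of_apply]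
    rw [if_neg (fun h => hs (Fin.ext h.2)), zero_mul]
  · intro h1; exact absurd (Finset.mem_univ _) h1

/-- the subdivided form -/
noncomputable def form : Matrix (m ⊕ ((T × Fin D.q) ⊕ (T × Fin D.q)))
    (m ⊕ ((T × Fin D.q) ⊕ (T × Fin D.q))) (MonoidAlgebra ℤ Γ) := net D.Y D.N D.X

theorem rep (w : Γ →* ℤˣ) (B : Matrix m m (MonoidAlgebra ℤ Γ))
    (hB : ∀ v v', B v v' = ∑ t, if D.i t = v ∧ D.j t = v' then D.u t 0 else 0) :
    Rep w B D.form := by
  obtain ⟨E, hE, h⟩ := net_eq w B D.Y D.N D.X D.W (fun k => k.2.val) D.N_rk D.XNW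
    (by ext1 v v'; rw [D.YW, hB])
  exact ⟨T × Fin D.q, inferInstance, inferInstance, Equiv.refl _, E, hE, h⟩

/-- the weight of a vertex -/
noncomputable def wt (f : ℕ → ℝ) : m ⊕ ((T × Fin D.q) ⊕ (T × Fin D.q)) → ℝ
  | Sum.inl _ => f 0
  | Sum.inr (Sum.inl k) => f (2 * k.2.val + 2)
  | Sum.inr (Sum.inr k) => f (2 * k.2.val + 1)

theorem row_v (ha : ∀ t k, l1 (D.a t k) = 1) (f : ℕ → ℝ) (v : m) :
    ∑ b, (l1 (D.form (Sum.inl v) b) + l1 (D.form b (Sum.inl v))) * D.wt f b
      = (Finset.univ.filter fun t => D.j t = v).card * f (2 * D.q)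
        + (Finset.univ.filter fun t => D.i t = v).card * f 1 := by
  have hp : ∀ k : T × Fin D.q, D.form (Sum.inl v) (Sum.inr (Sum.inl k)) = 0 := fun _ => rfl
  have hr : ∀ k : T × Fin D.q, D.form (Sum.inr (Sum.inr k)) (Sum.inl v) = 0 := fun _ => rfl
  have hv : ∀ v' : m, D.form (Sum.inl v) (Sum.inl v') = 0 := fun _ => rfl
  have hv' : ∀ v' : m, D.form (Sum.inl v') (Sum.inl v) = 0 := fun _ => rfl
  have hx : ∀ k : T × Fin D.q, D.form (Sum.inr (Sum.inl k)) (Sum.inl v) = D.X k v := fun _ => rfl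
  have hy : ∀ k : T × Fin D.q, D.form (Sum.inl v) (Sum.inr (Sum.inr k)) = -D.Y v k := fun _ => rfl
  rw [Fintype.sum_sum_type, Fintype.sum_sum_type]
  simp only [hp, hr, hv, hv', hx, hy, l1_zero, l1_neg, zero_add, add_zero, zero_mul,
    Finset.sum_const_zero]
  congr 1
  · rw [Fintype.sum_prod_type, Finset.card_filter, Nat.cast_sum, Finset.sum_mul]
    refine Finset.sum_congr rfl fun t _ => ?_
    have hq := D.hq
    rw [Finset.sum_eq_single (⟨D.q - 1, by omega⟩ : Fin D.q)]
    · have h1 : D.q - 1 + 1 = D.q := by omega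
      have h2 : 2 * (D.q - 1) + 2 = 2 * D.q := by omega
      simp only [X, Matrix.of_apply, wt, h1, h2, and_true]
      by_cases h : v = D.j t
      · rw [if_pos h, if_pos h.symm, ha]; simp
      · rw [if_neg h, if_neg (Ne.symm h), l1_zero]; simp
    · intro s _ hs
      simp only [X, Matrix.of_apply]
      rw [if_neg, l1_zero, zero_mul]
      rintro ⟨_, h⟩
      exact hs (Fin.ext (by simp only; omega))
    · intro h1; exact absurd (Finset.mem_univ _) h1
  · rw [Fintype.sum_prod_type, Finset.card_filter, Nat.cast_sum, Finset.sum_mul]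
    refine Finset.sum_congr rfl fun t _ => ?_
    rw [Finset.sum_eq_single (⟨0, D.hq⟩ : Fin D.q)]
    · simp only [Y, Matrix.of_apply, wt, and_true]
      by_cases h : v = D.i t
      · rw [if_pos h, if_pos h.symm, ha]; simp
      · rw [if_neg h, if_neg (Ne.symm h), l1_zero]; simp
    · intro s _ hs
      simp only [Y, Matrix.of_apply]
      rw [if_neg, l1_zero, zero_mul]
      rintro ⟨_, h⟩
      exact hs (Fin.ext h)
    · intro h1; exact absurd (Finset.mem_univ _) h1

theorem l1_oneN (ha : ∀ t k, l1 (D.a t k) = 1) (t : T) (s : Fin D.q) (t' : T) (s' : Fin D.q) :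
    l1 ((1 - D.N) (t, s) (t', s')) = (if t = t' ∧ s = s' then 1 else 0)
      + (if t = t' ∧ s.val + 1 = s'.val then 1 else 0) := by
  rw [Matrix.sub_apply, Matrix.one_apply]
  simp only [N, Matrix.of_apply, Prod.mk.injEq]
  by_cases h : t = t' ∧ s = s'
  · rw [if_pos h, if_pos h, if_neg, if_neg, sub_zero, l1_one, add_zero]
    all_goals rintro ⟨_, h2⟩; rw [h.2] at h2; omega
  · rw [if_neg h, if_neg h, zero_sub, l1_neg, zero_add]
    split_ifs
    · exact ha _ _
    · exact l1_zero

theorem row_p (ha : ∀ t k, l1 (D.a t k) = 1) (f : ℕ → ℝ) (hf : f (2 * D.q + 1) = f 0)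
    (t : T) (s : Fin D.q) :
    ∑ b, (l1 (D.form (Sum.inr (Sum.inl (t, s))) b) + l1 (D.form b (Sum.inr (Sum.inl (t, s)))))
        * D.wt f b = f (2 * s.val + 1) + f (2 * s.val + 3) := by
  have h1 : ∀ v, D.form (Sum.inr (Sum.inl (t, s))) (Sum.inl v) = D.X (t, s) v := fun _ => rfl
  have h2 : ∀ v, D.form (Sum.inl v) (Sum.inr (Sum.inl (t, s))) = 0 := fun _ => rfl
  have h3 : ∀ k, D.form (Sum.inr (Sum.inl (t, s))) (Sum.inr (Sum.inl k)) = 0 := fun _ => rfl
  have h4 : ∀ k, D.form (Sum.inr (Sum.inl k)) (Sum.inr (Sum.inl (t, s))) = 0 := fun _ => rfl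
  have h5 : ∀ k, D.form (Sum.inr (Sum.inl (t, s))) (Sum.inr (Sum.inr k)) = (1 - D.N) (t, s) k :=
    fun _ => rfl
  have h6 : ∀ k, D.form (Sum.inr (Sum.inr k)) (Sum.inr (Sum.inl (t, s))) = 0 := fun _ => rfl
  rw [Fintype.sum_sum_type, Fintype.sum_sum_type]
  simp only [h1, h2, h3, h4, h5, h6, l1_zero, zero_add, add_zero, zero_mul,
    Finset.sum_const_zero]
  have e1 : ∑ v, l1 (D.X (t, s) v) * D.wt f (Sum.inl v)
      = if s.val + 1 = D.q then f 0 else 0 := by
    rw [Finset.sum_eq_single (D.j t)]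
    · simp only [X, Matrix.of_apply, wt, true_and]
      split_ifs
      · rw [ha, one_mul]
      · rw [l1_zero, zero_mul]
    · intro v _ hv
      simp only [X, Matrix.of_apply]
      rw [if_neg (fun h => hv h.1), l1_zero, zero_mul]
    · intro h1; exact absurd (Finset.mem_univ _) h1
  have e2 : ∑ k, l1 ((1 - D.N) (t, s) k) * D.wt f (Sum.inr (Sum.inr k))
      = f (2 * s.val + 1) + if s.val + 1 < D.q then f (2 * s.val + 3) else 0 := by
    rw [Fintype.sum_prod_type, Finset.sum_eq_single t]
    · simp only [l1_oneN D ha, true_and, add_mul, Finset.sum_add_distrib]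
      congr 1
      · simp [wt]
      · by_cases h : s.val + 1 < D.q
        · rw [if_pos h, Finset.sum_eq_single (⟨s.val + 1, h⟩ : Fin D.q)]
          · simp only [if_true, one_mul, wt]
            congr 1
          · intro s' _ hs'
            rw [if_neg (fun h2 => hs' (Fin.ext h2.symm)), zero_mul]
          · intro h1; exact absurd (Finset.mem_univ _) h1
        · rw [if_neg h]
          refine Finset.sum_eq_zero fun s' _ => ?_
          rw [if_neg (by have := s'.isLt; omega), zero_mul]
    · intro t' _ ht'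
      refine Finset.sum_eq_zero fun s' _ => ?_
      rw [l1_oneN D ha, if_neg (fun h => ht' h.1.symm), if_neg (fun h => ht' h.1.symm)]
      simp
    · intro h1; exact absurd (Finset.mem_univ _) h1
  rw [e1, e2]
  by_cases h : s.val + 1 < D.q
  · rw [if_neg (by omega), if_pos h, zero_add]
  · have h' : s.val + 1 = D.q := by have := s.isLt; omega
    have h'' : 2 * s.val + 3 = 2 * D.q + 1 := by omega
    rw [if_pos h', if_neg h, add_zero, h'', hf, add_comm]

theorem row_r (ha : ∀ t k, l1 (D.a t k) = 1) (f : ℕ → ℝ) (t : T) (s : Fin D.q) :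
    ∑ b, (l1 (D.form (Sum.inr (Sum.inr (t, s))) b) + l1 (D.form b (Sum.inr (Sum.inr (t, s)))))
        * D.wt f b = f (2 * s.val) + f (2 * s.val + 2) := by
  have h1 : ∀ v, D.form (Sum.inr (Sum.inr (t, s))) (Sum.inl v) = 0 := fun _ => rfl
  have h2 : ∀ v, D.form (Sum.inl v) (Sum.inr (Sum.inr (t, s))) = -D.Y v (t, s) := fun _ => rfl
  have h3 : ∀ k, D.form (Sum.inr (Sum.inr (t, s))) (Sum.inr (Sum.inl k)) = 0 := fun _ => rfl
  have h4 : ∀ k, D.form (Sum.inr (Sum.inl k)) (Sum.inr (Sum.inr (t, s))) = (1 - D.N) k (t, s) :=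
    fun _ => rfl
  have h5 : ∀ k, D.form (Sum.inr (Sum.inr (t, s))) (Sum.inr (Sum.inr k)) = 0 := fun _ => rfl
  have h6 : ∀ k, D.form (Sum.inr (Sum.inr k)) (Sum.inr (Sum.inr (t, s))) = 0 := fun _ => rfl
  rw [Fintype.sum_sum_type, Fintype.sum_sum_type]
  simp only [h1, h2, h3, h4, h5, h6, l1_zero, l1_neg, zero_add, add_zero, zero_mul,
    Finset.sum_const_zero]
  have e1 : ∑ v, l1 (D.Y v (t, s)) * D.wt f (Sum.inl v)
      = if s.val = 0 then f 0 else 0 := by
    rw [Finset.sum_eq_single (D.i t)]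
    · simp only [Y, Matrix.of_apply, wt, true_and]
      split_ifs
      · rw [ha, one_mul]
      · rw [l1_zero, zero_mul]
    · intro v _ hv
      simp only [Y, Matrix.of_apply]
      rw [if_neg (fun h => hv h.1), l1_zero, zero_mul]
    · intro h1; exact absurd (Finset.mem_univ _) h1
  have e2 : ∑ k, l1 ((1 - D.N) k (t, s)) * D.wt f (Sum.inr (Sum.inl k))
      = f (2 * s.val + 2) + if 0 < s.val then f (2 * s.val) else 0 := by
    rw [Fintype.sum_prod_type, Finset.sum_eq_single t]
    · simp only [l1_oneN D ha, true_and, add_mul, Finset.sum_add_distrib]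
      congr 1
      · simp [wt]
      · by_cases h : 0 < s.val
        · rw [if_pos h, Finset.sum_eq_single (⟨s.val - 1, by have := s.isLt; omega⟩ : Fin D.q)]
          · simp only [wt]
            rw [if_pos (by omega), one_mul]
            congr 1
            omega
          · intro s' _ hs'
            rw [if_neg (fun h2 => hs' (Fin.ext (by simp only; omega))), zero_mul]
          · intro h1; exact absurd (Finset.mem_univ _) h1
        · rw [if_neg h]
          refine Finset.sum_eq_zero fun s' _ => ?_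
          rw [if_neg (by omega), zero_mul]
    · intro t' _ ht'
      refine Finset.sum_eq_zero fun s' _ => ?_
      rw [l1_oneN D ha, if_neg (fun h => ht' h.1), if_neg (fun h => ht' h.1)]
      simp
    · intro h1; exact absurd (Finset.mem_univ _) h1
  rw [e1, e2]
  by_cases h : 0 < s.val
  · rw [if_neg (by omega), if_pos h, zero_add, add_comm]
  · have h' : s.val = 0 := by omega
    rw [if_pos h', if_neg h, add_zero, h']

end Sub

end Helper82K9.SF
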